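import Mathlib

set_option autoImplicit false

open scoped Pointwise

namespace Pool.Agent.Helper20.Ehrhart

/-- An integer vector regarded as a real vector. -/
def toReal {ι : Type*} (z : ι → ℤ) : ι → ℝ := fun i => (z i : ℝ)

/-- A lattice polytope in `ℝ^ι` (with respect to `ℤ^ι`): the convex hull of a nonempty finite set
of integer vectors. -/
def IsLatticePolytope {ι : Type*} (P : Set (ι → ℝ)) : Prop :=
  ∃ V : Set (ι → ℤ), V.Finite ∧ V.Nonempty ∧ P = convexHull ℝ (toReal '' V)

/-- The dimension of `P`: the dimension of the direction of its affine span. -/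
noncomputable def polyDim {ι : Type*} (P : Set (ι → ℝ)) : ℕ :=
  Module.finrank ℝ (vectorSpan ℝ P)

/-- The number of integer vectors in the `n`-th dilate `n P`. -/
noncomputable def latticeCount {ι : Type*} (P : Set (ι → ℝ)) (n : ℕ) : ℕ :=
  {z : ι → ℤ | toReal z ∈ (n : ℝ) • P}.ncard

/-- The Ehrhart series `1 + ∑_{n ≥ 1} #(n P ∩ ℤ^ι) z^n`. -/
noncomputable def ehrhartSeries {ι : Type*} (P : Set (ι → ℝ)) : PowerSeries ℤ :=
  PowerSeries.mk fun n => if n = 0 then 1 else (latticeCount P n : ℤ)

/-- The `h*`-polynomial of `P`, i.e. the numerator `(1 - z)^(dim P + 1) * Ehr_P(z)` of the Ehrhart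
series, as a formal power series. -/
noncomputable def hStar {ι : Type*} (P : Set (ι → ℝ)) : PowerSeries ℤ :=
  (1 - PowerSeries.X) ^ (polyDim P + 1) * ehrhartSeries P

/-- The order polytope of a partially ordered set `α`: all order preserving `x : α → [0,1]`. -/
def orderPolytope (α : Type*) [PartialOrder α] : Set (α → ℝ) :=
  {x | (∀ a, 0 ≤ x a ∧ x a ≤ 1) ∧ ∀ a b, a ≤ b → x a ≤ x b}

end Pool.Agent.Helper20.Ehrhart
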