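import Mathlib
import Pool.Agent.Helper20.EhrhartDefs

set_option autoImplicit false

open scoped Pointwise
open Finset PowerSeries

namespace Pool.Agent.Helper20.Ehrhart

lemma toReal_zero {ι : Type*} : toReal (0 : ι → ℤ) = 0 := by
  funext i; simp [toReal]

lemma toReal_add {ι : Type*} (x y : ι → ℤ) : toReal (x + y) = toReal x + toReal y := by
  funext i; simp [toReal]

lemma toReal_sub {ι : Type*} (x y : ι → ℤ) : toReal (x - y) = toReal x - toReal y := by
  funext i; simp [toReal]

lemma toReal_injective {ι : Type*} : Function.Injective (toReal (ι := ι)) := by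
  intro x y h
  funext i
  have := congrFun h i
  simpa [toReal] using this

lemma toReal_sum {ι κ : Type*} (s : Finset κ) (f : κ → ι → ℤ) :
    toReal (∑ k ∈ s, f k) = ∑ k ∈ s, toReal (f k) := by
  funext i; simp [toReal]

/-- lattice points in the `n`-th dilate -/
def lat {ι : Type*} (P : Set (ι → ℝ)) (n : ℕ) : Set (ι → ℤ) := {z | toReal z ∈ (n : ℝ) • P}

lemma latticeCount_eq {ι : Type*} (P : Set (ι → ℝ)) (n : ℕ) : latticeCount P n = (lat P n).ncard := rfl

lemma lat_finite {ι : Type*} [Finite ι] (V : Set (ι → ℤ)) (hV : V.Finite) (n : ℕ) :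
    (lat (convexHull ℝ (toReal '' V)) n).Finite := by
  classical
  cases nonempty_fintype ι
  obtain ⟨u, hu⟩ := hV.bddAbove
  obtain ⟨l, hl⟩ := hV.bddBelow
  have h1 : convexHull ℝ (toReal '' V) ⊆ Set.Icc (toReal l) (toReal u) := by
    apply convexHull_min
    · rintro _ ⟨v, hv, rfl⟩
      constructor
      · intro i; simp only [toReal]; exact_mod_cast hl hv i
      · intro i; simp only [toReal]; exact_mod_cast hu hv i
    · exact convex_Icc _ _
  apply (Set.finite_Icc (n • l) (n • u)).subset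
  intro z hz
  rw [lat, Set.mem_ofPred_eq, Set.mem_smul_set] at hz
  obtain ⟨y, hy, hyz⟩ := hz
  have h2 := h1 hy
  have hn : (0 : ℝ) ≤ n := Nat.cast_nonneg n
  constructor
  · intro i
    have h3 := congrFun hyz i
    have h4 := h2.1 i
    simp only [toReal, Pi.smul_apply, smul_eq_mul] at h3 h4
    have h5 : (n : ℝ) * (l i : ℝ) ≤ (z i : ℝ) := by
      rw [← h3]; exact mul_le_mul_of_nonneg_left h4 hn
    have : (n : ℤ) * l i ≤ z i := by exact_mod_cast h5
    simpa using this
  · intro i
    have h3 := congrFun hyz i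
    have h4 := h2.2 i
    simp only [toReal, Pi.smul_apply, smul_eq_mul] at h3 h4
    have h5 : (z i : ℝ) ≤ (n : ℝ) * (u i : ℝ) := by
      rw [← h3]; exact mul_le_mul_of_nonneg_left h4 hn
    have : z i ≤ (n : ℤ) * u i := by exact_mod_cast h5
    simpa using this


lemma toReal_cons {m : ℕ} (t : ℤ) (v : Fin m → ℤ) :
    toReal (Fin.cons t v : Fin (m + 1) → ℤ) = (Fin.cons (t : ℝ) (toReal v) : Fin (m + 1) → ℝ) := by
  funext i
  refine Fin.cases ?_ (fun i => ?_) i <;> simp [toReal]

/-- the vertex set of the double pyramid over the prism -/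
def plus {m : ℕ} (V : Set (Fin m → ℤ)) : Set (Fin (m + 1) → ℤ) :=
  (fun v => Fin.cons 0 v) '' V ∪ (fun v => Fin.cons 1 v) '' V ∪
    {Fin.cons 2 (0 : Fin m → ℤ), Fin.cons (-1) (0 : Fin m → ℤ)}

lemma mem_lat {ι : Type*} {P : Set (ι → ℝ)} {n : ℕ} {z : ι → ℤ} :
    z ∈ lat P n ↔ toReal z ∈ (n : ℝ) • P := Iff.rfl

lemma comb_mem {E : Type*} [AddCommGroup E] [Module ℝ E] {Q : Set E} (hQ : Convex ℝ Q)
    {a b c : ℝ} (ha : 0 ≤ a) (hb : 0 ≤ b) (hc : a + b = c) {x y : E} (hx : x ∈ Q) (hy : y ∈ Q) :
    a • x + b • y ∈ c • Q := by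
  rw [← hc, hQ.add_smul ha hb]
  exact Set.add_mem_add (Set.smul_mem_smul_set hx) (Set.smul_mem_smul_set hy)

lemma smul_mono {E : Type*} [AddCommGroup E] [Module ℝ E] {Q : Set E} (hQ : Convex ℝ Q)
    (h0 : (0 : E) ∈ Q) {a b : ℝ} (ha : 0 ≤ a) (hab : a ≤ b) : a • Q ⊆ b • Q := by
  intro x hx
  have h1 : b • Q = a • Q + (b - a) • Q := by
    rw [← hQ.add_smul ha (by linarith)]; congr 1; ring
  rw [h1]
  refine ⟨x, hx, 0, ?_, add_zero x⟩
  exact ⟨0, h0, smul_zero _⟩

/-- auxiliary convex set containing the double pyramid over the prism over `Q` -/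
def region {m : ℕ} (Q : Set (Fin m → ℝ)) : Set (Fin (m + 1) → ℝ) :=
  {x | ∃ l : ℝ, 0 ≤ l ∧ l ≤ 1 ∧ l ≤ 2 - x 0 ∧ l ≤ 1 + x 0 ∧ Fin.tail x ∈ l • Q}

lemma region_convex {m : ℕ} {Q : Set (Fin m → ℝ)} (hQ : Convex ℝ Q) : Convex ℝ (region Q) := by
  rintro x ⟨l, h0, h1, h2, h3, h4⟩ y ⟨l', h0', h1', h2', h3', h4'⟩ a b ha hb hab
  refine ⟨a * l + b * l', by positivity, by nlinarith, ?_, ?_, ?_⟩
  · simp only [Pi.add_apply, Pi.smul_apply, smul_eq_mul]; nlinarith
  · simp only [Pi.add_apply, Pi.smul_apply, smul_eq_mul]; nlinarith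
  · have e : Fin.tail (a • x + b • y) = a • Fin.tail x + b • Fin.tail y := by
      funext i; simp [Fin.tail]
    rw [e, hQ.add_smul (by positivity) (by positivity)]
    apply Set.add_mem_add
    · rw [mul_smul]; exact Set.smul_mem_smul_set h4
    · rw [mul_smul]; exact Set.smul_mem_smul_set h4'

lemma plus_subset_region {m : ℕ} {V : Set (Fin m → ℤ)} :
    convexHull ℝ (toReal '' plus V) ⊆ region (convexHull ℝ (toReal '' V)) ∨ (0 : Fin m → ℤ) ∉ V := by
  by_cases h0 : (0 : Fin m → ℤ) ∈ V
  · left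
    apply convexHull_min _ (region_convex (convex_convexHull ℝ _))
    have hV : ∀ v ∈ V, toReal v ∈ convexHull ℝ (toReal '' V) := fun v hv =>
      subset_convexHull ℝ _ ⟨v, hv, rfl⟩
    rintro _ ⟨w, hw, rfl⟩
    rcases hw with (⟨v, hv, rfl⟩ | ⟨v, hv, rfl⟩) | hw
    · refine ⟨1, by norm_num, le_rfl, ?_, ?_, ?_⟩
      · rw [toReal_cons, Fin.cons_zero]; norm_num
      · rw [toReal_cons, Fin.cons_zero]; norm_num
      · rw [toReal_cons, Fin.tail_cons, one_smul]; exact hV v hv
    · refine ⟨1, by norm_num, le_rfl, ?_, ?_, ?_⟩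
      · rw [toReal_cons, Fin.cons_zero]; norm_num
      · rw [toReal_cons, Fin.cons_zero]; norm_num
      · rw [toReal_cons, Fin.tail_cons, one_smul]; exact hV v hv
    · rcases hw with rfl | rfl
      · refine ⟨0, le_rfl, by norm_num, ?_, ?_, ?_⟩
        · rw [toReal_cons, Fin.cons_zero]; norm_num
        · rw [toReal_cons, Fin.cons_zero]; norm_num
        · rw [toReal_cons, Fin.tail_cons, toReal_zero]
          exact ⟨toReal 0, hV 0 h0, by simp⟩
      · refine ⟨0, le_rfl, by norm_num, ?_, ?_, ?_⟩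
        · rw [toReal_cons, Fin.cons_zero]; norm_num
        · rw [toReal_cons, Fin.cons_zero]; norm_num
        · rw [toReal_cons, Fin.tail_cons, toReal_zero]
          exact ⟨toReal 0, hV 0 h0, by simp⟩
  · right; exact h0

lemma cons_smul {m : ℕ} (c t : ℝ) (y : Fin m → ℝ) :
    c • (Fin.cons t y : Fin (m + 1) → ℝ) = Fin.cons (c * t) (c • y) := by
  funext i
  refine Fin.cases ?_ (fun i => ?_) i <;> simp

lemma cons_add {m : ℕ} (t t' : ℝ) (y y' : Fin m → ℝ) :
    (Fin.cons t y + Fin.cons t' y' : Fin (m + 1) → ℝ) = Fin.cons (t + t') (y + y') := by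
  funext i
  refine Fin.cases ?_ (fun i => ?_) i <;> simp

/-- cross sections at heights `0` and `1` lie in the new polytope -/
lemma cons_mem_plus {m : ℕ} {V : Set (Fin m → ℤ)} {y : Fin m → ℝ}
    (hy : y ∈ convexHull ℝ (toReal '' V)) (t : ℤ) (ht : t = 0 ∨ t = 1) :
    (Fin.cons (t : ℝ) y : Fin (m + 1) → ℝ) ∈ convexHull ℝ (toReal '' plus V) := by
  have h1 : Convex ℝ {y : Fin m → ℝ | (Fin.cons (t : ℝ) y : Fin (m + 1) → ℝ) ∈
      convexHull ℝ (toReal '' plus V)} := by
    intro y hy y' hy' a b ha hb hab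
    have := convex_convexHull ℝ (toReal '' plus V) hy hy' ha hb hab
    rw [cons_smul, cons_smul, cons_add] at this
    have e : a * (t : ℝ) + b * (t : ℝ) = t := by rw [← add_mul, hab, one_mul]
    rw [e] at this
    exact this
  refine convexHull_min ?_ h1 hy
  rintro _ ⟨v, hv, rfl⟩
  rw [Set.mem_ofPred_eq, ← toReal_cons]
  apply subset_convexHull
  refine ⟨_, ?_, rfl⟩
  rcases ht with rfl | rfl
  · left; left; exact ⟨v, hv, rfl⟩
  · left; right; exact ⟨v, hv, rfl⟩

lemma apex_mem_plus {m : ℕ} {V : Set (Fin m → ℤ)} (t : ℤ) (ht : t = 2 ∨ t = -1) :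
    (Fin.cons (t : ℝ) (0 : Fin m → ℝ) : Fin (m + 1) → ℝ) ∈ convexHull ℝ (toReal '' plus V) := by
  rw [← toReal_zero, ← toReal_cons]
  apply subset_convexHull
  refine ⟨_, ?_, rfl⟩
  right
  rcases ht with rfl | rfl
  · left; rfl
  · right; rfl

lemma mem_lat_plus {m : ℕ} {V : Set (Fin m → ℤ)} (h0 : (0 : Fin m → ℤ) ∈ V) (n : ℕ)
    (z : Fin (m + 1) → ℤ) :
    z ∈ lat (convexHull ℝ (toReal '' plus V)) n ↔
      (∃ t ∈ Finset.range (n + 1), z 0 = t ∧ Fin.tail z ∈ lat (convexHull ℝ (toReal '' V)) n) ∨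
      (∃ j ∈ Finset.range n, z 0 = 2 * n - j ∧ Fin.tail z ∈ lat (convexHull ℝ (toReal '' V)) j) ∨
      (∃ j ∈ Finset.range n, z 0 = -n + j ∧ Fin.tail z ∈ lat (convexHull ℝ (toReal '' V)) j) := by
  set Q := convexHull ℝ (toReal '' V) with hQ
  have hQc : Convex ℝ Q := convex_convexHull ℝ _
  have hQ0 : (0 : Fin m → ℝ) ∈ Q := by
    rw [← toReal_zero]; exact subset_convexHull ℝ _ ⟨0, h0, rfl⟩
  set Q' := convexHull ℝ (toReal '' plus V) with hQ'
  have hQ'c : Convex ℝ Q' := convex_convexHull ℝ _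
  have htail : ∀ z : Fin (m + 1) → ℤ, toReal (Fin.tail z) = Fin.tail (toReal z) := fun z => rfl
  constructor
  · intro hz
    obtain ⟨x, hx, hxz⟩ := hz
    have hx' : x ∈ region Q := by
      rcases plus_subset_region (V := V) with h | h
      · exact h hx
      · exact absurd h0 h
    obtain ⟨l, hl0, hl1, hl2, hl3, hl4⟩ := hx'
    have hn : (0 : ℝ) ≤ n := Nat.cast_nonneg n
    have hx0 : (n : ℝ) * x 0 = (z 0 : ℝ) := congrFun hxz 0
    have htl : Fin.tail (toReal z) ∈ ((n : ℝ) * l) • Q := by
      have : Fin.tail (toReal z) = (n : ℝ) • Fin.tail x := by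
        rw [← show (n : ℝ) • x = toReal z from hxz]; rfl
      rw [this, mul_smul]
      exact Set.smul_mem_smul_set hl4
    have b0 : 0 ≤ (n : ℝ) * l := by positivity
    have b1 : (n : ℝ) * l ≤ n := by nlinarith
    have b2 : (n : ℝ) * l ≤ 2 * n - z 0 := by rw [← hx0]; nlinarith
    have b3 : (n : ℝ) * l ≤ n + z 0 := by rw [← hx0]; nlinarith
    rcases lt_or_ge (z 0) 0 with hneg | hpos
    · right; right
      have hc : (0 : ℤ) ≤ n + z 0 := by
        have : (0 : ℝ) ≤ n + z 0 := b0.trans b3
        exact_mod_cast this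
      refine ⟨(n + z 0).toNat, ?_, ?_, ?_⟩
      · rw [Finset.mem_range]; omega
      · rw [Int.toNat_of_nonneg hc]; ring
      · rw [mem_lat, htail]
        refine smul_mono hQc hQ0 b0 ?_ htl
        have : (((n + z 0).toNat : ℕ) : ℝ) = n + z 0 := by
          have := Int.toNat_of_nonneg hc
          exact_mod_cast this
        rw [this]; exact b3
    · rcases le_or_gt (z 0) n with hle | hgt
      · left
        refine ⟨(z 0).toNat, ?_, ?_, ?_⟩
        · rw [Finset.mem_range]; omega
        · rw [Int.toNat_of_nonneg hpos]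
        · rw [mem_lat, htail]
          exact smul_mono hQc hQ0 b0 b1 htl
      · right; left
        have hc : (0 : ℤ) ≤ 2 * n - z 0 := by
          have : (0 : ℝ) ≤ 2 * n - z 0 := b0.trans b2
          exact_mod_cast this
        refine ⟨(2 * n - z 0).toNat, ?_, ?_, ?_⟩
        · rw [Finset.mem_range]; omega
        · rw [Int.toNat_of_nonneg hc]; ring
        · rw [mem_lat, htail]
          refine smul_mono hQc hQ0 b0 ?_ htl
          have : (((2 * n - z 0).toNat : ℕ) : ℝ) = 2 * n - z 0 := by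
            have := Int.toNat_of_nonneg hc
            exact_mod_cast this
          rw [this]; exact b2
  · have hz : toReal z = Fin.cons ((z 0 : ℤ) : ℝ) (toReal (Fin.tail z)) := by
      rw [← toReal_cons, Fin.cons_self_tail]
    rintro (⟨t, ht, hzt, hzl⟩ | ⟨j, hj, hzj, hzl⟩ | ⟨j, hj, hzj, hzl⟩)
    · rw [Finset.mem_range] at ht
      obtain ⟨q, hq, hqz⟩ := hzl
      change (n : ℝ) • q = _ at hqz
      change toReal z ∈ (n : ℝ) • Q'
      have e : toReal z = ((n - t : ℝ)) • (Fin.cons ((0 : ℤ) : ℝ) q : Fin (m + 1) → ℝ)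
          + (t : ℝ) • (Fin.cons ((1 : ℤ) : ℝ) q : Fin (m + 1) → ℝ) := by
        rw [hz, hzt, ← hqz, cons_smul, cons_smul, cons_add, ← add_smul]
        congr 1
        · push_cast; ring
        · congr 1; ring
      have ht' : (t : ℝ) ≤ n := by exact_mod_cast (by omega : t ≤ n)
      rw [e]
      exact comb_mem hQ'c (by linarith) (Nat.cast_nonneg t) (by ring)
        (cons_mem_plus hq 0 (Or.inl rfl)) (cons_mem_plus hq 1 (Or.inr rfl))
    · rw [Finset.mem_range] at hj
      obtain ⟨q, hq, hqz⟩ := hzl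
      change (j : ℝ) • q = _ at hqz
      change toReal z ∈ (n : ℝ) • Q'
      have e : toReal z = (j : ℝ) • (Fin.cons ((1 : ℤ) : ℝ) q : Fin (m + 1) → ℝ)
          + (n - j : ℝ) • (Fin.cons ((2 : ℤ) : ℝ) (0 : Fin m → ℝ) : Fin (m + 1) → ℝ) := by
        rw [hz, hzj, ← hqz, cons_smul, cons_smul, cons_add, smul_zero, add_zero]
        congr 1
        push_cast; ring
      have hj' : (j : ℝ) ≤ n := by exact_mod_cast hj.le
      rw [e]
      exact comb_mem hQ'c (Nat.cast_nonneg j) (by linarith) (by ring)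
        (cons_mem_plus hq 1 (Or.inr rfl)) (apex_mem_plus 2 (Or.inl rfl))
    · rw [Finset.mem_range] at hj
      obtain ⟨q, hq, hqz⟩ := hzl
      change (j : ℝ) • q = _ at hqz
      change toReal z ∈ (n : ℝ) • Q'
      have e : toReal z = (j : ℝ) • (Fin.cons ((0 : ℤ) : ℝ) q : Fin (m + 1) → ℝ)
          + (n - j : ℝ) • (Fin.cons ((-1 : ℤ) : ℝ) (0 : Fin m → ℝ) : Fin (m + 1) → ℝ) := by
        rw [hz, hzj, ← hqz, cons_smul, cons_smul, cons_add, smul_zero, add_zero]
        congr 1
        push_cast; ring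
      have hj' : (j : ℝ) ≤ n := by exact_mod_cast hj.le
      rw [e]
      exact comb_mem hQ'c (Nat.cast_nonneg j) (by linarith) (by ring)
        (cons_mem_plus hq 0 (Or.inl rfl)) (apex_mem_plus (-1) (Or.inr rfl))


lemma count_plus {m : ℕ} {V : Set (Fin m → ℤ)} (hV : V.Finite) (h0 : (0 : Fin m → ℤ) ∈ V)
    (n : ℕ) :
    latticeCount (convexHull ℝ (toReal '' plus V)) n
      = (n + 1) * latticeCount (convexHull ℝ (toReal '' V)) n
        + 2 * ∑ j ∈ Finset.range n, latticeCount (convexHull ℝ (toReal '' V)) j := by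
  classical
  have hfin := fun j => lat_finite V hV j
  set L : ℕ → Finset (Fin m → ℤ) := fun j => (hfin j).toFinset with hL
  have hLc : ∀ j, latticeCount (convexHull ℝ (toReal '' V)) j = (L j).card := by
    intro j
    rw [latticeCount_eq, hL, Set.ncard_eq_toFinset_card _ (hfin j)]
  have hLm : ∀ j y, y ∈ L j ↔ y ∈ lat (convexHull ℝ (toReal '' V)) j := by
    intro j y; rw [hL]; exact (hfin j).mem_toFinset
  set A : Finset (Fin (m + 1) → ℤ) := ((Finset.range (n + 1)) ×ˢ L n).image
    (fun q => Fin.cons (q.1 : ℤ) q.2) with hA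
  set B : Finset (Fin (m + 1) → ℤ) := ((Finset.range n).sigma L).image
    (fun q => Fin.cons (2 * n - q.1 : ℤ) q.2) with hB
  set C : Finset (Fin (m + 1) → ℤ) := ((Finset.range n).sigma L).image
    (fun q => Fin.cons (-n + q.1 : ℤ) q.2) with hC
  have hmain : lat (convexHull ℝ (toReal '' plus V)) n = ((A ∪ (B ∪ C) : Finset _) : Set _) := by
    ext z
    rw [mem_lat_plus h0, Finset.mem_coe, Finset.mem_union, Finset.mem_union]
    refine or_congr ?_ (or_congr ?_ ?_)
    · rw [hA, Finset.mem_image]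
      constructor
      · rintro ⟨t, ht, hzt, hz⟩
        refine ⟨(t, Fin.tail z), ?_, ?_⟩
        · rw [Finset.mem_product]; exact ⟨ht, (hLm _ _).mpr hz⟩
        · simp only; rw [← hzt, Fin.cons_self_tail]
      · rintro ⟨⟨t, y⟩, hq, rfl⟩
        rw [Finset.mem_product] at hq
        exact ⟨t, hq.1, by simp, by rw [Fin.tail_cons]; exact (hLm _ _).mp hq.2⟩
    · rw [hB, Finset.mem_image]
      constructor
      · rintro ⟨t, ht, hzt, hz⟩
        refine ⟨⟨t, Fin.tail z⟩, ?_, ?_⟩
        · rw [Finset.mem_sigma]; exact ⟨ht, (hLm _ _).mpr hz⟩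
        · simp only; rw [← hzt, Fin.cons_self_tail]
      · rintro ⟨⟨t, y⟩, hq, rfl⟩
        rw [Finset.mem_sigma] at hq
        exact ⟨t, hq.1, by simp, by rw [Fin.tail_cons]; exact (hLm _ _).mp hq.2⟩
    · rw [hC, Finset.mem_image]
      constructor
      · rintro ⟨t, ht, hzt, hz⟩
        refine ⟨⟨t, Fin.tail z⟩, ?_, ?_⟩
        · rw [Finset.mem_sigma]; exact ⟨ht, (hLm _ _).mpr hz⟩
        · simp only; rw [← hzt, Fin.cons_self_tail]
      · rintro ⟨⟨t, y⟩, hq, rfl⟩
        rw [Finset.mem_sigma] at hq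
        exact ⟨t, hq.1, by simp, by rw [Fin.tail_cons]; exact (hLm _ _).mp hq.2⟩
  have hAc : A.card = (n + 1) * (L n).card := by
    rw [hA, Finset.card_image_of_injective, Finset.card_product, Finset.card_range]
    rintro ⟨t, y⟩ ⟨t', y'⟩ h
    have h1 := congrFun h 0
    have h2 := congrArg Fin.tail h
    simp only [Fin.cons_zero, Fin.tail_cons] at h1 h2
    rw [h2]; congr 1; exact_mod_cast h1
  have hBc : B.card = ∑ j ∈ Finset.range n, (L j).card := by
    rw [hB, Finset.card_image_of_injective, Finset.card_sigma]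
    rintro ⟨t, y⟩ ⟨t', y'⟩ h
    have h1 := congrFun h 0
    have h2 := congrArg Fin.tail h
    simp only [Fin.cons_zero, Fin.tail_cons] at h1 h2
    rw [h2]; congr 1; omega
  have hCc : C.card = ∑ j ∈ Finset.range n, (L j).card := by
    rw [hC, Finset.card_image_of_injective, Finset.card_sigma]
    rintro ⟨t, y⟩ ⟨t', y'⟩ h
    have h1 := congrFun h 0
    have h2 := congrArg Fin.tail h
    simp only [Fin.cons_zero, Fin.tail_cons] at h1 h2
    rw [h2]; congr 1; omega
  have hA0 : ∀ z ∈ A, 0 ≤ z 0 ∧ z 0 ≤ n := by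
    intro z hz
    rw [hA, Finset.mem_image] at hz
    obtain ⟨⟨t, y⟩, hq, rfl⟩ := hz
    rw [Finset.mem_product, Finset.mem_range] at hq
    simp only [Fin.cons_zero]
    have := hq.1
    simp only at this
    omega
  have hB0 : ∀ z ∈ B, (n : ℤ) < z 0 := by
    intro z hz
    rw [hB, Finset.mem_image] at hz
    obtain ⟨⟨t, y⟩, hq, rfl⟩ := hz
    rw [Finset.mem_sigma, Finset.mem_range] at hq
    simp only [Fin.cons_zero]
    have := hq.1
    simp only at this
    omega
  have hC0 : ∀ z ∈ C, z 0 < 0 := by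
    intro z hz
    rw [hC, Finset.mem_image] at hz
    obtain ⟨⟨t, y⟩, hq, rfl⟩ := hz
    rw [Finset.mem_sigma, Finset.mem_range] at hq
    simp only [Fin.cons_zero]
    have := hq.1
    simp only at this
    omega
  rw [latticeCount_eq, hmain, Set.ncard_coe_finset, Finset.card_union_of_disjoint,
    Finset.card_union_of_disjoint, hAc, hBc, hCc, hLc]
  · simp only [hLc]; ring
  · rw [Finset.disjoint_left]
    intro z hz hz'
    have := hB0 z hz
    have := hC0 z hz'
    omega
  · rw [Finset.disjoint_left]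
    intro z hz hz'
    have := hA0 z hz
    rw [Finset.mem_union] at hz'
    rcases hz' with hz' | hz'
    · have := hB0 z hz'; omega
    · have := hC0 z hz'; omega

/-- dimension of the double pyramid over the prism -/
lemma dim_plus {m : ℕ} {V : Set (Fin m → ℤ)} (h0 : (0 : Fin m → ℤ) ∈ V) :
    polyDim (convexHull ℝ (toReal '' plus V)) = polyDim (convexHull ℝ (toReal '' V)) + 1 := by
  have hdir : ∀ {k : ℕ} (W : Set (Fin k → ℤ)), (0 : Fin k → ℤ) ∈ W →
      vectorSpan ℝ (convexHull ℝ (toReal '' W)) = Submodule.span ℝ (toReal '' W) := by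
    intro k W hW
    rw [← direction_affineSpan, affineSpan_convexHull, direction_affineSpan,
      vectorSpan_eq_span_vsub_set_right ℝ (p := (0 : Fin k → ℝ))
        (by rw [← toReal_zero]; exact ⟨0, hW, rfl⟩)]
    congr 1
    ext x; simp
  have h0' : (0 : Fin (m + 1) → ℤ) ∈ plus V := by
    left; left
    refine ⟨0, h0, ?_⟩
    funext i
    refine Fin.cases ?_ (fun i => ?_) i <;> simp
  unfold polyDim
  rw [hdir V h0, hdir (plus V) h0']
  set W := Submodule.span ℝ (toReal '' V)
  let e := Fin.consLinearEquiv ℝ (fun _ : Fin (m + 1) => ℝ)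
  have h1 : Submodule.span ℝ (toReal '' plus V) = (Submodule.prod (⊤ : Submodule ℝ ℝ) W).map
      (e : ℝ × (Fin m → ℝ) →ₗ[ℝ] (Fin (m + 1) → ℝ)) := by
    apply le_antisymm
    · rw [Submodule.span_le]
      rintro _ ⟨w, hw, rfl⟩
      have hcons : ∀ (t : ℤ) (v : Fin m → ℤ), toReal v ∈ W →
          toReal (Fin.cons t v : Fin (m + 1) → ℤ) ∈ (Submodule.prod (⊤ : Submodule ℝ ℝ) W).map
            (e : ℝ × (Fin m → ℝ) →ₗ[ℝ] (Fin (m + 1) → ℝ)) := by
        intro t v hv
        rw [toReal_cons]
        exact ⟨((t : ℝ), toReal v), ⟨Submodule.mem_top, hv⟩, rfl⟩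
      rcases hw with (⟨v, hv, rfl⟩ | ⟨v, hv, rfl⟩) | hw
      · exact hcons 0 v (Submodule.subset_span ⟨v, hv, rfl⟩)
      · exact hcons 1 v (Submodule.subset_span ⟨v, hv, rfl⟩)
      · rcases hw with rfl | rfl
        · exact hcons 2 0 (by rw [toReal_zero]; exact W.zero_mem)
        · exact hcons (-1) 0 (by rw [toReal_zero]; exact W.zero_mem)
    · rintro _ ⟨⟨t, y⟩, ⟨-, hy⟩, rfl⟩
      have hS : ∀ w ∈ plus V, toReal w ∈ Submodule.span ℝ (toReal '' plus V) := fun w hw =>
        Submodule.subset_span ⟨w, hw, rfl⟩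
      have hcy : ∀ y ∈ W, (Fin.cons (0 : ℝ) y : Fin (m + 1) → ℝ) ∈
          Submodule.span ℝ (toReal '' plus V) := by
        intro y hy
        induction hy using Submodule.span_induction with
        | mem x hx =>
          obtain ⟨v, hv, rfl⟩ := hx
          have := hS (Fin.cons 0 v) (Or.inl (Or.inl ⟨v, hv, rfl⟩))
          rw [toReal_cons] at this
          simpa using this
        | zero =>
          have : (Fin.cons (0 : ℝ) (0 : Fin m → ℝ) : Fin (m + 1) → ℝ) = 0 := by
            funext i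
            refine Fin.cases ?_ (fun i => ?_) i <;> simp
          rw [this]; exact Submodule.zero_mem _
        | add x y _ _ hx hy =>
          have := Submodule.add_mem _ hx hy
          rw [cons_add, add_zero] at this
          exact this
        | smul a x _ hx =>
          have := Submodule.smul_mem _ a hx
          rw [cons_smul, mul_zero] at this
          exact this
      have ht : (Fin.cons t (0 : Fin m → ℝ) : Fin (m + 1) → ℝ) ∈
          Submodule.span ℝ (toReal '' plus V) := by
        have h2 := hS (Fin.cons 2 0) (Or.inr (Or.inl rfl))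
        have h3 := Submodule.smul_mem _ (t / 2) h2
        rw [toReal_cons, cons_smul, toReal_zero, smul_zero] at h3
        have : t / 2 * ((2 : ℤ) : ℝ) = t := by push_cast; ring
        rw [this] at h3
        exact h3
      have := Submodule.add_mem _ ht (hcy y hy)
      rw [cons_add, add_zero, zero_add] at this
      exact this
  rw [h1, LinearEquiv.finrank_map_eq e]
  let f : (Submodule.prod (⊤ : Submodule ℝ ℝ) W) ≃ₗ[ℝ] (ℝ × W) :=
    { toFun := fun x => (x.1.1, ⟨x.1.2, x.2.2⟩)
      invFun := fun y => ⟨(y.1, y.2.1), ⟨Submodule.mem_top, y.2.2⟩⟩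
      map_add' := fun _ _ => rfl
      map_smul' := fun _ _ => rfl
      left_inv := fun _ => rfl
      right_inv := fun _ => rfl }
  rw [LinearEquiv.finrank_eq f, Module.finrank_prod, Module.finrank_self, add_comm]


/-- second difference of a sequence (extended by zero to negative arguments) -/
def dd (w : ℕ → ℤ) : ℕ → ℤ
  | 0 => w 0
  | 1 => w 1 - 2 * w 0
  | (n + 2) => w (n + 2) - 2 * w (n + 1) + w n

lemma dd_series (w : ℕ → ℤ) : (1 - X) ^ 2 * PowerSeries.mk w = PowerSeries.mk (dd w) := by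
  have h : ((1 : PowerSeries ℤ) - X) ^ 2 * PowerSeries.mk w
      = PowerSeries.mk w - 2 * (PowerSeries.mk w * X) + PowerSeries.mk w * X * X := by ring
  rw [h]
  ext n
  match n with
  | 0 =>
    simp only [map_add, map_sub, coeff_zero_mul_X, dd, coeff_mk]
    have : (coeff 0) (2 * (PowerSeries.mk w * X)) = 0 := by
      rw [← mul_assoc, coeff_zero_mul_X]
    rw [this]; ring
  | 1 =>
    have e1 : (coeff 1) (2 * (PowerSeries.mk w * X)) = 2 * w 0 := by
      have : (2 : PowerSeries ℤ) * (PowerSeries.mk w * X) = PowerSeries.mk w * X + PowerSeries.mk w * X := by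
        ring
      rw [this, map_add, show (1 : ℕ) = 0 + 1 from rfl, coeff_succ_mul_X, coeff_mk]; ring
    simp only [map_add, map_sub, e1, coeff_mk, dd]
    rw [show (1 : ℕ) = 0 + 1 from rfl, coeff_succ_mul_X, coeff_zero_mul_X]; simp
  | (n + 2) =>
    have e1 : (coeff (n + 2)) (2 * (PowerSeries.mk w * X)) = 2 * w (n + 1) := by
      have : (2 : PowerSeries ℤ) * (PowerSeries.mk w * X) = PowerSeries.mk w * X + PowerSeries.mk w * X := by
        ring
      rw [this, map_add, show n + 2 = (n + 1) + 1 from rfl, coeff_succ_mul_X, coeff_mk]; ring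
    simp only [map_add, map_sub, e1, coeff_mk, dd]
    rw [show n + 2 = (n + 1) + 1 from rfl, coeff_succ_mul_X, coeff_succ_mul_X, coeff_mk]

lemma dd_sum (w : ℕ → ℤ) (n : ℕ) : ∑ j ∈ Finset.range (n + 2), dd w j = w (n + 1) - w n := by
  induction n with
  | zero => simp [Finset.sum_range_succ, dd]; ring
  | succ n ih => rw [Finset.sum_range_succ, ih]; simp only [dd]; ring

lemma dd_step (w : ℕ → ℤ) (n : ℕ) :
    (n + 1) * dd w n + 2 * ∑ j ∈ Finset.range n, dd w j = dd (fun n => (n + 1) * w n) n := by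
  match n with
  | 0 => simp [dd]
  | 1 => simp [dd]; ring
  | (n + 2) => rw [dd_sum]; simp only [dd]; push_cast; ring

/-- The property proved by induction: the second difference of `w` is the lattice point counting
function of a lattice polytope of dimension `d - 2`. -/
def Good (w : ℕ → ℤ) (d : ℕ) : Prop :=
  ∃ (m : ℕ) (V : Set (Fin m → ℤ)), V.Finite ∧ (0 : Fin m → ℤ) ∈ V ∧
    polyDim (convexHull ℝ (toReal '' V)) + 2 = d ∧
    ∀ n, (latticeCount (convexHull ℝ (toReal '' V)) n : ℤ) = dd w n

lemma plus_finite {m : ℕ} {V : Set (Fin m → ℤ)} (hV : V.Finite) : (plus V).Finite := by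
  unfold plus
  exact ((hV.image _).union (hV.image _)).union (Set.toFinite _)

lemma Good.step {w : ℕ → ℤ} {d : ℕ} (h : Good w d) : Good (fun n => (n + 1) * w n) (d + 1) := by
  obtain ⟨m, V, hV, h0, hd, hc⟩ := h
  refine ⟨m + 1, plus V, plus_finite hV, ?_, ?_, ?_⟩
  · left; left
    refine ⟨0, h0, ?_⟩
    funext i
    refine Fin.cases ?_ (fun i => ?_) i <;> simp
  · rw [dim_plus h0]; omega
  · intro n
    rw [count_plus hV h0, ← dd_step]
    push_cast
    simp only [hc]

/-! ### Order polytopes -/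

/-- order preserving integer functions with values in `[lo, hi]` -/
def MM (α : Type*) [PartialOrder α] (lo hi : ℤ) : Set (α → ℤ) :=
  {f | (∀ a, lo ≤ f a ∧ f a ≤ hi) ∧ ∀ a b, a ≤ b → f a ≤ f b}

lemma MM_finite (α : Type*) [PartialOrder α] [Finite α] (lo hi : ℤ) : (MM α lo hi).Finite := by
  classical
  cases nonempty_fintype α
  apply (Set.finite_Icc (fun _ : α => lo) (fun _ : α => hi)).subset
  intro f hf
  exact ⟨fun a => (hf.1 a).1, fun a => (hf.1 a).2⟩

lemma lat_orderPolytope (α : Type*) [PartialOrder α] (n : ℕ) :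
    lat (orderPolytope α) n = MM α 0 n := by
  ext z
  rw [mem_lat, Set.mem_smul_set]
  constructor
  · rintro ⟨x, hx, hxz⟩
    have hz : ∀ a, (z a : ℝ) = n * x a := fun a => (congrFun hxz a).symm
    have hn : (0 : ℝ) ≤ n := Nat.cast_nonneg n
    refine ⟨fun a => ⟨?_, ?_⟩, fun a b hab => ?_⟩
    · have : (0 : ℝ) ≤ z a := by rw [hz]; exact mul_nonneg hn (hx.1 a).1
      exact_mod_cast this
    · have : (z a : ℝ) ≤ n := by rw [hz]; nlinarith [(hx.1 a).2]
      exact_mod_cast this
    · have : (z a : ℝ) ≤ z b := by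
        rw [hz, hz]; exact mul_le_mul_of_nonneg_left (hx.2 a b hab) hn
      exact_mod_cast this
  · intro hz
    rcases Nat.eq_zero_or_pos n with rfl | hn
    · refine ⟨0, ⟨fun a => by simp, fun a b _ => by simp⟩, ?_⟩
      funext a
      have := hz.1 a
      have h0 : z a = 0 := by
        apply le_antisymm
        · simpa using this.2
        · exact this.1
      simp [toReal, h0]
    · have hn' : (0 : ℝ) < n := by exact_mod_cast hn
      refine ⟨fun a => z a / n, ⟨fun a => ⟨?_, ?_⟩, fun a b hab => ?_⟩, ?_⟩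
      · have : (0 : ℝ) ≤ z a := by exact_mod_cast (hz.1 a).1
        positivity
      · rw [div_le_one hn']; exact_mod_cast (hz.1 a).2
      · have : (z a : ℝ) ≤ z b := by exact_mod_cast hz.2 a b hab
        exact div_le_div_of_nonneg_right this hn'.le
      · funext a
        simp only [Pi.smul_apply, smul_eq_mul, toReal]
        field_simp

/-- number of order preserving maps to `{0, ..., n}` -/
noncomputable def ww (α : Type*) [PartialOrder α] (n : ℕ) : ℤ := ((MM α 0 n).ncard : ℤ)

lemma ncard_MM_shift (α : Type*) [PartialOrder α] (lo hi c : ℤ) :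
    (MM α (lo + c) (hi + c)).ncard = (MM α lo hi).ncard := by
  have : MM α (lo + c) (hi + c) = (fun f a => f a + c) '' MM α lo hi := by
    ext f
    constructor
    · intro hf
      refine ⟨fun a => f a - c, ⟨fun a => ?_, fun a b hab => ?_⟩, ?_⟩
      · have := hf.1 a; constructor <;> linarith [this.1, this.2]
      · have := hf.2 a b hab; simp only; linarith
      · funext a; simp
    · rintro ⟨g, hg, rfl⟩
      refine ⟨fun a => ?_, fun a b hab => ?_⟩
      · have := hg.1 a; simp only; constructor <;> linarith [this.1, this.2]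
      · have := hg.2 a b hab; simp only; linarith
  rw [this, Set.ncard_image_of_injective]
  intro f g h
  funext a
  have := congrFun h a
  simpa using this

/-- order preserving functions with minimum exactly `0` and maximum exactly `n` -/
def FF (α : Type*) [PartialOrder α] (n : ℕ) : Set (α → ℤ) :=
  {f | f ∈ MM α 0 n ∧ (∃ a, f a = 0) ∧ ∃ a, f a = n}

lemma MM_empty (α : Type*) [PartialOrder α] [Nonempty α] {lo hi : ℤ} (h : hi < lo) :
    MM α lo hi = ∅ := by
  rw [Set.eq_empty_iff_forall_notMem]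
  intro f hf
  obtain ⟨a⟩ := ‹Nonempty α›
  have := hf.1 a
  omega

lemma ncard_FF (α : Type*) [PartialOrder α] [Finite α] [Nonempty α] (n : ℕ) :
    ((FF α n).ncard : ℤ) = dd (ww α) n := by
  have h1 : FF α n = MM α 0 n \ (MM α 1 n ∪ MM α 0 (n - 1)) := by
    ext f
    constructor
    · rintro ⟨hf, ⟨a, ha⟩, ⟨b, hb⟩⟩
      refine ⟨hf, ?_⟩
      rintro (h | h)
      · have := h.1 a; omega
      · have := h.1 b; omega
    · rintro ⟨hf, h⟩
      refine ⟨hf, ?_, ?_⟩
      · by_contra hne
        push Not at hne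
        apply h; left
        refine ⟨fun a => ⟨?_, (hf.1 a).2⟩, hf.2⟩
        have := (hf.1 a).1
        have := hne a
        omega
      · by_contra hne
        push Not at hne
        apply h; right
        refine ⟨fun a => ⟨(hf.1 a).1, ?_⟩, hf.2⟩
        have := (hf.1 a).2
        have := hne a
        omega
  have hsub : MM α 1 n ∪ MM α 0 (n - 1) ⊆ MM α 0 n := by
    rintro f (hf | hf)
    · exact ⟨fun a => ⟨by have := (hf.1 a).1; omega, (hf.1 a).2⟩, hf.2⟩
    · exact ⟨fun a => ⟨(hf.1 a).1, by have := (hf.1 a).2; omega⟩, hf.2⟩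
  have h2 := Set.ncard_sdiff_add_ncard_of_subset hsub (MM_finite α 0 n)
  have h3 := Set.ncard_union_add_ncard_inter (MM α 1 n) (MM α 0 (n - 1))
    (MM_finite α _ _) (MM_finite α _ _)
  have h4 : MM α 1 n ∩ MM α 0 (n - 1) = MM α 1 (n - 1) := by
    ext f
    constructor
    · rintro ⟨hf, hf'⟩
      exact ⟨fun a => ⟨(hf.1 a).1, (hf'.1 a).2⟩, hf.2⟩
    · intro hf
      exact ⟨⟨fun a => ⟨(hf.1 a).1, by have := (hf.1 a).2; omega⟩, hf.2⟩,
        ⟨fun a => ⟨by have := (hf.1 a).1; omega, (hf.1 a).2⟩, hf.2⟩⟩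
  rw [h4] at h3
  rw [← h1] at h2
  have h5 : (MM α 1 n).ncard = (MM α 0 (n - 1)).ncard := by
    have := ncard_MM_shift α 0 (n - 1) 1
    rw [← this]; congr 2; ring
  have h6 : (MM α 1 (n - 1)).ncard = (MM α 0 (n - 2)).ncard := by
    have := ncard_MM_shift α 0 (n - 2) 1
    rw [← this]; congr 2; ring
  rw [h5, h6] at h3
  match n with
  | 0 =>
    have e1 : MM α 0 (((0 : ℕ) : ℤ) - 1) = ∅ := MM_empty α (by norm_num)
    rw [e1, Set.ncard_empty] at h3
    rw [e1] at h2
    simp only [dd, ww]
    omega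
  | 1 =>
    have e1 : MM α 0 (((1 : ℕ) : ℤ) - 2) = ∅ := MM_empty α (by norm_num)
    rw [e1, Set.ncard_empty] at h3
    simp only [dd, ww]
    have e2 : (((1 : ℕ) : ℤ) - 1) = ((0 : ℕ) : ℤ) := by norm_num
    rw [e2] at h2 h3
    push_cast at *
    omega
  | (n + 2) =>
    simp only [dd, ww]
    have e2 : (((n + 2 : ℕ) : ℤ) - 1) = ((n + 1 : ℕ) : ℤ) := by push_cast; ring
    have e3 : (((n + 2 : ℕ) : ℤ) - 2) = ((n : ℕ) : ℤ) := by push_cast; ring
    rw [e2] at h2 h3
    rw [e3] at h3
    omega

/-- Removing an isolated element divides the counting function by `n + 1`. -/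
lemma ww_isolated (α : Type*) [PartialOrder α] [Finite α] (p : α)
    (hp : ∀ x, x ≤ p ∨ p ≤ x → x = p) (n : ℕ) :
    ww α n = (n + 1) * ww {x : α // x ≠ p} n := by
  classical
  let e : MM α 0 n ≃ (Set.Icc (0 : ℤ) n) × MM {x : α // x ≠ p} 0 n :=
    { toFun := fun f => (⟨f.1 p, f.2.1 p⟩, ⟨fun x => f.1 x.1,
        ⟨fun a => f.2.1 a.1, fun a b hab => f.2.2 a.1 b.1 hab⟩⟩)
      invFun := fun q => ⟨fun x => if h : x = p then q.1.1 else q.2.1 ⟨x, h⟩, by
        refine ⟨fun a => ?_, fun a b hab => ?_⟩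
        · by_cases h : a = p
          · simp only [h, dite_true]; exact q.1.2
          · simp only [h, dite_false]; exact q.2.2.1 _
        · by_cases h : a = p
          · have hb : b = p := hp b (Or.inr (h ▸ hab))
            simp [h, hb]
          · have hb : b ≠ p := fun hb => h (hp a (Or.inl (hb ▸ hab)))
            simp only [h, hb, dite_false]
            exact q.2.2.2 _ _ hab⟩
      left_inv := by
        intro f
        ext x
        by_cases h : x = p
        · simp [h]
        · simp [h]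
      right_inv := by
        rintro ⟨t, g⟩
        ext x
        · simp
        · simp [x.2] }
  have h1 : (MM α 0 n).ncard = (Set.Icc (0 : ℤ) n).ncard * (MM {x : α // x ≠ p} 0 n).ncard := by
    rw [← Nat.card_coe_set_eq, ← Nat.card_coe_set_eq, ← Nat.card_coe_set_eq,
      Nat.card_congr e, Nat.card_prod]
  have h2 : (Set.Icc (0 : ℤ) n).ncard = n + 1 := by
    rw [← Nat.card_coe_set_eq, Nat.card_eq_fintype_card]
    simp
  unfold ww
  rw [h1, h2]
  push_cast; ring


/-! ### The base case: no isolated elements -/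

section Base

variable {α : Type*} [PartialOrder α]

open Classical in
/-- the chosen representative: `a0` for minimal elements and `b0` for the others -/
noncomputable def rep (a0 b0 : α) (x : α) : α := if IsMin x then a0 else b0

/-- integral projection -/
noncomputable def projZ {d : ℕ} (e : Fin d ≃ α) (a0 b0 : α) (f : α → ℤ) : Fin d → ℤ :=
  fun i => f (e i) - f (rep a0 b0 (e i))

/-- real projection -/
noncomputable def projR {d : ℕ} (e : Fin d ≃ α) (a0 b0 : α) : (α → ℝ) →ₗ[ℝ] (Fin d → ℝ) where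
  toFun x := fun i => x (e i) - x (rep a0 b0 (e i))
  map_add' x y := by funext i; simp; ring
  map_smul' c x := by funext i; simp; ring

lemma toReal_projZ {d : ℕ} (e : Fin d ≃ α) (a0 b0 : α) (f : α → ℤ) :
    toReal (projZ e a0 b0 f) = projR e a0 b0 (toReal f) := by
  funext i; simp [toReal, projZ, projR]

/-- vertex set of the projected polytope -/
noncomputable def VV {d : ℕ} (e : Fin d ≃ α) (a0 b0 : α) : Set (Fin d → ℤ) :=
  projZ e a0 b0 '' MM α 0 1

lemma zero_mem_MM : (0 : α → ℤ) ∈ MM α 0 1 := ⟨fun a => by simp, fun a b _ => by simp⟩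

lemma zero_mem_VV {d : ℕ} (e : Fin d ≃ α) (a0 b0 : α) : (0 : Fin d → ℤ) ∈ VV e a0 b0 :=
  ⟨0, zero_mem_MM, by funext i; simp [projZ]⟩

lemma VV_finite [Finite α] {d : ℕ} (e : Fin d ≃ α) (a0 b0 : α) : (VV e a0 b0).Finite :=
  (MM_finite α 0 1).image _

lemma sum_mem_smul {E : Type*} [AddCommGroup E] [Module ℝ E] {Q : Set E} (hQ : Convex ℝ Q)
    (hne : Q.Nonempty) (x : ℕ → E) (n : ℕ) (hx : ∀ t < n, x t ∈ Q) :
    ∑ t ∈ Finset.range n, x t ∈ (n : ℝ) • Q := by
  induction n with
  | zero =>
    obtain ⟨q, hq⟩ := hne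
    exact ⟨q, hq, by simp⟩
  | succ n ih =>
    rw [Finset.sum_range_succ]
    push_cast
    rw [hQ.add_smul (Nat.cast_nonneg n) zero_le_one, one_smul]
    exact Set.add_mem_add (ih (fun t ht => hx t (by omega))) (hx n (by omega))

/-- layers of an integer function -/
def layer (f : α → ℤ) (t : ℕ) : α → ℤ := fun a => if (t : ℤ) < f a then 1 else 0

lemma layer_mem {f : α → ℤ} (hf : ∀ a b, a ≤ b → f a ≤ f b) (t : ℕ) : layer f t ∈ MM α 0 1 := by
  refine ⟨fun a => ?_, fun a b hab => ?_⟩
  · unfold layer; split_ifs <;> simp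
  · have := hf a b hab
    unfold layer
    split_ifs
    · exact le_rfl
    · omega
    · norm_num
    · exact le_rfl

omit [PartialOrder α] in
lemma sum_layer {f : α → ℤ} {n : ℕ} (hf : ∀ a, 0 ≤ f a ∧ f a ≤ n) :
    f = ∑ t ∈ Finset.range n, layer f t := by
  funext a
  rw [Finset.sum_apply]
  unfold layer
  rw [← Finset.sum_filter]
  have h1 : (Finset.range n).filter (fun t : ℕ => (t : ℤ) < f a) = Finset.range (f a).toNat := by
    ext t
    simp only [Finset.mem_filter, Finset.mem_range]
    have := hf a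
    omega
  rw [h1]
  simp [(hf a).1]

lemma projZ_sum {d : ℕ} (e : Fin d ≃ α) (a0 b0 : α) (n : ℕ) (x : ℕ → α → ℤ) :
    projZ e a0 b0 (∑ t ∈ Finset.range n, x t) = ∑ t ∈ Finset.range n, projZ e a0 b0 (x t) := by
  funext i
  simp [projZ, Finset.sum_apply, Finset.sum_sub_distrib]

lemma mem_lat_of_MM {d : ℕ} (e : Fin d ≃ α) (a0 b0 : α) (n : ℕ) {f : α → ℤ}
    (hf : f ∈ MM α 0 n) :
    projZ e a0 b0 f ∈ lat (convexHull ℝ (toReal '' VV e a0 b0)) n := by
  rw [mem_lat, sum_layer (fun a => hf.1 a), projZ_sum, toReal_sum]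
  apply sum_mem_smul (convex_convexHull ℝ _)
  · exact ⟨toReal 0, subset_convexHull ℝ _ ⟨0, zero_mem_VV e a0 b0, rfl⟩⟩
  · intro t _
    exact subset_convexHull ℝ _ ⟨_, ⟨_, layer_mem hf.2 t, rfl⟩, rfl⟩

lemma orderPolytope_convex : Convex ℝ (orderPolytope α) := by
  rintro x hx y hy a b ha hb hab
  refine ⟨fun c => ⟨?_, ?_⟩, fun c c' h => ?_⟩
  · have := (hx.1 c).1; have := (hy.1 c).1
    simp only [Pi.add_apply, Pi.smul_apply, smul_eq_mul]; positivity
  · have := (hx.1 c).2; have := (hy.1 c).2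
    simp only [Pi.add_apply, Pi.smul_apply, smul_eq_mul]; nlinarith
  · have := hx.2 c c' h; have := hy.2 c c' h
    simp only [Pi.add_apply, Pi.smul_apply, smul_eq_mul]; nlinarith

lemma convexHull_VV_subset {d : ℕ} (e : Fin d ≃ α) (a0 b0 : α) :
    convexHull ℝ (toReal '' VV e a0 b0) ⊆ projR e a0 b0 '' orderPolytope α := by
  apply convexHull_min
  · rintro _ ⟨_, ⟨f, hf, rfl⟩, rfl⟩
    rw [toReal_projZ]
    refine ⟨toReal f, ⟨fun a => ?_, fun a b hab => ?_⟩, rfl⟩
    · have := hf.1 a
      simp only [toReal]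
      exact ⟨by exact_mod_cast this.1, by exact_mod_cast this.2⟩
    · simp only [toReal]; exact_mod_cast hf.2 a b hab
  · exact orderPolytope_convex.linear_image _

lemma exists_isMin_le [Finite α] (x : α) : ∃ a, IsMin a ∧ a ≤ x := by
  obtain ⟨a, hax, ha⟩ := exists_minimal_le_of_wellFoundedLT (fun _ : α => True) x trivial
  refine ⟨a, ?_, hax⟩
  intro b hb
  exact ha.2 trivial hb

/-- The lattice points of the dilates of the projected polytope. -/
lemma lat_VV [Finite α] {d : ℕ} (e : Fin d ≃ α) (a0 b0 : α) (ha0 : IsMin a0) (hb0 : ¬ IsMin b0)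
    (hiso : ∀ x : α, ∃ y, y ≠ x ∧ (x ≤ y ∨ y ≤ x)) (n : ℕ) :
    lat (convexHull ℝ (toReal '' VV e a0 b0)) n = projZ e a0 b0 '' FF α n := by
  classical
  cases nonempty_fintype α
  -- every minimal element lies below some non-minimal one
  have habove : ∀ x : α, IsMin x → ∃ y, x ≤ y ∧ ¬ IsMin y := by
    intro x hx
    obtain ⟨y, hyx, h | h⟩ := hiso x
    · exact ⟨y, h, fun hy => hyx (le_antisymm (hy h) h)⟩
    · exact absurd (le_antisymm h (hx h)) hyx
  apply Set.Subset.antisymm
  · intro z hz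
    rw [mem_lat, Set.mem_smul_set] at hz
    obtain ⟨y, hy, hyz⟩ := hz
    obtain ⟨x, hx, hxy⟩ := convexHull_VV_subset e a0 b0 hy
    have hn : (0 : ℝ) ≤ n := Nat.cast_nonneg n
    -- the scaled preimage
    set x' : α → ℝ := fun a => n * x a with hx'
    have x0 : ∀ a, 0 ≤ x' a := fun a => mul_nonneg hn (hx.1 a).1
    have xn : ∀ a, x' a ≤ n := fun a => by
      have := (hx.1 a).2
      simp only [hx']; nlinarith
    have xm : ∀ a b, a ≤ b → x' a ≤ x' b := fun a b hab =>
      mul_le_mul_of_nonneg_left (hx.2 a b hab) hn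
    set g : α → ℤ := fun a => z (e.symm a) with hg
    have hgx : ∀ a, (g a : ℝ) = x' a - x' (rep a0 b0 a) := by
      intro a
      have h1 := congrFun hyz (e.symm a)
      rw [← hxy] at h1
      simp only [Pi.smul_apply, smul_eq_mul, projR, LinearMap.coe_mk, AddHom.coe_mk, toReal,
        Equiv.apply_symm_apply] at h1
      rw [hg]; simp only
      rw [← h1, hx']; ring
    have repmin : ∀ a, IsMin a → rep a0 b0 a = a0 := fun a ha => by simp [rep, ha]
    have repnot : ∀ a, ¬ IsMin a → rep a0 b0 a = b0 := fun a ha => by simp [rep, ha]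
    obtain ⟨amin, hamin, haminle⟩ := Finset.exists_min_image
      (Finset.univ.filter (fun a : α => IsMin a)) g ⟨a0, by simpa using ha0⟩
    obtain ⟨bmax, hbmax, hbmaxle⟩ := Finset.exists_max_image
      (Finset.univ.filter (fun a : α => ¬ IsMin a)) g ⟨b0, by simpa using hb0⟩
    simp only [Finset.mem_filter, Finset.mem_univ, true_and] at hamin haminle hbmax hbmaxle
    set f : α → ℤ := fun a => if IsMin a then g a - g amin else g a - g bmax + n with hf
    have fmin : ∀ a, IsMin a → f a = g a - g amin := fun a ha => by simp [hf, ha]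
    have fnot : ∀ a, ¬ IsMin a → f a = g a - g bmax + n := fun a ha => by simp [hf, ha]
    have hA : (- (g amin : ℝ)) ≤ x' a0 := by
      rw [hgx amin, repmin amin hamin]; linarith [x0 amin]
    have hB : x' b0 ≤ n - (g bmax : ℝ) := by
      rw [hgx bmax, repnot bmax hbmax]; linarith [xn bmax]
    have hmono : ∀ a b, a ≤ b → f a ≤ f b := by
      intro a b hab
      by_cases ha : IsMin a
      · by_cases hb : IsMin b
        · have : a = b := le_antisymm hab (hb hab)
          rw [this]
        · rw [fmin a ha, fnot b hb]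
          have h1 := hgx a
          have h2 := hgx b
          rw [repmin a ha] at h1
          rw [repnot b hb] at h2
          have h3 := xm a b hab
          have : ((g a - g amin : ℤ) : ℝ) ≤ ((g b - g bmax + n : ℤ) : ℝ) := by
            push_cast
            linarith
          exact_mod_cast this
      · by_cases hb : IsMin b
        · exact absurd (by
            have : a = b := le_antisymm hab (hb hab)
            rw [this]; exact hb) ha
        · rw [fnot a ha, fnot b hb]
          have h1 := hgx a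
          have h2 := hgx b
          rw [repnot a ha] at h1
          rw [repnot b hb] at h2
          have h3 := xm a b hab
          have : (g a : ℝ) ≤ (g b : ℝ) := by linarith
          have : g a ≤ g b := by exact_mod_cast this
          omega
    have h0min : ∀ a, IsMin a → 0 ≤ f a := by
      intro a ha
      rw [fmin a ha]
      have := haminle a ha
      omega
    have hnnot : ∀ a, ¬ IsMin a → f a ≤ n := by
      intro a ha
      rw [fnot a ha]
      have := hbmaxle a ha
      omega
    have h0 : ∀ a, 0 ≤ f a := by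
      intro a
      obtain ⟨m, hm, hma⟩ := exists_isMin_le a
      exact (h0min m hm).trans (hmono m a hma)
    have hnn : ∀ a, f a ≤ n := by
      intro a
      by_cases ha : IsMin a
      · obtain ⟨y, hy, hyn⟩ := habove a ha
        exact (hmono a y hy).trans (hnnot y hyn)
      · exact hnnot a ha
    refine ⟨f, ⟨⟨fun a => ⟨h0 a, hnn a⟩, hmono⟩, ⟨amin, ?_⟩, ⟨bmax, ?_⟩⟩, ?_⟩
    · rw [fmin amin hamin]; ring
    · rw [fnot bmax hbmax]; ring
    · funext i
      simp only [projZ]
      have ga0 : g a0 = 0 := by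
        have := hgx a0
        rw [repmin a0 ha0] at this
        have : (g a0 : ℝ) = 0 := by rw [this]; ring
        exact_mod_cast this
      have gb0 : g b0 = 0 := by
        have := hgx b0
        rw [repnot b0 hb0] at this
        have : (g b0 : ℝ) = 0 := by rw [this]; ring
        exact_mod_cast this
      by_cases hi : IsMin (e i)
      · rw [repmin _ hi, fmin _ hi, fmin _ ha0, ga0, hg]
        simp
      · rw [repnot _ hi, fnot _ hi, fnot _ hb0, gb0, hg]
        simp
  · rintro _ ⟨f, hf, rfl⟩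
    exact mem_lat_of_MM e a0 b0 n hf.1

lemma projZ_injOn [Finite α] {d : ℕ} (e : Fin d ≃ α) (a0 b0 : α)
    (hiso : ∀ x : α, ∃ y, y ≠ x ∧ (x ≤ y ∨ y ≤ x)) (n : ℕ) :
    Set.InjOn (projZ e a0 b0) (FF α n) := by
  classical
  have habove : ∀ x : α, IsMin x → ∃ y, x ≤ y ∧ ¬ IsMin y := by
    intro x hx
    obtain ⟨y, hyx, h | h⟩ := hiso x
    · exact ⟨y, h, fun hy => hyx (le_antisymm (hy h) h)⟩
    · exact absurd (le_antisymm h (hx h)) hyx
  have repmin : ∀ a, IsMin a → rep a0 b0 a = a0 := fun a ha => by simp [rep, ha]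
  have repnot : ∀ a, ¬ IsMin a → rep a0 b0 a = b0 := fun a ha => by simp [rep, ha]
  have hz : ∀ f ∈ FF α n, ∃ a, IsMin a ∧ f a = 0 := by
    rintro f ⟨hf, ⟨a, ha⟩, -⟩
    obtain ⟨m, hm, hma⟩ := exists_isMin_le a
    exact ⟨m, hm, le_antisymm (ha ▸ hf.2 m a hma) (hf.1 m).1⟩
  have ht : ∀ f ∈ FF α n, ∃ a, ¬ IsMin a ∧ f a = n := by
    rintro f ⟨hf, -, ⟨a, ha⟩⟩
    by_cases hm : IsMin a
    · obtain ⟨y, hy, hyn⟩ := habove a hm
      exact ⟨y, hyn, le_antisymm (hf.1 y).2 (ha ▸ hf.2 a y hy)⟩
    · exact ⟨a, hm, ha⟩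
  intro f hf g hg h
  have hv : ∀ x, f x - f (rep a0 b0 x) = g x - g (rep a0 b0 x) := by
    intro x
    have := congrFun h (e.symm x)
    simpa [projZ] using this
  have h1 : f a0 = g a0 := by
    obtain ⟨a, ha, hfa⟩ := hz f hf
    obtain ⟨b, hb, hgb⟩ := hz g hg
    have e1 := hv a
    have e2 := hv b
    rw [repmin a ha] at e1
    rw [repmin b hb] at e2
    have := (hf.1.1 b).1
    have := (hg.1.1 a).1
    omega
  have h2 : f b0 = g b0 := by
    obtain ⟨a, ha, hfa⟩ := ht f hf
    obtain ⟨b, hb, hgb⟩ := ht g hg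
    have e1 := hv a
    have e2 := hv b
    rw [repnot a ha] at e1
    rw [repnot b hb] at e2
    have := (hf.1.1 b).2
    have := (hg.1.1 a).2
    omega
  funext x
  have := hv x
  by_cases hx : IsMin x
  · rw [repmin x hx, h1] at this; omega
  · rw [repnot x hx, h2] at this; omega

lemma span_MM [Finite α] : Submodule.span ℝ (toReal '' MM α 0 1) = ⊤ := by
  classical
  cases nonempty_fintype α
  have h1 : ∀ a : α, (Pi.single a (1 : ℝ) : α → ℝ) ∈ Submodule.span ℝ (toReal '' MM α 0 1) := by
    intro a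
    have hA : (fun x => if a ≤ x then (1 : ℤ) else 0) ∈ MM α 0 1 := by
      refine ⟨fun x => ?_, fun x y hxy => ?_⟩
      · simp only; split_ifs <;> simp
      · simp only
        by_cases hx : a ≤ x
        · simp [hx, hx.trans hxy]
        · simp only [hx, if_false]; split_ifs <;> simp
    have hB : (fun x => if a < x then (1 : ℤ) else 0) ∈ MM α 0 1 := by
      refine ⟨fun x => ?_, fun x y hxy => ?_⟩
      · simp only; split_ifs <;> simp
      · simp only
        by_cases hx : a < x
        · simp [hx, hx.trans_le hxy]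
        · simp only [hx, if_false]; split_ifs <;> simp
    have h2 := Submodule.sub_mem _ (Submodule.subset_span (R := ℝ) (s := toReal '' MM α 0 1)
      ⟨_, hA, rfl⟩) (Submodule.subset_span ⟨_, hB, rfl⟩)
    convert h2 using 1
    funext x
    simp only [Pi.sub_apply, toReal]
    by_cases hx : x = a
    · subst hx; simp
    · rw [Pi.single_eq_of_ne hx]
      have : a ≤ x ↔ a < x := ⟨fun h => lt_of_le_of_ne h (Ne.symm hx), le_of_lt⟩
      simp [this]
  rw [eq_top_iff]
  intro x _
  have h3 : x = ∑ a, x a • (Pi.single a (1 : ℝ) : α → ℝ) := by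
    funext b
    simp [Finset.sum_apply, Pi.single_apply]
  rw [h3]
  exact Submodule.sum_mem _ (fun a _ => Submodule.smul_mem _ _ (h1 a))

lemma vectorSpan_eq_span_of_zero {E : Type*} [AddCommGroup E] [Module ℝ E] {s : Set E}
    (h : (0 : E) ∈ s) : vectorSpan ℝ s = Submodule.span ℝ s := by
  rw [vectorSpan_eq_span_vsub_set_right ℝ (p := (0 : E)) h]
  congr 1
  ext x; simp

/-- the order polytope is full-dimensional -/
lemma polyDim_orderPolytope [Finite α] : polyDim (orderPolytope α) = Nat.card α := by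
  classical
  cases nonempty_fintype α
  have h0 : (0 : α → ℝ) ∈ orderPolytope α := ⟨fun a => by simp, fun a b _ => by simp⟩
  have h1 : toReal '' MM α 0 1 ⊆ orderPolytope α := by
    rintro _ ⟨f, hf, rfl⟩
    refine ⟨fun a => ?_, fun a b hab => ?_⟩
    · have := hf.1 a
      simp only [toReal]
      exact ⟨by exact_mod_cast this.1, by exact_mod_cast this.2⟩
    · simp only [toReal]; exact_mod_cast hf.2 a b hab
  unfold polyDim
  rw [vectorSpan_eq_span_of_zero h0]
  have h2 : Submodule.span ℝ (orderPolytope α) = ⊤ := by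
    rw [eq_top_iff, ← span_MM]; exact Submodule.span_mono h1
  rw [h2, finrank_top, Module.finrank_fintype_fun_eq_card, Nat.card_eq_fintype_card]

/-- dimension of the projected polytope -/
lemma polyDim_VV [Finite α] {d : ℕ} (e : Fin d ≃ α) (a0 b0 : α) (ha0 : IsMin a0)
    (hb0 : ¬ IsMin b0) : polyDim (convexHull ℝ (toReal '' VV e a0 b0)) + 2 = d := by
  classical
  cases nonempty_fintype α
  have repmin : ∀ a, IsMin a → rep a0 b0 a = a0 := fun a ha => by simp [rep, ha]
  have repnot : ∀ a, ¬ IsMin a → rep a0 b0 a = b0 := fun a ha => by simp [rep, ha]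
  have h1 : vectorSpan ℝ (convexHull ℝ (toReal '' VV e a0 b0))
      = LinearMap.range (projR e a0 b0) := by
    rw [← direction_affineSpan, affineSpan_convexHull, direction_affineSpan,
      vectorSpan_eq_span_of_zero (by rw [← toReal_zero]; exact ⟨0, zero_mem_VV e a0 b0, rfl⟩)]
    have : toReal '' VV e a0 b0 = projR e a0 b0 '' (toReal '' MM α 0 1) := by
      unfold VV
      rw [Set.image_image, Set.image_image]
      congr 1
      funext f
      exact toReal_projZ e a0 b0 f
    rw [this, Submodule.span_image, span_MM, Submodule.map_top]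
  have h2 : Module.finrank ℝ (LinearMap.ker (projR e a0 b0)) = 2 := by
    let f : LinearMap.ker (projR e a0 b0) ≃ₗ[ℝ] (ℝ × ℝ) :=
      { toFun := fun x => (x.1 a0, x.1 b0)
        invFun := fun y => ⟨fun x => if IsMin x then y.1 else y.2, by
          rw [LinearMap.mem_ker]
          funext i
          simp only [projR, LinearMap.coe_mk, AddHom.coe_mk, Pi.zero_apply]
          by_cases hi : IsMin (e i)
          · rw [repmin _ hi]; simp [hi, ha0]
          · rw [repnot _ hi]; simp [hi, hb0]⟩
        map_add' := fun _ _ => rfl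
        map_smul' := fun _ _ => rfl
        left_inv := by
          intro x
          ext c
          have hx := x.2
          rw [LinearMap.mem_ker] at hx
          have h3 := congrFun hx (e.symm c)
          simp only [projR, LinearMap.coe_mk, AddHom.coe_mk, Pi.zero_apply,
            Equiv.apply_symm_apply] at h3
          by_cases hc : IsMin c
          · rw [repmin _ hc] at h3
            simp only [hc, if_true]; linarith
          · rw [repnot _ hc] at h3
            simp only [hc, if_false]; linarith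
        right_inv := by
          intro y
          ext
          · simp [ha0]
          · simp [hb0] }
    rw [LinearEquiv.finrank_eq f, Module.finrank_prod, Module.finrank_self]
  have h3 := LinearMap.finrank_range_add_finrank_ker (projR e a0 b0)
  rw [h2, Module.finrank_fintype_fun_eq_card] at h3
  unfold polyDim
  rw [h1, h3, ← Fintype.card_congr e, Fintype.card_fin]

lemma Good.base [Finite α] (a b : α) (hab : a < b)
    (hiso : ∀ x : α, ∃ y, y ≠ x ∧ (x ≤ y ∨ y ≤ x)) : Good (ww α) (Nat.card α) := by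
  classical
  cases nonempty_fintype α
  have : Nonempty α := ⟨a⟩
  obtain ⟨a0, ha0, haa⟩ := exists_isMin_le a
  have hb0 : ¬ IsMin b := fun h => absurd (h hab.le) (not_le_of_gt hab)
  let e : Fin (Nat.card α) ≃ α := (Finite.equivFin α).symm
  refine ⟨Nat.card α, VV e a0 b, VV_finite e a0 b, zero_mem_VV e a0 b,
    polyDim_VV e a0 b ha0 hb0, fun n => ?_⟩
  rw [latticeCount_eq, lat_VV e a0 b ha0 hb0 hiso n, (projZ_injOn e a0 b hiso n).ncard_image,
    ncard_FF]

end Base

/-- Main construction: every poset with a comparable pair is good. -/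
lemma good_all (k : ℕ) : ∀ (α : Type*) [PartialOrder α] [Finite α], Nat.card α = k →
    ∀ a b : α, a < b → Good (ww α) (Nat.card α) := by
  induction k with
  | zero =>
    intro α _ _ hk a b hab
    have : Nonempty α := ⟨a⟩
    exact absurd hk (Nat.card_pos.ne')
  | succ k ih =>
    intro α _ _ hk a b hab
    classical
    cases nonempty_fintype α
    by_cases hiso : ∀ x : α, ∃ y, y ≠ x ∧ (x ≤ y ∨ y ≤ x)
    · exact Good.base a b hab hiso
    · push Not at hiso
      obtain ⟨p, hp⟩ := hiso
      have hp' : ∀ x, x ≤ p ∨ p ≤ x → x = p := by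
        intro x hx
        by_contra hne
        have := hp x hne
        rcases hx with h | h
        · exact this.2 h
        · exact this.1 h
      have hc : Nat.card {x : α // x ≠ p} = k := by
        rw [Nat.card_eq_fintype_card, Fintype.card_subtype_compl, Fintype.card_subtype_eq]
        rw [Nat.card_eq_fintype_card] at hk
        omega
      have hap : a ≠ p := fun h => hab.ne (by rw [h]; exact (hp' b (Or.inr (h ▸ hab.le))).symm)
      have hbp : b ≠ p := fun h => hab.ne (by rw [h]; exact hp' a (Or.inl (h ▸ hab.le)))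
      have h1 := ih {x : α // x ≠ p} hc ⟨a, hap⟩ ⟨b, hbp⟩ hab
      rw [hc] at h1
      have h2 := h1.step
      rw [hk]
      have h3 : ww α = fun n : ℕ => ((n : ℤ) + 1) * ww {x : α // x ≠ p} n := by
        funext n; exact ww_isolated α p hp' n
      rw [h3]; exact h2

lemma ehrhartSeries_eq {ι : Type*} {P : Set (ι → ℝ)} (hP : P.Nonempty) :
    ehrhartSeries P = PowerSeries.mk (fun n => (latticeCount P n : ℤ)) := by
  unfold ehrhartSeries
  congr 1
  funext n
  split_ifs with h
  · subst h
    have : lat P 0 = {0} := by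
      ext z
      rw [mem_lat, Set.mem_singleton_iff]
      rw [Nat.cast_zero, Set.zero_smul_set hP, Set.mem_zero, ← toReal_zero]
      exact toReal_injective.eq_iff
    rw [latticeCount_eq, this]
    simp
  · rfl

theorem main (α : Type*) [PartialOrder α] [Finite α]
    (h : orderPolytope α ≠ {x : α → ℝ | ∀ a, 0 ≤ x a ∧ x a ≤ 1}) :
    ∃ (m : ℕ) (P : Set (Fin m → ℝ)), IsLatticePolytope P ∧ polyDim P + 2 = Nat.card α ∧
      hStar P = hStar (orderPolytope α) := by
  have hab : ∃ a b : α, a < b := by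
    by_contra hne
    push Not at hne
    apply h
    ext x
    constructor
    · intro hx; exact hx.1
    · intro hx
      refine ⟨hx, fun a b hab => ?_⟩
      have : a = b := by
        by_contra hab'
        exact hne a b (lt_of_le_of_ne hab hab')
      rw [this]
  obtain ⟨a, b, hab⟩ := hab
  obtain ⟨m, V, hV, h0, hd, hc⟩ := good_all _ α rfl a b hab
  have hne : (convexHull ℝ (toReal '' V)).Nonempty :=
    ⟨toReal 0, subset_convexHull ℝ _ ⟨0, h0, rfl⟩⟩
  refine ⟨m, convexHull ℝ (toReal '' V), ⟨V, hV, ⟨0, h0⟩, rfl⟩, hd, ?_⟩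
  have h1 : ehrhartSeries (convexHull ℝ (toReal '' V)) = (1 - X) ^ 2 * ehrhartSeries (orderPolytope α) := by
    have hne' : (orderPolytope α).Nonempty := ⟨0, ⟨fun a => by simp, fun a b _ => by simp⟩⟩
    rw [ehrhartSeries_eq hne, ehrhartSeries_eq hne']
    have : (fun n => (latticeCount (orderPolytope α) n : ℤ)) = ww α := by
      funext n
      rw [latticeCount_eq, lat_orderPolytope]; rfl
    rw [this, dd_series]
    congr 1
    funext n; exact hc n
  unfold hStar
  rw [h1, polyDim_orderPolytope, ← hd]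
  ring

end Pool.Agent.Helper20.Ehrhart
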