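import Mathlib

set_option autoImplicit false
set_option linter.unusedSimpArgs false
set_option linter.unusedSectionVars false

namespace Pool.Agent.Helper20.RG

open SimpleGraph Finset

variable {V : Type*}

/-- the set `S` induces a forest -/
def Forest (G : SimpleGraph V) (S : Set V) : Prop := (G.induce S).IsAcyclic

variable {G : SimpleGraph V}

lemma Forest.mono {S T : Set V} (h : S ⊆ T) (hT : Forest G T) : Forest G S :=
  IsAcyclic.embedding (G.induceHomOfLE h) hT

lemma Forest.insertVertex {S : Set V} {x : V} (hS : Forest G S)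
    (hx : ∀ y ∈ S, ∀ y' ∈ S, G.Adj x y → G.Adj x y' → y = y') : Forest G (insert x S) := by
  classical
  intro v c hc
  set c' := c.map (SimpleGraph.Embedding.induce (insert x S)).toHom with hc'
  have hcyc : c'.IsCycle :=
    (Walk.isCycle_map_iff_of_injective (SimpleGraph.Embedding.induce (G := G) (insert x S)).injective).mpr hc
  have hsup : ∀ y ∈ c'.support, y ∈ insert x S := by
    intro y hy
    rw [hc', Walk.support_map, List.mem_map] at hy
    obtain ⟨z, _, rfl⟩ := hy
    exact z.2
  by_cases hxs : x ∈ c'.support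
  · have h2 := hcyc.ncard_neighborSet_toSubgraph_eq_two hxs
    rw [Set.ncard_eq_two] at h2
    obtain ⟨a, b, hab, hN⟩ := h2
    have hmem : ∀ z ∈ c'.toSubgraph.neighborSet x, z ∈ S ∧ G.Adj x z := by
      intro z hz
      have hadj : G.Adj x z := c'.toSubgraph.adj_sub hz
      have hz' : z ∈ c'.support := by
        rw [← Walk.mem_verts_toSubgraph]
        exact c'.toSubgraph.edge_vert (c'.toSubgraph.symm.symm _ _ hz)
      have := hsup z hz'
      rcases this with h | h
      · exact absurd h hadj.ne'
      · exact ⟨h, hadj⟩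
    have ha := hmem a (by rw [hN]; simp)
    have hb := hmem b (by rw [hN]; simp)
    exact hab (hx a ha.1 b hb.1 ha.2 hb.2)
  · have hS' : ∀ y ∈ c'.support, y ∈ S := by
      intro y hy
      rcases hsup y hy with h | h
      · exact absurd (h ▸ hy) hxs
      · exact h
    have h3 : (c'.induce S hS').IsCycle := by
      have h4 : ((c'.induce S hS').map (SimpleGraph.Embedding.induce S).toHom).IsCycle := by
        rw [Walk.map_induce]; exact hcyc
      exact (Walk.isCycle_map_iff_of_injective
        (SimpleGraph.Embedding.induce (G := G) S).injective).mp h4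
    exact hS _ h3

lemma Forest.no_triangle {S : Set V} (hS : Forest G S) {a b c : V} (ha : a ∈ S) (hb : b ∈ S)
    (hc : c ∈ S) (hab : G.Adj a b) (hac : G.Adj a c) (hbc : G.Adj b c) : False := by
  classical
  have h := hS.cliqueFree (n := 3) le_rfl
  apply h {⟨a, ha⟩, ⟨b, hb⟩, ⟨c, hc⟩}
  rw [is3Clique_iff]
  exact ⟨⟨a, ha⟩, ⟨b, hb⟩, ⟨c, hc⟩, hab, hac, hbc, rfl⟩

/-- `c` restricted to `W` is a colouring all of whose classes induce forests -/
def FC {t : ℕ} (G : SimpleGraph V) (W : Set V) (c : V → Fin t) : Prop :=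
  ∀ i, Forest G {v | v ∈ W ∧ c v = i}

section Critical

variable [DecidableEq V] {t : ℕ} {W : Finset V}

open Classical in
/-- neighbours of `x` in `W` -/
noncomputable def nb (G : SimpleGraph V) (W : Finset V) (x : V) : Finset V :=
  W.filter (fun y => G.Adj x y)

lemma mem_nb {x y : V} : y ∈ nb G W x ↔ y ∈ W ∧ G.Adj x y := by
  classical
  simp [nb]

/-- Extending a colouring to a missing vertex with at most one neighbour in some class. -/
lemma FC.extend {c : V → Fin t} {x : V} (hc : FC G (↑(W.erase x)) c) (i : Fin t)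
    (hi : ((nb G W x).filter (fun y => c y = i)).card ≤ 1) :
    FC G (↑W) (Function.update c x i) := by
  classical
  intro j
  by_cases hj : j = i
  · subst hj
    have h1 : Forest G (insert x {v | v ∈ (↑(W.erase x) : Set V) ∧ c v = j}) := by
      apply (hc j).insertVertex
      intro y hy y' hy' hxy hxy'
      rw [Finset.card_le_one] at hi
      apply hi
      · simp only [mem_filter, mem_nb]
        have := hy.1
        rw [mem_coe, mem_erase] at this
        exact ⟨⟨this.2, hxy⟩, hy.2⟩
      · simp only [mem_filter, mem_nb]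
        have := hy'.1
        rw [mem_coe, mem_erase] at this
        exact ⟨⟨this.2, hxy'⟩, hy'.2⟩
    apply h1.mono
    rintro v ⟨hv, hvc⟩
    by_cases hvx : v = x
    · left; exact hvx
    · right
      refine ⟨by rw [mem_coe, mem_erase]; exact ⟨hvx, hv⟩, ?_⟩
      rwa [Function.update_of_ne hvx] at hvc
  · apply (hc j).mono
    rintro v ⟨hv, hvc⟩
    by_cases hvx : v = x
    · subst hvx
      rw [Function.update_self] at hvc
      exact absurd hvc.symm hj
    · refine ⟨by rw [mem_coe, mem_erase]; exact ⟨hvx, hv⟩, ?_⟩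
      rwa [Function.update_of_ne hvx] at hvc

/-- If `W` has no colouring, every colour occurs at least twice around a missing vertex. -/
lemma two_le_class (hW : ∀ c : V → Fin t, ¬ FC G (↑W) c) {c : V → Fin t} {x : V}
    (hc : FC G (↑(W.erase x)) c) (i : Fin t) :
    2 ≤ ((nb G W x).filter (fun y => c y = i)).card := by
  by_contra h
  exact hW _ (hc.extend i (by omega))

lemma degree_ge (hW : ∀ c : V → Fin t, ¬ FC G (↑W) c) {c : V → Fin t} {x : V}
    (hc : FC G (↑(W.erase x)) c) : 2 * t ≤ (nb G W x).card := by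
  classical
  have h1 : (nb G W x).card = ∑ i : Fin t, ((nb G W x).filter (fun y => c y = i)).card := by
    rw [← Finset.card_eq_sum_card_fiberwise]
    intro y _; simp
  rw [h1]
  calc 2 * t = ∑ _i : Fin t, 2 := by simp [mul_comm]
    _ ≤ _ := sum_le_sum (fun i _ => two_le_class hW hc i)

/-- For a vertex of degree `2 t` every colour occurs exactly twice. -/
lemma class_eq_two (hW : ∀ c : V → Fin t, ¬ FC G (↑W) c) {c : V → Fin t} {x : V}
    (hc : FC G (↑(W.erase x)) c) (hx : (nb G W x).card ≤ 2 * t) (i : Fin t) :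
    ((nb G W x).filter (fun y => c y = i)).card = 2 := by
  classical
  have h1 : (nb G W x).card = ∑ i : Fin t, ((nb G W x).filter (fun y => c y = i)).card := by
    rw [← Finset.card_eq_sum_card_fiberwise]
    intro y _; simp
  have h2 : ∀ i ∈ (univ : Finset (Fin t)), 2 ≤ ((nb G W x).filter (fun y => c y = i)).card :=
    fun i _ => two_le_class hW hc i
  have h3 : ∑ _i : Fin t, 2 = ∑ i : Fin t, ((nb G W x).filter (fun y => c y = i)).card := by
    apply le_antisymm (sum_le_sum h2)
    rw [← h1]
    simpa [mul_comm] using hx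
  exact ((sum_eq_sum_iff_of_le h2).mp h3 i (mem_univ i)).symm

/-- Moving the missing vertex. -/
lemma shift (hW : ∀ c : V → Fin t, ¬ FC G (↑W) c) {c : V → Fin t} {x y : V} (hxW : x ∈ W)
    (hyW : y ∈ W) (hxy : G.Adj x y) (hc : FC G (↑(W.erase x)) c)
    (hx : (nb G W x).card ≤ 2 * t) :
    FC G (↑(W.erase y)) (Function.update c x (c y)) := by
  classical
  have h2 := class_eq_two hW hc hx (c y)
  intro j
  by_cases hj : j = c y
  · subst hj
    have h1 : Forest G (insert x ({v | v ∈ (↑(W.erase x) : Set V) ∧ c v = c y} \ {y})) := by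
      apply ((hc (c y)).mono Set.sdiff_subset).insertVertex
      intro z hz z' hz' hxz hxz'
      by_contra hne
      have hzW := hz.1.1
      have hzW' := hz'.1.1
      rw [mem_coe, mem_erase] at hzW hzW'
      have hzy : z ≠ y := hz.2
      have hzy' : z' ≠ y := hz'.2
      have hsub : ({y, z, z'} : Finset V) ⊆ (nb G W x).filter (fun v => c v = c y) := by
        intro v hv
        simp only [Finset.mem_insert, Finset.mem_singleton] at hv
        simp only [mem_filter, mem_nb]
        rcases hv with rfl | rfl | rfl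
        · exact ⟨⟨hyW, hxy⟩, rfl⟩
        · exact ⟨⟨hzW.2, hxz⟩, hz.1.2⟩
        · exact ⟨⟨hzW'.2, hxz'⟩, hz'.1.2⟩
      have h3 := card_le_card hsub
      rw [card_eq_three.mpr ⟨y, z, z', hzy.symm, hzy'.symm, hne, rfl⟩, h2] at h3
      omega
    apply h1.mono
    rintro v ⟨hv, hvc⟩
    rw [mem_coe, mem_erase] at hv
    by_cases hvx : v = x
    · left; exact hvx
    · right
      rw [Function.update_of_ne hvx] at hvc
      exact ⟨⟨by rw [mem_coe, mem_erase]; exact ⟨hvx, hv.2⟩, hvc⟩, hv.1⟩
  · apply (hc j).mono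
    rintro v ⟨hv, hvc⟩
    rw [mem_coe, mem_erase] at hv
    by_cases hvx : v = x
    · subst hvx
      rw [Function.update_self] at hvc
      exact absurd hvc.symm hj
    · rw [Function.update_of_ne hvx] at hvc
      exact ⟨by rw [mem_coe, mem_erase]; exact ⟨hvx, hv.2⟩, hvc⟩

/-- first half of the diamond argument -/
lemma diamond_aux (hW : ∀ c : V → Fin t, ¬ FC G (↑W) c) {v1 v2 u w : V}
    (h1W : v1 ∈ W) (h2W : v2 ∈ W) (huW : u ∈ W) (hwW : w ∈ W)
    (h1 : (nb G W v1).card ≤ 2 * t) (h2 : (nb G W v2).card ≤ 2 * t)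
    (hu : (nb G W u).card ≤ 2 * t) (hw : (nb G W w).card ≤ 2 * t)
    (h1u : G.Adj v1 u) (h2u : G.Adj v2 u) (hw1 : G.Adj w v1) (hw2 : G.Adj w v2)
    (h12 : G.Adj v1 v2)
    (hwu : ¬ G.Adj w u) (hne : w ≠ u) {c : V → Fin t} (hc : FC G (↑(W.erase w)) c) :
    c v1 = c v2 := by
  classical
  -- first path w -> v1 -> u
  have a1 := shift hW hwW h1W hw1 hc hw
  have a2 := shift hW h1W huW h1u a1 h1
  -- second path w -> v2 -> u
  have b1 := shift hW hwW h2W hw2 hc hw
  have b2 := shift hW h2W huW h2u b1 h2
  have ea : Function.update c w (c v1) u = c u := Function.update_of_ne hne.symm _ _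
  have eb : Function.update c w (c v2) u = c u := Function.update_of_ne hne.symm _ _
  rw [ea] at a2
  rw [eb] at b2
  set f := Function.update (Function.update c w (c v1)) v1 (c u) with hf
  set g := Function.update (Function.update c w (c v2)) v2 (c u) with hg
  have n1w : v1 ≠ w := hw1.ne'
  have n2w : v2 ≠ w := hw2.ne'
  have n12 : v1 ≠ v2 := h12.ne
  have f1 : f v1 = c u := by rw [hf, Function.update_self]
  have f2 : f v2 = c v2 := by
    rw [hf, Function.update_of_ne n12.symm, Function.update_of_ne n2w]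
  have g1 : g v1 = c v1 := by
    rw [hg, Function.update_of_ne n12, Function.update_of_ne n1w]
  have g2 : g v2 = c u := by rw [hg, Function.update_self]
  set A := ((nb G W u).erase v1).erase v2 with hA
  have hfA : ∀ y ∈ A, f y = c y := by
    intro y hy
    rw [hA, mem_erase, mem_erase, mem_nb] at hy
    have hyw : y ≠ w := by rintro rfl; exact hwu hy.2.2.2.symm
    rw [hf, Function.update_of_ne hy.2.1, Function.update_of_ne hyw]
  have hgA : ∀ y ∈ A, g y = c y := by
    intro y hy
    rw [hA, mem_erase, mem_erase, mem_nb] at hy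
    have hyw : y ≠ w := by rintro rfl; exact hwu hy.2.2.2.symm
    rw [hg, Function.update_of_ne hy.1, Function.update_of_ne hyw]
  have hN : nb G W u = insert v1 (insert v2 A) := by
    rw [hA, insert_erase, insert_erase]
    · exact mem_nb.mpr ⟨h1W, h1u.symm⟩
    · rw [mem_erase]; exact ⟨n12.symm, mem_nb.mpr ⟨h2W, h2u.symm⟩⟩
  have hv2A : v2 ∉ A := by rw [hA]; exact notMem_erase _ _
  have hv1A : v1 ∉ insert v2 A := by
    rw [Finset.mem_insert, not_or]
    refine ⟨n12, ?_⟩
    rw [hA, mem_erase, not_and]
    intro _; exact notMem_erase _ _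
  have key : ∀ (k : V → Fin t) (i : Fin t), ((nb G W u).filter (fun y => k y = i)).card
      = (if k v1 = i then 1 else 0) + ((if k v2 = i then 1 else 0) + (A.filter (fun y => k y = i)).card) := by
    intro k i
    rw [hN, filter_insert]
    split_ifs with e1 e2 e2
    · rw [card_insert_of_notMem (fun h => hv1A (mem_of_mem_filter _ h)), filter_insert, if_pos e2,
        card_insert_of_notMem (fun h => hv2A (mem_of_mem_filter _ h))]; omega
    · rw [card_insert_of_notMem (fun h => hv1A (mem_of_mem_filter _ h)), filter_insert, if_neg e2]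
      omega
    · rw [filter_insert, if_pos e2,
        card_insert_of_notMem (fun h => hv2A (mem_of_mem_filter _ h))]; omega
    · rw [filter_insert, if_neg e2]; omega
  have kf := key f (c v2)
  have kg := key g (c v2)
  rw [class_eq_two hW a2 hu] at kf
  rw [class_eq_two hW b2 hu] at kg
  have hAeq : (A.filter (fun y => f y = c v2)).card = (A.filter (fun y => g y = c v2)).card := by
    congr 1
    apply filter_congr
    intro y hy
    rw [hfA y hy, hgA y hy]
  rw [f1, f2] at kf
  rw [g1, g2] at kg
  simp only [if_true] at kf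
  by_contra hcon
  rw [if_neg hcon] at kg
  omega

/-- In a critical graph there is no diamond of vertices of degree at most `2 t`. -/
lemma no_diamond (hW : ∀ c : V → Fin t, ¬ FC G (↑W) c)
    (hcrit : ∀ x ∈ W, ∃ c : V → Fin t, FC G (↑(W.erase x)) c) {v1 v2 u w : V}
    (h1W : v1 ∈ W) (h2W : v2 ∈ W) (huW : u ∈ W) (hwW : w ∈ W)
    (h1 : (nb G W v1).card ≤ 2 * t) (h2 : (nb G W v2).card ≤ 2 * t)
    (hu : (nb G W u).card ≤ 2 * t) (hw : (nb G W w).card ≤ 2 * t)
    (h1u : G.Adj v1 u) (h2u : G.Adj v2 u) (hw1 : G.Adj w v1) (hw2 : G.Adj w v2)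
    (h12 : G.Adj v1 v2)
    (hwu : ¬ G.Adj w u) (hne : w ≠ u) : False := by
  classical
  obtain ⟨c, hc⟩ := hcrit w hwW
  have e1 := diamond_aux hW h1W h2W huW hwW h1 h2 hu hw h1u h2u hw1 hw2 h12 hwu hne hc
  -- rotate the colours around the cycle w -> v1 -> u -> v2 -> w
  have a1 := shift hW hwW h1W hw1 hc hw
  have a2 := shift hW h1W huW h1u a1 h1
  have a3 := shift hW huW h2W h2u.symm a2 hu
  have a4 := shift hW h2W hwW hw2.symm a3 h2
  have n1w : v1 ≠ w := hw1.ne'
  have n2w : v2 ≠ w := hw2.ne'
  have n12 : v1 ≠ v2 := h12.ne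
  have n1u : v1 ≠ u := h1u.ne
  have n2u : v2 ≠ u := h2u.ne
  have e2 := diamond_aux hW h1W h2W huW hwW h1 h2 hu hw h1u h2u hw1 hw2 h12 hwu hne a4
  simp only [Function.update_self, Function.update_of_ne hne, Function.update_of_ne hne.symm,
    Function.update_of_ne n1w, Function.update_of_ne n2w, Function.update_of_ne n12,
    Function.update_of_ne n12.symm, Function.update_of_ne n1u, Function.update_of_ne n2u,
    Function.update_of_ne n1u.symm, Function.update_of_ne n2u.symm, Function.update_of_ne n1w.symm,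
    Function.update_of_ne n2w.symm] at e2
  -- all three vertices of the triangle have the same colour
  exact (hc (c v1)).no_triangle (a := v1) (b := v2) (c := u)
    ⟨by rw [mem_coe, mem_erase]; exact ⟨n1w, h1W⟩, rfl⟩
    ⟨by rw [mem_coe, mem_erase]; exact ⟨n2w, h2W⟩, e1.symm⟩
    ⟨by rw [mem_coe, mem_erase]; exact ⟨hne.symm, huW⟩, by rw [e2]⟩ h12 h1u h2u

end Critical

end Pool.Agent.Helper20.RG
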