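import Mathlib

set_option autoImplicit false

/-!
# Reduced genus and point arboricity

Definitions used in the statement about graphs of bounded reduced genus.
The genus of a finite graph is defined through rotation systems.
-/

namespace Pool.Agent.Helper20.ReducedGenus

/-- The permutation of the darts of a graph that reverses every dart. -/
def flip {W : Type*} (I : SimpleGraph W) : Equiv.Perm I.Dart where
  toFun := SimpleGraph.Dart.symm
  invFun := SimpleGraph.Dart.symm
  left_inv := SimpleGraph.Dart.symm_symm
  right_inv := SimpleGraph.Dart.symm_symm

/-- A rotation system of a graph: a permutation of its darts (oriented edges) whose cycles are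
exactly the sets of all darts with a common start vertex, i.e. a cyclic order of the darts leaving
each vertex. -/
def IsRotation {W : Type*} (I : SimpleGraph W) (σ : Equiv.Perm I.Dart) : Prop :=
  ∀ d d' : I.Dart, σ.SameCycle d d' ↔ d.fst = d'.fst

/-- The number of cycles (fixed points included) of a permutation. -/
noncomputable def numCycles {D : Type*} (π : Equiv.Perm D) : ℕ :=
  Nat.card (Quotient (Equiv.Perm.SameCycle.setoid π))

/-- The number of faces of a rotation system: the number of cycles of the face permutation, plus
one face for each isolated vertex. -/
noncomputable def numFaces {W : Type*} (I : SimpleGraph W) (σ : Equiv.Perm I.Dart) : ℕ :=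
  numCycles (σ * flip I) + Nat.card {v : W // ∀ w, ¬ I.Adj v w}

/-- `I` has a rotation system of genus at most `g`: the genus of a rotation system is determined by
Euler's formula `#vertices - #edges + #faces = 2 * #components - 2 * genus`. -/
def GenusLE {W : Type*} (I : SimpleGraph W) (g : ℕ) : Prop :=
  ∃ σ : Equiv.Perm I.Dart, IsRotation I σ ∧
    2 * (Nat.card I.ConnectedComponent : ℤ) - 2 * g ≤
      (Nat.card W : ℤ) - Nat.card I.edgeSet + numFaces I σ

/-- The genus of a finite graph: the least genus of a rotation system. -/
noncomputable def genus {W : Type*} (I : SimpleGraph W) : ℕ := sInf {g | GenusLE I g}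

/-- The incidence graph of a hypergraph with vertex set `V` and edge family `H`. -/
def incidenceGraph {V E : Type*} (H : E → Finset V) : SimpleGraph (V ⊕ E) where
  Adj
    | Sum.inl v, Sum.inr e => v ∈ H e
    | Sum.inr e, Sum.inl v => v ∈ H e
    | _, _ => False
  symm := ⟨by rintro (v | e) (v' | e') h <;> exact h⟩
  loopless := ⟨by rintro (v | e) h <;> exact h⟩

/-- The adjacency multigraph of the hypergraph `H` is the simple graph `G`: two distinct vertices
lie together in exactly one edge of `H` if they are adjacent in `G` and in no edge otherwise. -/
def IsAdjacencyGraph {V E : Type*} (H : E → Finset V) (G : SimpleGraph V) : Prop :=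
  ∀ u v : V, u ≠ v →
    (G.Adj u v → Nat.card {e : E // u ∈ H e ∧ v ∈ H e} = 1) ∧
    (¬ G.Adj u v → Nat.card {e : E // u ∈ H e ∧ v ∈ H e} = 0)

/-- The reduced genus of a simple graph `G`: the least genus of (the incidence graph of) a
hypergraph with adjacency multigraph `G`. -/
noncomputable def reducedGenus {V : Type*} (G : SimpleGraph V) : ℕ :=
  sInf {g | ∃ (k : ℕ) (H : Fin k → Finset V), IsAdjacencyGraph H G ∧ genus (incidenceGraph H) = g}

/-- The point arboricity: the least number of parts in a partition of the vertices such that every
part induces a forest. -/
noncomputable def pointArboricity {V : Type*} (G : SimpleGraph V) : ℕ :=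
  sInf {n | ∃ c : V → Fin n, ∀ i, (G.induce {v | c v = i}).IsAcyclic}

end Pool.Agent.Helper20.ReducedGenus
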