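import Mathlib

set_option autoImplicit false
set_option linter.unusedSimpArgs false

namespace Pool.Agent.Helper20.RG

open Equiv Equiv.Perm

variable {D : Type*}

/-- number of classes of an equivalence relation -/
noncomputable def nc (s : Setoid D) : ℕ := Nat.card (Quotient s)

lemma nc_le_of_le [Finite D] {s s' : Setoid D} (h : s ≤ s') : nc s' ≤ nc s := by
  have : Function.Surjective (Quotient.map' (s₁ := s) (s₂ := s') id (fun x y hxy => h hxy)) := by
    intro q
    induction q using Quotient.inductionOn' with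
    | h x => exact ⟨Quotient.mk'' x, rfl⟩
  exact Nat.card_le_card_of_surjective _ this

/-- glue the classes of `a` and `b` -/
def glue (s : Setoid D) (a b : D) : Setoid D where
  r x y := s x y ∨ (s x a ∧ s y b) ∨ (s x b ∧ s y a)
  iseqv := by
    refine ⟨fun x => Or.inl (s.refl' x), ?_, ?_⟩
    · rintro x y (h | h | h)
      · exact Or.inl (s.symm' h)
      · exact Or.inr (Or.inr ⟨h.2, h.1⟩)
      · exact Or.inr (Or.inl ⟨h.2, h.1⟩)
    · rintro x y z (h | h | h) (h' | h' | h')
      · exact Or.inl (s.trans' h h')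
      · exact Or.inr (Or.inl ⟨s.trans' h h'.1, h'.2⟩)
      · exact Or.inr (Or.inr ⟨s.trans' h h'.1, h'.2⟩)
      · exact Or.inr (Or.inl ⟨h.1, s.trans' (s.symm' h') h.2⟩)
      · exact Or.inr (Or.inl ⟨h.1, h'.2⟩)
      · exact Or.inl (s.trans' h.1 (s.symm' h'.2))
      · exact Or.inr (Or.inr ⟨h.1, s.trans' (s.symm' h') h.2⟩)
      · exact Or.inl (s.trans' h.1 (s.symm' h'.2))
      · exact Or.inr (Or.inr ⟨h.1, h'.2⟩)

lemma glue_iff {s : Setoid D} {a b x y : D} :
    (glue s a b) x y ↔ s x y ∨ (s x a ∧ s y b) ∨ (s x b ∧ s y a) := Iff.rfl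

lemma le_glue (s : Setoid D) (a b : D) : s ≤ glue s a b := fun _ _ h => Or.inl h

lemma glue_rel (s : Setoid D) (a b : D) : (glue s a b) a b :=
  Or.inr (Or.inl ⟨s.refl' a, s.refl' b⟩)

lemma glue_le {s s' : Setoid D} {a b : D} (h : s ≤ s') (hab : s' a b) : glue s a b ≤ s' := by
  rintro x y (hxy | ⟨h1, h2⟩ | ⟨h1, h2⟩)
  · exact h hxy
  · exact s'.trans' (h h1) (s'.trans' hab (s'.symm' (h h2)))
  · exact s'.trans' (h h1) (s'.trans' (s'.symm' hab) (s'.symm' (h h2)))

lemma nc_le_glue [Finite D] (s : Setoid D) (a b : D) : nc s ≤ nc (glue s a b) + 1 := by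
  classical
  have hinj : Function.Injective (fun q : Quotient s => if q = Quotient.mk'' b then
      (none : Option (Quotient (glue s a b))) else
      some (Quotient.map' (s₁ := s) (s₂ := glue s a b) id (fun x y hxy => le_glue s a b hxy) q)) := by
    intro q q' h
    simp only at h
    split_ifs at h with h1 h2 h2
    · rw [h1, h2]
    · induction q using Quotient.inductionOn' with
      | h x =>
        induction q' using Quotient.inductionOn' with
        | h y =>
          simp only [Option.some.injEq] at h
          have h3 : (glue s a b) x y := Quotient.eq''.mp h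
          have hx : ¬ s x b := fun h => h1 (Quotient.eq''.mpr h)
          have hy : ¬ s y b := fun h => h2 (Quotient.eq''.mpr h)
          rcases h3 with h3 | h3 | h3
          · exact Quotient.eq''.mpr h3
          · exact absurd h3.2 hy
          · exact absurd h3.1 hx
  have := Nat.card_le_card_of_injective _ hinj
  rw [Finite.card_option] at this
  exact this

lemma nc_glue_of_not [Finite D] {s : Setoid D} {a b : D} (h : ¬ s a b) :
    nc (glue s a b) + 1 ≤ nc s := by
  have hs : Function.Surjective (Quotient.map' (s₁ := s) (s₂ := glue s a b) id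
      (fun x y hxy => le_glue s a b hxy)) := by
    intro q
    induction q using Quotient.inductionOn' with
    | h x => exact ⟨Quotient.mk'' x, rfl⟩
  have hni : ¬ Function.Injective (Quotient.map' (s₁ := s) (s₂ := glue s a b) id
      (fun x y hxy => le_glue s a b hxy)) := by
    intro hinj
    have h1 : (Quotient.mk'' a : Quotient s) = Quotient.mk'' b := by
      apply hinj
      exact Quotient.eq''.mpr (glue_rel s a b)
    exact h (Quotient.eq''.mp h1)
  have := Fintype.ofFinite (Quotient s)
  have := Fintype.ofFinite (Quotient (glue s a b))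
  unfold nc
  rw [Nat.card_eq_fintype_card, Nat.card_eq_fintype_card]
  exact Fintype.card_lt_of_surjective_not_injective _ hs hni

/-- cycles of a permutation -/
abbrev cyc (π : Perm D) : Setoid D := SameCycle.setoid π

lemma cyc_iff {π : Perm D} {x y : D} : (cyc π) x y ↔ SameCycle π x y := Iff.rfl

/-- number of cycles -/
noncomputable def z (π : Perm D) : ℕ := nc (cyc π)

lemma cyc_le {π : Perm D} {s : Setoid D} (h : ∀ x, s x (π x)) : cyc π ≤ s := by
  have h1 : ∀ (n : ℕ) x, s x ((π ^ n) x) := by
    intro n
    induction n with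
    | zero => intro x; exact s.refl' x
    | succ n ih => intro x; rw [pow_succ', Perm.mul_apply]; exact s.trans' (ih x) (h _)
  rintro x y ⟨k, hk⟩
  rcases Int.eq_nat_or_neg k with ⟨n, rfl | rfl⟩
  · rw [← hk, zpow_natCast]; exact h1 n x
  · rw [zpow_neg, zpow_natCast, Perm.inv_eq_iff_eq] at hk
    rw [hk]; exact s.symm' (h1 n y)

lemma rel_apply (π : Perm D) (x : D) : (cyc π) x (π x) := ⟨1, by simp⟩

lemma cyc_mul_swap_le [DecidableEq D] (π : Perm D) (a b : D) :
    cyc (π * swap a b) ≤ glue (cyc π) a b := by
  apply cyc_le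
  intro x
  rw [Perm.mul_apply]
  by_cases hxa : x = a
  · subst hxa
    rw [swap_apply_left]
    exact Or.inr (Or.inl ⟨(cyc π).refl' _, (cyc π).symm' (rel_apply π b)⟩)
  · by_cases hxb : x = b
    · subst hxb
      rw [swap_apply_right]
      exact Or.inr (Or.inr ⟨(cyc π).refl' _, (cyc π).symm' (rel_apply π a)⟩)
    · rw [swap_apply_of_ne_of_ne hxa hxb]
      exact Or.inl (rel_apply π x)

lemma cyc_le_glue_mul_swap [DecidableEq D] (π : Perm D) (a b : D) :
    cyc π ≤ glue (cyc (π * swap a b)) a b := by
  have := cyc_mul_swap_le (π * swap a b) a b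
  rwa [mul_assoc, swap_mul_self, mul_one] at this

/-- multiplying by a transposition loses at most one cycle -/
lemma z_le_mul_swap [DecidableEq D] [Finite D] (π : Perm D) (a b : D) :
    z π ≤ z (π * swap a b) + 1 := by
  have h1 : z π ≤ nc (glue (cyc π) a b) + 1 := nc_le_glue _ _ _
  have h2 : nc (glue (cyc π) a b) ≤ z (π * swap a b) := nc_le_of_le (cyc_mul_swap_le π a b)
  omega

lemma sameCycle_mul_swap [DecidableEq D] [Finite D] {π : Perm D} {a b : D}
    (h : ¬ SameCycle π a b) : SameCycle (π * swap a b) a b := by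
  classical
  have hex : ∃ k : ℕ, 0 < k ∧ (π ^ k) b = b := by
    cases nonempty_fintype D
    exact ⟨orderOf π, orderOf_pos π, by rw [pow_orderOf_eq_one]; rfl⟩
  set k := Nat.find hex with hk
  obtain ⟨hk0, hkb⟩ := Nat.find_spec hex
  have hmin : ∀ j, 0 < j → j < k → (π ^ j) b ≠ b := by
    intro j hj0 hjk hjb
    exact Nat.find_min hex hjk ⟨hj0, hjb⟩
  have hna : ∀ j : ℕ, (π ^ j) b ≠ a := by
    intro j hj
    apply h
    exact (SameCycle.symm ⟨j, by rw [zpow_natCast]; exact hj⟩)
  have key : ∀ j : ℕ, j + 1 ≤ k → ((π * swap a b) ^ (j + 1)) a = (π ^ (j + 1)) b := by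
    intro j
    induction j with
    | zero => intro _; simp [Perm.mul_apply]
    | succ j ih =>
      intro hj
      rw [pow_succ', Perm.mul_apply, ih (by omega), Perm.mul_apply,
        swap_apply_of_ne_of_ne (hna _) (hmin (j + 1) (by omega) (by omega)), ← Perm.mul_apply,
        ← pow_succ']
  refine ⟨(k : ℤ), ?_⟩
  rw [zpow_natCast]
  obtain ⟨k', hk'⟩ : ∃ k', k = k' + 1 := ⟨k - 1, by omega⟩
  rw [hk', key k' (by omega), ← hk']
  exact hkb

/-- multiplying by a transposition joining two cycles loses exactly one cycle -/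
lemma z_mul_swap_of_not [DecidableEq D] [Finite D] {π : Perm D} {a b : D}
    (h : ¬ SameCycle π a b) : z (π * swap a b) + 1 = z π := by
  have h1 := nc_glue_of_not (s := cyc π) h
  have h2 : glue (cyc (π * swap a b)) a b ≤ cyc (π * swap a b) :=
    glue_le le_rfl (sameCycle_mul_swap h)
  have h3 : cyc π ≤ cyc (π * swap a b) := (cyc_le_glue_mul_swap π a b).trans h2
  have h4 : glue (cyc π) a b ≤ cyc (π * swap a b) := glue_le h3 (sameCycle_mul_swap h)
  have h5 : z (π * swap a b) ≤ nc (glue (cyc π) a b) := nc_le_of_le h4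
  have h6 := z_le_mul_swap π a b
  unfold z at *
  omega

lemma z_swap_mul_of_not [DecidableEq D] [Finite D] {π : Perm D} {a b : D}
    (h : ¬ SameCycle π a b) : z (swap a b * π) + 1 = z π := by
  have h1 : swap a b * π = π * swap (π.symm a) (π.symm b) := by
    rw [mul_swap_eq_swap_mul]; simp
  rw [h1]
  apply z_mul_swap_of_not
  rwa [sameCycle_symm_apply_left, sameCycle_symm_apply_right]

lemma not_sameCycle_of_fixed {π : Perm D} {a b : D} (ha : π a = a) (hab : a ≠ b) :
    ¬ SameCycle π a b := by
  rintro ⟨k, hk⟩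
  exact hab ((Perm.zpow_apply_eq_self_of_apply_eq_self ha k).symm.trans hk)

/-- The Euler defect of a pair of permutations. -/
noncomputable def Psi (σ α : Perm D) : ℤ :=
  2 * (nc (cyc σ ⊔ cyc α) : ℤ) - z σ - z α - z (σ * α)

/-- removing an edge from the involution does not increase the defect -/
lemma Psi_delete [DecidableEq D] [Finite D] (σ α : Perm D) (d : D) (hd : α (α d) = d)
    (hne : α d ≠ d) : Psi σ (α * swap d (α d)) ≤ Psi σ α := by
  set α' := α * swap d (α d) with hα'
  have hfix : α' d = d := by rw [hα', Perm.mul_apply, swap_apply_left, hd]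
  have hαα' : α' * swap d (α d) = α := by rw [hα', mul_assoc, swap_mul_self, mul_one]
  have hz : z α + 1 = z α' := by
    have := z_mul_swap_of_not (not_sameCycle_of_fixed hfix hne.symm)
    rwa [hαα'] at this
  have hJ : cyc σ ⊔ cyc α ≤ glue (cyc σ ⊔ cyc α') d (α d) := by
    apply sup_le
    · exact le_sup_left.trans (le_glue _ _ _)
    · have h1 := cyc_mul_swap_le α' d (α d)
      rw [hαα'] at h1
      refine h1.trans (glue_le (le_sup_right.trans (le_glue _ _ _)) (glue_rel _ _ _))
  have hφ : (σ * α') * swap d (α d) = σ * α := by rw [mul_assoc, hαα']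
  have hmono := nc_le_of_le hJ
  unfold Psi
  by_cases hc : (cyc σ ⊔ cyc α') d (α d)
  · have h2 : nc (cyc σ ⊔ cyc α') ≤ nc (cyc σ ⊔ cyc α) :=
      nc_le_of_le (hJ.trans (glue_le le_rfl hc))
    have h3 : z (σ * α) ≤ z (σ * α') + 1 := by
      have := z_le_mul_swap (σ * α) d (α d)
      rwa [mul_assoc] at this
    omega
  · have h2 := nc_le_glue (cyc σ ⊔ cyc α') d (α d)
    have h3 : ¬ SameCycle (σ * α') d (α d) := by
      intro h
      apply hc
      have : cyc (σ * α') ≤ cyc σ ⊔ cyc α' := by
        apply cyc_le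
        intro x
        rw [Perm.mul_apply]
        exact (cyc σ ⊔ cyc α').trans' ((le_sup_right : cyc α' ≤ cyc σ ⊔ cyc α') (rel_apply α' x))
          ((le_sup_left : cyc σ ≤ cyc σ ⊔ cyc α') (rel_apply σ _))
      exact this h
    have h4 := z_mul_swap_of_not h3
    rw [hφ] at h4
    omega

/-- removing a loose dart from the rotation does not increase the defect -/
lemma Psi_excise [DecidableEq D] [Finite D] (σ α : Perm D) (d : D) (hd : α d = d) :
    Psi (swap d (σ d) * σ) α ≤ Psi σ α := by
  by_cases hne : σ d = d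
  · rw [hne, swap_self]; exact le_rfl
  set σ' := swap d (σ d) * σ with hσ'
  have hfix : σ' d = d := by rw [hσ', Perm.mul_apply, swap_apply_right]
  have hσσ' : swap d (σ d) * σ' = σ := by rw [hσ', ← mul_assoc, swap_mul_self, one_mul]
  have hz : z σ + 1 = z σ' := by
    have := z_swap_mul_of_not (not_sameCycle_of_fixed hfix (Ne.symm hne))
    rwa [hσσ'] at this
  have hφfix : (σ' * α) d = d := by rw [Perm.mul_apply, hd, hfix]
  have hφ : swap d (σ d) * (σ' * α) = σ * α := by rw [← mul_assoc, hσσ']
  have hzφ : z (σ * α) + 1 = z (σ' * α) := by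
    have := z_swap_mul_of_not (not_sameCycle_of_fixed hφfix (Ne.symm hne))
    rwa [hφ] at this
  have hσle : cyc σ ≤ glue (cyc σ') d (σ d) := by
    apply cyc_le
    intro x
    have h1 : σ x = swap d (σ d) (σ' x) := by rw [← Perm.mul_apply, hσσ']
    rw [h1]
    by_cases hxa : σ' x = d
    · rw [hxa, swap_apply_left]
      have : (cyc σ') x d := by rw [← hxa]; exact rel_apply σ' x
      exact Or.inr (Or.inl ⟨this, (cyc σ').refl' _⟩)
    · by_cases hxb : σ' x = σ d
      · rw [hxb, swap_apply_right]
        have : (cyc σ') x (σ d) := by rw [← hxb]; exact rel_apply σ' x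
        exact Or.inr (Or.inr ⟨this, (cyc σ').refl' _⟩)
      · rw [swap_apply_of_ne_of_ne hxa hxb]
        exact Or.inl (rel_apply σ' x)
  have hJ : cyc σ ⊔ cyc α ≤ glue (cyc σ' ⊔ cyc α) d (σ d) := by
    apply sup_le
    · exact hσle.trans (glue_le (le_sup_left.trans (le_glue _ _ _)) (glue_rel _ _ _))
    · exact le_sup_right.trans (le_glue _ _ _)
  have h1 := nc_le_of_le hJ
  have h2 := nc_le_glue (cyc σ' ⊔ cyc α) d (σ d)
  unfold Psi
  omega

/-- excision does not change the cycle relation away from the excised dart -/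
lemma sameCycle_excise [DecidableEq D] (σ : Perm D) (d : D) {x y : D} (hx : x ≠ d) (hy : y ≠ d) :
    SameCycle (swap d (σ d) * σ) x y ↔ SameCycle σ x y := by
  set σ' := swap d (σ d) * σ with hσ'
  have hfix : σ' d = d := by rw [hσ', Perm.mul_apply, swap_apply_right]
  have hσσ' : swap d (σ d) * σ' = σ := by rw [hσ', ← mul_assoc, swap_mul_self, one_mul]
  constructor
  · have : cyc σ' ≤ cyc σ := by
      apply cyc_le
      intro x
      rw [hσ', Perm.mul_apply]
      by_cases h1 : σ x = d
      · rw [h1, swap_apply_left]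
        have h3 := rel_apply σ x
        rw [h1] at h3
        exact (cyc σ).trans' h3 (rel_apply σ d)
      · by_cases h2 : σ x = σ d
        · have h3 : x = d := σ.injective h2
          subst h3
          rw [swap_apply_right]
        · rw [swap_apply_of_ne_of_ne h1 h2]; exact rel_apply σ x
    intro h; exact this h
  · intro h
    have hσle : cyc σ ≤ glue (cyc σ') d (σ d) := by
      apply cyc_le
      intro x
      have h1 : σ x = swap d (σ d) (σ' x) := by rw [← Perm.mul_apply, hσσ']
      rw [h1]
      by_cases hxa : σ' x = d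
      · rw [hxa, swap_apply_left]
        have : (cyc σ') x d := by rw [← hxa]; exact rel_apply σ' x
        exact Or.inr (Or.inl ⟨this, (cyc σ').refl' _⟩)
      · by_cases hxb : σ' x = σ d
        · rw [hxb, swap_apply_right]
          have : (cyc σ') x (σ d) := by rw [← hxb]; exact rel_apply σ' x
          exact Or.inr (Or.inr ⟨this, (cyc σ').refl' _⟩)
        · rw [swap_apply_of_ne_of_ne hxa hxb]
          exact Or.inl (rel_apply σ' x)
    have hfd : ∀ x, SameCycle σ' x d → x = d := by
      intro x hx
      by_contra hne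
      exact not_sameCycle_of_fixed hfix (Ne.symm hne) hx.symm
    rcases hσle h with h1 | h1 | h1
    · exact h1
    · exact absurd (hfd x h1.1) hx
    · exact absurd (hfd y h1.2) hy


lemma excise_fixed [DecidableEq D] {π : Perm D} {d x : D} (hx : π x = x) :
    (swap d (π d) * π) x = x ∨ x = d := by
  by_cases hxd : x = d
  · exact Or.inr hxd
  · left
    rw [Perm.mul_apply, hx, swap_apply_of_ne_of_ne hxd]
    intro h
    apply hxd
    apply π.injective
    rw [hx]; exact h

/-- Deleting a set of darts closed under the involution. -/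
lemma restrict [Finite D] {X : Type*} (vt : D → X) (σ α : Perm D)
    (hσ : ∀ x y, SameCycle σ x y ↔ vt x = vt y) (hα : ∀ x, α (α x) = x) (hα' : ∀ x, α x ≠ x)
    (n : ℕ) : ∀ S : Finset D, S.card = n → (∀ x ∈ S, α x ∈ S) →
    ∃ σ' α' : Perm D, (∀ x ∈ S, σ' x = x) ∧ (∀ x ∈ S, α' x = x) ∧ (∀ x, x ∉ S → α' x = α x) ∧
      (∀ x y, x ∉ S → y ∉ S → (SameCycle σ' x y ↔ vt x = vt y)) ∧ Psi σ' α' ≤ Psi σ α := by
  classical
  induction n using Nat.strong_induction_on with
  | _ n ih =>
    intro S hSn hS
    rcases S.eq_empty_or_nonempty with rfl | ⟨d, hd⟩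
    · exact ⟨σ, α, by simp, by simp, by simp, fun x y _ _ => hσ x y, le_rfl⟩
    · set e := α d with he
      have heS : e ∈ S := hS d hd
      have hed : e ≠ d := hα' d
      set S0 := (S.erase d).erase e with hS0
      have hc : S0.card < n := by
        rw [← hSn, hS0]
        exact (Finset.card_le_card (Finset.erase_subset _ _)).trans_lt (Finset.card_erase_lt_of_mem hd)
      have hS0c : ∀ x ∈ S0, α x ∈ S0 := by
        intro x hx
        rw [hS0, Finset.mem_erase, Finset.mem_erase] at hx ⊢
        refine ⟨fun h => hx.2.1 (α.injective h), fun h => hx.1 ?_, hS x hx.2.2⟩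
        rw [he, ← h, hα]
      obtain ⟨σ0, α0, h1, h2, h3, h4, h5⟩ := ih _ hc S0 rfl hS0c
      have hdS0 : d ∉ S0 := by rw [hS0]; simp
      have heS0 : e ∉ S0 := by rw [hS0]; simp
      have hα0d : α0 d = e := h3 d hdS0
      have hα0e : α0 e = d := by rw [h3 e heS0, he, hα]
      set α1 := α0 * swap d (α0 d) with hα1
      have hα1d : α1 d = d := by rw [hα1, Perm.mul_apply, swap_apply_left, hα0d, hα0e]
      have hα1e : α1 e = e := by rw [hα1, Perm.mul_apply, hα0d, swap_apply_right, hα0d]
      have hP1 : Psi σ0 α1 ≤ Psi σ0 α0 :=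
        Psi_delete σ0 α0 d (by rw [hα0d, hα0e]) (by rw [hα0d]; exact hed)
      set σ1 := swap d (σ0 d) * σ0 with hσ1
      have hσ1d : σ1 d = d := by rw [hσ1, Perm.mul_apply, swap_apply_right]
      have hP2 : Psi σ1 α1 ≤ Psi σ0 α1 := Psi_excise σ0 α1 d hα1d
      set σ2 := swap e (σ1 e) * σ1 with hσ2
      have hσ2e : σ2 e = e := by rw [hσ2, Perm.mul_apply, swap_apply_right]
      have hσ2d : σ2 d = d := by
        rcases excise_fixed (d := e) hσ1d with h | h
        · exact h
        · exact absurd h.symm hed
      have hP3 : Psi σ2 α1 ≤ Psi σ1 α1 := Psi_excise σ1 α1 e hα1e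
      have hmem : ∀ x ∈ S, x = d ∨ x = e ∨ x ∈ S0 := by
        intro x hx
        by_cases hxd : x = d
        · exact Or.inl hxd
        · by_cases hxe : x = e
          · exact Or.inr (Or.inl hxe)
          · exact Or.inr (Or.inr (by rw [hS0, Finset.mem_erase, Finset.mem_erase]; exact ⟨hxe, hxd, hx⟩))
      refine ⟨σ2, α1, ?_, ?_, ?_, ?_, ?_⟩
      · intro x hx
        rcases hmem x hx with rfl | rfl | hx0
        · exact hσ2d
        · exact hσ2e
        · have hxd : x ≠ d := fun h => hdS0 (h ▸ hx0)
          have hxe : x ≠ e := fun h => heS0 (h ▸ hx0)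
          have a1 : σ1 x = x := by
            rcases excise_fixed (d := d) (h1 x hx0) with h | h
            · exact h
            · exact absurd h hxd
          rcases excise_fixed (d := e) a1 with h | h
          · exact h
          · exact absurd h hxe
      · intro x hx
        rcases hmem x hx with rfl | rfl | hx0
        · exact hα1d
        · exact hα1e
        · have hxd : x ≠ d := fun h => hdS0 (h ▸ hx0)
          have hxe : x ≠ e := fun h => heS0 (h ▸ hx0)
          rw [hα1, Perm.mul_apply, hα0d, swap_apply_of_ne_of_ne hxd hxe]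
          exact h2 x hx0
      · intro x hx
        have hxd : x ≠ d := fun h => hx (h ▸ hd)
        have hxe : x ≠ e := fun h => hx (h ▸ heS)
        have hx0 : x ∉ S0 := fun h => hx (Finset.mem_of_mem_erase (Finset.mem_of_mem_erase h))
        rw [hα1, Perm.mul_apply, hα0d, swap_apply_of_ne_of_ne hxd hxe]
        exact h3 x hx0
      · intro x y hx hy
        have hxd : x ≠ d := fun h => hx (h ▸ hd)
        have hxe : x ≠ e := fun h => hx (h ▸ heS)
        have hx0 : x ∉ S0 := fun h => hx (Finset.mem_of_mem_erase (Finset.mem_of_mem_erase h))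
        have hyd : y ≠ d := fun h => hy (h ▸ hd)
        have hye : y ≠ e := fun h => hy (h ▸ heS)
        have hy0 : y ∉ S0 := fun h => hy (Finset.mem_of_mem_erase (Finset.mem_of_mem_erase h))
        rw [hσ2, sameCycle_excise σ1 e hxe hye, hσ1, sameCycle_excise σ0 d hxd hyd]
        exact h4 x y hx0 hy0
      · linarith

open Classical in
/-- size of the class of `x` -/
noncomputable def csz [Fintype D] (s : Setoid D) (x : D) : ℕ :=
  (Finset.univ.filter (fun y => s x y)).card

lemma csz_pos [Fintype D] (s : Setoid D) (x : D) : 0 < csz s x := by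
  classical
  exact Finset.card_pos.mpr ⟨x, by simp [s.refl' x]⟩

/-- the number of classes as a sum over elements -/
lemma nc_eq_sum [Fintype D] (s : Setoid D) : (nc s : ℚ) = ∑ x : D, 1 / (csz s x : ℚ) := by
  classical
  have := Fintype.ofFinite (Quotient s)
  have h1 := Finset.sum_fiberwise (s := (Finset.univ : Finset D))
    (g := fun x => (Quotient.mk'' x : Quotient s)) (f := fun x => 1 / (csz s x : ℚ))
  rw [← h1]
  have h2 : ∀ q : Quotient s, ∑ x ∈ Finset.univ.filter (fun x : D => (Quotient.mk'' x : Quotient s) = q),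
      1 / (csz s x : ℚ) = 1 := by
    intro q
    induction q using Quotient.inductionOn' with
    | h y =>
      have h3 : ∀ x ∈ Finset.univ.filter (fun x : D => (Quotient.mk'' x : Quotient s) = Quotient.mk'' y),
          1 / (csz s x : ℚ) = 1 / (csz s y : ℚ) := by
        intro x hx
        rw [Finset.mem_filter] at hx
        have hxy : s x y := Quotient.eq''.mp hx.2
        have : csz s x = csz s y := by
          unfold csz
          congr 1
          ext w
          simp only [Finset.mem_filter, Finset.mem_univ, true_and]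
          exact ⟨fun h => s.trans' (s.symm' hxy) h, fun h => s.trans' hxy h⟩
        rw [this]
      rw [Finset.sum_congr rfl h3, Finset.sum_const]
      have h4 : (Finset.univ.filter (fun x : D => (Quotient.mk'' x : Quotient s) = Quotient.mk'' y)).card
          = csz s y := by
        unfold csz
        congr 1
        ext w
        simp only [Finset.mem_filter, Finset.mem_univ, true_and]
        constructor
        · intro h; exact s.symm' (Quotient.eq''.mp h)
        · intro h; exact Quotient.eq''.mpr (s.symm' h)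
      rw [h4, nsmul_eq_mul]
      have := csz_pos s y
      field_simp
  rw [Finset.sum_congr rfl (fun q _ => h2 q)]
  simp [nc, Nat.card_eq_fintype_card]

end Pool.Agent.Helper20.RG
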