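import Mathlib
import Pool.Agent.Helper20.RGDefs
import Pool.Agent.Helper20.RGPerm

set_option autoImplicit false
set_option linter.unusedSimpArgs false

namespace Pool.Agent.Helper20.RG

open Equiv Equiv.Perm SimpleGraph Pool.Agent.Helper20.ReducedGenus

variable {W : Type*} {I : SimpleGraph W}

lemma flip_apply (d : I.Dart) : flip I d = d.symm := rfl

lemma flip_flip (d : I.Dart) : flip I (flip I d) = d := Dart.symm_symm d

lemma flip_ne (d : I.Dart) : flip I d ≠ d := Dart.symm_ne d

lemma numCycles_eq {D : Type*} (π : Perm D) : numCycles π = z π := rfl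

/-- darts starting in reachable vertices are related -/
lemma rel_of_walk {σ : Perm I.Dart} (hσ : IsRotation I σ) {v w : W} (p : I.Walk v w) :
    ∀ d d' : I.Dart, d.fst = v → d'.fst = w → (cyc σ ⊔ cyc (flip I)) d d' := by
  induction p with
  | nil =>
    intro d d' h h'
    exact (le_sup_left : cyc σ ≤ cyc σ ⊔ cyc (flip I)) ((hσ d d').mpr (h.trans h'.symm))
  | cons hadj p ih =>
    intro d d' h h'
    have h1 : (cyc σ ⊔ cyc (flip I)) d ⟨(_, _), hadj⟩ :=
      (le_sup_left : cyc σ ≤ cyc σ ⊔ cyc (flip I)) ((hσ _ _).mpr h)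
    have h2 : (cyc σ ⊔ cyc (flip I)) ⟨(_, _), hadj⟩ (flip I ⟨(_, _), hadj⟩) :=
      (le_sup_right : cyc (flip I) ≤ cyc σ ⊔ cyc (flip I)) (rel_apply _ _)
    exact (cyc σ ⊔ cyc (flip I)).trans' h1 ((cyc σ ⊔ cyc (flip I)).trans' h2 (ih _ _ rfl h'))

lemma comp_count [Finite W] {σ : Perm I.Dart} (hσ : IsRotation I σ) :
    nc (cyc σ ⊔ cyc (flip I)) + Nat.card {v : W // ∀ w, ¬ I.Adj v w} ≤
      Nat.card I.ConnectedComponent := by
  classical
  have : Finite I.Dart := by
    cases nonempty_fintype W
    infer_instance
  set J := cyc σ ⊔ cyc (flip I) with hJ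
  let R : Setoid I.Dart := Setoid.comap (fun d : I.Dart => d.fst) I.reachableSetoid
  have hR : J ≤ R := by
    apply sup_le
    · intro d d' h
      have : d.fst = d'.fst := (hσ d d').mp h
      change I.Reachable d.fst d'.fst
      rw [this]
    · apply cyc_le
      intro d
      change I.Reachable d.fst (flip I d).fst
      exact d.adj.reachable
  let f : Quotient J ⊕ {v : W // ∀ w, ¬ I.Adj v w} → I.ConnectedComponent :=
    Sum.elim (Quotient.lift (fun d : I.Dart => I.connectedComponentMk d.fst)
      (fun d d' h => ConnectedComponent.sound (hR h))) (fun v => I.connectedComponentMk v.1)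
  have hiso : ∀ v w : W, (∀ u, ¬ I.Adj v u) → I.Reachable v w → v = w := by
    intro v w hv h
    obtain ⟨p⟩ := h
    cases p with
    | nil => rfl
    | cons h p => exact absurd h (hv _)
  have hf : Function.Injective f := by
    rintro (q | v) (q' | v') h
    · induction q using Quotient.inductionOn with
      | _ d =>
      induction q' using Quotient.inductionOn with
      | _ d' =>
      have h1 : I.Reachable d.fst d'.fst := ConnectedComponent.exact h
      obtain ⟨p⟩ := h1
      congr 1
      exact Quotient.sound (rel_of_walk hσ p d d' rfl rfl)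
    · induction q using Quotient.inductionOn with
      | _ d =>
      have h1 : I.Reachable d.fst v'.1 := ConnectedComponent.exact h
      have h2 := hiso v'.1 d.fst v'.2 h1.symm
      exact absurd d.adj (by rw [← h2]; exact v'.2 _)
    · induction q' using Quotient.inductionOn with
      | _ d =>
      have h1 : I.Reachable v.1 d.fst := ConnectedComponent.exact h
      have h2 := hiso v.1 d.fst v.2 h1
      exact absurd d.adj (by rw [← h2]; exact v.2 _)
    · have h1 : I.Reachable v.1 v'.1 := ConnectedComponent.exact h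
      congr 1
      exact Subtype.ext (hiso _ _ v.2 h1)
  have h1 := Nat.card_le_card_of_injective f hf
  rw [Nat.card_sum] at h1
  exact h1

lemma vertex_count [Finite W] {σ : Perm I.Dart} (hσ : IsRotation I σ) :
    Nat.card W ≤ z σ + Nat.card {v : W // ∀ w, ¬ I.Adj v w} := by
  classical
  have : Finite I.Dart := by
    cases nonempty_fintype W
    infer_instance
  let f : Quotient (cyc σ) ⊕ {v : W // ∀ w, ¬ I.Adj v w} → W :=
    Sum.elim (Quotient.lift (fun d : I.Dart => d.fst) (fun d d' h => (hσ d d').mp h))
      (fun v => v.1)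
  have hf : Function.Surjective f := by
    intro v
    by_cases hv : ∀ w, ¬ I.Adj v w
    · exact ⟨Sum.inr ⟨v, hv⟩, rfl⟩
    · push Not at hv
      obtain ⟨w, hw⟩ := hv
      exact ⟨Sum.inl (Quotient.mk _ ⟨(v, w), hw⟩), rfl⟩
  have h1 := Nat.card_le_card_of_surjective f hf
  rw [Nat.card_sum] at h1
  exact h1

lemma edge_count [Finite W] : Nat.card I.edgeSet ≤ z (flip I) := by
  classical
  have : Finite I.Dart := by
    cases nonempty_fintype W
    infer_instance
  have hle : cyc (flip I) ≤ Setoid.ker (fun d : I.Dart => d.edge) := by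
    apply cyc_le
    intro d
    exact (Dart.edge_symm d).symm
  let f : Quotient (cyc (flip I)) → I.edgeSet :=
    Quotient.lift (fun d : I.Dart => (⟨d.edge, d.edge_mem⟩ : I.edgeSet))
      (fun d d' h => Subtype.ext (hle h))
  have hf : Function.Surjective f := by
    rintro ⟨e, he⟩
    induction e using Sym2.ind with
    | _ v w => exact ⟨Quotient.mk _ ⟨(v, w), he⟩, rfl⟩
  exact Nat.card_le_card_of_surjective f hf

lemma genus_ineq [Finite W] {g : ℕ} {σ : Perm I.Dart} (hσ : IsRotation I σ)
    (h : 2 * (Nat.card I.ConnectedComponent : ℤ) - 2 * g ≤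
      (Nat.card W : ℤ) - Nat.card I.edgeSet + numFaces I σ) :
    (Nat.card I.Dart : ℤ) + Psi σ (flip I) ≤ 2 * g := by
  classical
  cases nonempty_fintype W
  have h1 := comp_count hσ
  have h2 := vertex_count hσ
  have h3 := edge_count (I := I)
  have h4 : Nat.card I.Dart = 2 * Nat.card I.edgeSet := by
    rw [Nat.card_eq_fintype_card, Nat.card_eq_fintype_card, dart_card_eq_twice_card_edges,
      ← edgeFinset_card]
  unfold numFaces at h
  rw [numCycles_eq] at h
  unfold Psi
  push_cast at h
  omega

lemma csz_eq_one {D : Type*} [Fintype D] {s : Setoid D} {x : D} (h : ∀ y, s x y → y = x) :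
    csz s x = 1 := by
  classical
  unfold csz
  rw [Finset.card_eq_one]
  refine ⟨x, ?_⟩
  ext y
  simp only [Finset.mem_filter, Finset.mem_univ, true_and, Finset.mem_singleton]
  exact ⟨fun hy => h y hy, fun hy => by rw [hy]⟩

lemma eq_of_fixed {D : Type*} {π : Perm D} {x y : D} (hx : π x = x) (h : SameCycle π x y) :
    y = x := by
  obtain ⟨k, hk⟩ := h
  rw [← hk]; exact Perm.zpow_apply_eq_self_of_apply_eq_self hx k

/-- Euler's inequality for the darts surviving a deletion. -/
lemma euler_ineq {D : Type*} [Fintype D] [DecidableEq D] {σ α : Perm D} {S : Finset D} {g : ℕ}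
    (hS1 : ∀ x ∈ S, σ x = x) (hS2 : ∀ x ∈ S, α x = x) (hne : Sᶜ.Nonempty)
    (hα : ∀ x, x ∉ S → α x ≠ x) (hαα : ∀ x, α (α x) = x)
    (h : (Nat.card D : ℤ) + Psi σ α ≤ 2 * g) :
    ∑ x ∈ Sᶜ, ((1 : ℚ) / 2 - 1 / (csz (cyc σ) x : ℚ) - 1 / (csz (cyc (σ * α)) x : ℚ))
      ≤ 2 * g - 2 := by
  classical
  -- sums over fixed points
  have hsum : ∀ s : Setoid D, (∀ x ∈ S, ∀ y, s x y → y = x) →
      (nc s : ℚ) = S.card + ∑ x ∈ Sᶜ, 1 / (csz s x : ℚ) := by
    intro s hs
    rw [nc_eq_sum, ← Finset.sum_add_sum_compl S]
    congr 1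
    rw [Finset.sum_congr rfl (fun x hx => by rw [csz_eq_one (hs x hx)])]
    simp
  have e1 := hsum (cyc σ) (fun x hx y hy => eq_of_fixed (hS1 x hx) hy)
  have e2 := hsum (cyc α) (fun x hx y hy => eq_of_fixed (hS2 x hx) hy)
  have e3 := hsum (cyc (σ * α)) (fun x hx y hy =>
    eq_of_fixed (by rw [Perm.mul_apply, hS2 x hx, hS1 x hx]) hy)
  -- the classes of the involution
  have e4 : ∑ x ∈ Sᶜ, 1 / (csz (cyc α) x : ℚ) = ∑ x ∈ Sᶜ, (1 : ℚ) / 2 := by
    apply Finset.sum_congr rfl
    intro x hx
    rw [Finset.mem_compl] at hx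
    have : csz (cyc α) x = 2 := by
      unfold csz
      rw [Finset.card_eq_two]
      refine ⟨x, α x, (hα x hx).symm, ?_⟩
      ext y
      simp only [Finset.mem_filter, Finset.mem_univ, true_and, Finset.mem_insert,
        Finset.mem_singleton]
      constructor
      · intro hy
        have hT : cyc α ≤ ({ r := fun a b => b = a ∨ b = α a
                             iseqv := ⟨fun a => Or.inl rfl, fun {a b} h => by
                              rcases h with h | h
                              · exact Or.inl h.symm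
                              · exact Or.inr (by rw [h, hαα]), fun {a b c} h h' => by
                              rcases h with h | h <;> rcases h' with h' | h'
                              · exact Or.inl (h'.trans h)
                              · exact Or.inr (by rw [h', h])
                              · exact Or.inr (by rw [h', h])
                              · exact Or.inl (by rw [h', h, hαα])⟩ } : Setoid D) :=
          cyc_le (fun a => Or.inr rfl)
        exact hT hy
      · rintro (hy | hy)
        · rw [hy]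
        · rw [hy]; exact rel_apply α x
    rw [this]; norm_num
  -- lower bound for the number of components
  have e5 : S.card + 1 ≤ nc (cyc σ ⊔ cyc α) := by
    let T : Setoid D :=
      { r := fun a b => a = b ∨ (a ∉ S ∧ b ∉ S)
        iseqv := ⟨fun a => Or.inl rfl, fun {a b} h => by
          rcases h with h | h
          · exact Or.inl h.symm
          · exact Or.inr ⟨h.2, h.1⟩, fun {a b c} h h' => by
          rcases h with h | h <;> rcases h' with h' | h'
          · exact Or.inl (h.trans h')
          · exact Or.inr (by rw [h]; exact h')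
          · exact Or.inr (by rw [← h']; exact h)
          · exact Or.inr ⟨h.1, h'.2⟩⟩ }
    have hle : ∀ π : Perm D, (∀ x ∈ S, π x = x) → cyc π ≤ T := by
      intro π hπ
      apply cyc_le
      intro x
      by_cases hx : x ∈ S
      · exact Or.inl (hπ x hx).symm
      · refine Or.inr ⟨hx, fun h => hx ?_⟩
        have := hπ _ h
        have := π.injective this
        rw [this] at h; exact h
    have h1 : nc T ≤ nc (cyc σ ⊔ cyc α) := nc_le_of_le (sup_le (hle σ hS1) (hle α hS2))
    have h2 : (nc T : ℚ) = S.card + 1 := by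
      rw [hsum T (fun x hx y hy => by
        rcases hy with hy | hy
        · exact hy.symm
        · exact absurd hx hy.1)]
      congr 1
      have : ∀ x ∈ Sᶜ, 1 / (csz T x : ℚ) = 1 / (Sᶜ.card : ℚ) := by
        intro x hx
        rw [Finset.mem_compl] at hx
        congr 2
        unfold csz
        congr 1
        ext y
        simp only [Finset.mem_filter, Finset.mem_univ, true_and, Finset.mem_compl]
        constructor
        · rintro (hy | hy)
          · rw [← hy]; exact hx
          · exact hy.2
        · intro hy; exact Or.inr ⟨hx, hy⟩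
      rw [Finset.sum_congr rfl this, Finset.sum_const, nsmul_eq_mul]
      have : (Sᶜ.card : ℚ) ≠ 0 := by
        have := Finset.card_pos.mpr hne
        exact_mod_cast this.ne'
      field_simp
    have h3 : nc T = S.card + 1 := by exact_mod_cast h2
    omega
  have e6 : (Nat.card D : ℚ) = S.card + Sᶜ.card := by
    rw [Nat.card_eq_fintype_card, ← Finset.card_add_card_compl S]; push_cast; ring
  unfold Psi at h
  have h' : (Nat.card D : ℚ) + (2 * (nc (cyc σ ⊔ cyc α) : ℚ) - z σ - z α - z (σ * α)) ≤ 2 * g := by
    exact_mod_cast h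
  have e5' : (S.card : ℚ) + 1 ≤ nc (cyc σ ⊔ cyc α) := by exact_mod_cast e5
  have e7 : (z σ : ℚ) = S.card + ∑ x ∈ Sᶜ, 1 / (csz (cyc σ) x : ℚ) := e1
  have e8 : (z α : ℚ) = S.card + ∑ x ∈ Sᶜ, 1 / (csz (cyc α) x : ℚ) := e2
  have e9 : (z (σ * α) : ℚ) = S.card + ∑ x ∈ Sᶜ, 1 / (csz (cyc (σ * α)) x : ℚ) := e3
  rw [e4] at e8
  rw [Finset.sum_sub_distrib, Finset.sum_sub_distrib]
  simp only [Finset.sum_const, nsmul_eq_mul] at e8 ⊢
  linarith


/-- every finite graph has a rotation system -/
lemma exists_rotation [Finite W] (I : SimpleGraph W) : ∃ σ : Perm I.Dart, IsRotation I σ := by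
  classical
  cases nonempty_fintype W
  have hex : ∀ v : W, ∃ f : Perm I.Dart, f.IsCycleOn
      ((Finset.univ.filter (fun d : I.Dart => d.fst = v) : Finset I.Dart) : Set I.Dart) :=
    fun v => by
      obtain ⟨f, hf, _⟩ := Finset.exists_cycleOn (Finset.univ.filter (fun d : I.Dart => d.fst = v))
      exact ⟨f, hf⟩
  choose f hf using hex
  have hmaps : ∀ (v : W) (d : I.Dart), d.fst = v → (f v d).fst = v := by
    intro v d hd
    have := (hf v).1.mapsTo (show d ∈ _ by simpa using hd)
    simpa using this
  have hmaps' : ∀ (v : W) (d : I.Dart), d.fst = v → ((f v).symm d).fst = v := by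
    intro v d hd
    obtain ⟨e, he, hed⟩ := (hf v).1.surjOn (show d ∈ _ by simpa using hd)
    rw [← hed, Equiv.symm_apply_apply]
    simpa using he
  let σ : Perm I.Dart :=
    { toFun := fun d => f d.fst d
      invFun := fun d => (f d.fst).symm d
      left_inv := fun d => by
        have := hmaps d.fst d rfl
        simp only [this, Equiv.symm_apply_apply]
      right_inv := fun d => by
        have := hmaps' d.fst d rfl
        simp only [this, Equiv.apply_symm_apply] }
  refine ⟨σ, fun d d' => ⟨?_, ?_⟩⟩
  · have : cyc σ ≤ Setoid.ker (fun d : I.Dart => d.fst) := by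
      apply cyc_le
      intro d
      exact (hmaps d.fst d rfl).symm
    intro h; exact this h
  · intro h
    obtain ⟨n, hn⟩ := (hf d.fst).exists_pow_eq' (Finset.finite_toSet _)
      (show d ∈ _ by simp) (show d' ∈ _ by simp [h])
    have key : ∀ m : ℕ, (σ ^ m) d = ((f d.fst) ^ m) d ∧ (((f d.fst) ^ m) d).fst = d.fst := by
      intro m
      induction m with
      | zero => simp
      | succ m ih =>
        rw [pow_succ', Perm.mul_apply, pow_succ', Perm.mul_apply, ih.1]
        refine ⟨?_, hmaps _ _ ih.2⟩
        change f (((f d.fst) ^ m) d).fst _ = _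
        rw [ih.2]
    exact ⟨n, by rw [zpow_natCast, (key n).1]; exact hn⟩

lemma genusLE_nonempty [Finite W] (I : SimpleGraph W) : ∃ g, GenusLE I g := by
  obtain ⟨σ, hσ⟩ := exists_rotation I
  refine ⟨Nat.card I.ConnectedComponent + Nat.card I.edgeSet, σ, hσ, ?_⟩
  push_cast
  have : (0 : ℤ) ≤ Nat.card W := Nat.cast_nonneg _
  have : (0 : ℤ) ≤ Nat.card I.edgeSet := Nat.cast_nonneg _
  have : (0 : ℤ) ≤ numFaces I σ := Nat.cast_nonneg _
  omega

lemma genusLE_genus [Finite W] (I : SimpleGraph W) : GenusLE I (genus I) :=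
  Nat.sInf_mem (genusLE_nonempty I)

end Pool.Agent.Helper20.RG
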