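import Mathlib
import Pool.Agent.Helper20.RGDefs
import Pool.Agent.Helper20.RGPerm
import Pool.Agent.Helper20.RGColor
import Pool.Agent.Helper20.RGEuler

set_option autoImplicit false
set_option linter.unusedSimpArgs false
set_option linter.unusedSectionVars false

namespace Pool.Agent.Helper20.RG

open Equiv Equiv.Perm SimpleGraph Finset Pool.Agent.Helper20.ReducedGenus

section Hyper

variable {V : Type*} [Fintype V] [DecidableEq V] {G : SimpleGraph V} {k : ℕ} {H : Fin k → Finset V}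

lemma adj_of_mem (hA : IsAdjacencyGraph H G) {e : Fin k} {u v : V} (hu : u ∈ H e) (hv : v ∈ H e)
    (huv : u ≠ v) : G.Adj u v := by
  by_contra h
  have h1 := (hA u v huv).2 h
  rw [Nat.card_eq_zero] at h1
  rcases h1 with h1 | h1
  · exact h1.false ⟨e, hu, hv⟩
  · exact not_finite {e : Fin k // u ∈ H e ∧ v ∈ H e}

lemma exists_edge (hA : IsAdjacencyGraph H G) {u v : V} (h : G.Adj u v) :
    ∃ e, u ∈ H e ∧ v ∈ H e := by
  have h1 := (hA u v h.ne).1 h
  have h2 : Nonempty {e : Fin k // u ∈ H e ∧ v ∈ H e} := by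
    by_contra hne
    rw [not_nonempty_iff] at hne
    rw [Nat.card_of_isEmpty] at h1
    omega
  obtain ⟨⟨e, he⟩⟩ := h2
  exact ⟨e, he⟩

lemma edge_unique (hA : IsAdjacencyGraph H G) {e e' : Fin k} {u v : V} (huv : u ≠ v)
    (hu : u ∈ H e) (hv : v ∈ H e) (hu' : u ∈ H e') (hv' : v ∈ H e') : e = e' := by
  have h1 := (hA u v huv).1 (adj_of_mem hA hu hv huv)
  rw [Nat.card_eq_one_iff_unique] at h1
  have := h1.1.elim ⟨e, hu, hv⟩ ⟨e', hu', hv'⟩
  exact congrArg Subtype.val this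

/-- size of the trace of an edge -/
def sz (H : Fin k → Finset V) (A : Finset V) (e : Fin k) : ℕ := (H e ∩ A).card

/-- relevant edges at `x` -/
def EI (H : Fin k → Finset V) (A : Finset V) (x : V) : Finset (Fin k) :=
  univ.filter (fun e => x ∈ H e ∧ 2 ≤ sz H A e)

lemma mem_EI {A : Finset V} {x : V} {e : Fin k} : e ∈ EI H A x ↔ x ∈ H e ∧ 2 ≤ sz H A e := by
  simp [EI]

lemma sz_le (hA : IsAdjacencyGraph H G) (A : Finset V) (e : Fin k) : sz H A e ≤ G.cliqueNum := by
  have : G.IsClique (↑(H e ∩ A) : Set V) := by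
    intro u hu v hv huv
    rw [mem_coe, mem_inter] at hu hv
    exact adj_of_mem hA hu.1 hv.1 huv
  exact this.card_le_cliqueNum

lemma deg_formula (hA : IsAdjacencyGraph H G) {A : Finset V} {x : V} (hx : x ∈ A) :
    (nb G A x).card = ∑ e ∈ EI H A x, (sz H A e - 1) := by
  classical
  have h1 : nb G A x = (EI H A x).biUnion (fun e => (H e ∩ A).erase x) := by
    ext y
    rw [mem_nb, mem_biUnion]
    constructor
    · rintro ⟨hy, hxy⟩
      obtain ⟨e, he1, he2⟩ := exists_edge hA hxy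
      refine ⟨e, mem_EI.mpr ⟨he1, ?_⟩, mem_erase.mpr ⟨hxy.ne', mem_inter.mpr ⟨he2, hy⟩⟩⟩
      have : ({x, y} : Finset V) ⊆ H e ∩ A := by
        intro v hv
        rw [Finset.mem_insert, Finset.mem_singleton] at hv
        rcases hv with rfl | rfl
        · exact mem_inter.mpr ⟨he1, hx⟩
        · exact mem_inter.mpr ⟨he2, hy⟩
      have h2 := card_le_card this
      rwa [card_pair hxy.ne] at h2
    · rintro ⟨e, he, hy⟩
      rw [mem_erase, mem_inter] at hy
      exact ⟨hy.2.2, adj_of_mem hA (mem_EI.mp he).1 hy.2.1 hy.1.symm⟩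
  rw [h1, card_biUnion]
  · apply sum_congr rfl
    intro e he
    rw [card_erase_of_mem (mem_inter.mpr ⟨(mem_EI.mp he).1, hx⟩)]
    rfl
  · intro e he e' he' hne
    rw [Function.onFun, Finset.disjoint_left]
    intro y hy hy'
    rw [mem_erase, mem_inter] at hy hy'
    exact hne (edge_unique hA hy.1.symm (mem_EI.mp he).1 hy.2.1 (mem_EI.mp he').1 hy'.2.1)

end Hyper

/-- the contribution of an edge of size `s` -/
noncomputable def hf (s : ℕ) : ℚ := 4 - 6 / s

lemma hf_ge_one {s : ℕ} (hs : 2 ≤ s) : 1 ≤ hf s := by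
  unfold hf
  have : (2 : ℚ) ≤ s := by exact_mod_cast hs
  have h : 6 / (s : ℚ) ≤ 3 := by
    rw [div_le_iff₀ (by linarith)]; linarith
  linarith

lemma hf_ge {s m : ℕ} (hm : 0 < m) (hs : m ≤ s) : 4 - 6 / (m : ℚ) ≤ hf s := by
  unfold hf
  have h1 : (0 : ℚ) < m := by exact_mod_cast hm
  have h2 : (m : ℚ) ≤ s := by exact_mod_cast hs
  have : 6 / (s : ℚ) ≤ 6 / m := div_le_div_of_nonneg_left (by norm_num) h1 h2
  linarith

lemma numeric_low {ι : Type*} [DecidableEq ι] {E : Finset ι} {s : ι → ℕ} {w : ℕ}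
    (h2 : ∀ e ∈ E, 2 ≤ s e) (hw : 2 ≤ w) (hsum : ∑ e ∈ E, (s e - 1) = w + 1)
    (hbig : ∃ e ∈ E, s e = w) : -(6 / (w : ℚ)) ≤ ∑ e ∈ E, hf (s e) - 6 := by
  obtain ⟨e, he, hew⟩ := hbig
  have h3 : ∑ f ∈ E.erase e, (s f - 1) = 2 := by
    have := add_sum_erase E (fun f => s f - 1) he
    rw [hsum] at this
    simp only [hew] at this
    omega
  have h4 : ∀ f ∈ E.erase e, ((s f - 1 : ℕ) : ℚ) ≤ hf (s f) := by
    intro f hf'
    have h5 : s f - 1 ≤ 2 := by
      rw [← h3]
      exact single_le_sum (f := fun f => s f - 1) (fun _ _ => Nat.zero_le _) hf'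
    have h6 := h2 f (mem_of_mem_erase hf')
    have h7 : s f = 2 ∨ s f = 3 := by omega
    rcases h7 with h7 | h7 <;> rw [h7] <;> unfold hf <;> norm_num
  have h5 := sum_le_sum h4
  rw [← Nat.cast_sum, h3] at h5
  have h6 := add_sum_erase E (fun f => hf (s f)) he
  rw [← h6]
  simp only [hew]
  unfold hf at *
  push_cast at h5
  linarith

lemma rest_bound {ι : Type*} [DecidableEq ι] {E : Finset ι} {s : ι → ℕ}
    (h2 : ∀ e ∈ E, 2 ≤ s e) (hsum : 3 ≤ ∑ e ∈ E, (s e - 1)) : (5 : ℚ) / 2 ≤ ∑ e ∈ E, hf (s e) := by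
  by_cases h : ∃ e ∈ E, 4 ≤ s e
  · obtain ⟨e, he, h4⟩ := h
    have h5 : hf (s e) ≤ ∑ e ∈ E, hf (s e) :=
      single_le_sum (f := fun e => hf (s e)) (fun f hf' => by
        have := hf_ge_one (h2 f hf'); linarith) he
    have h6 := hf_ge (by norm_num : 0 < 4) h4
    norm_num at h6
    linarith
  · push Not at h
    have h4 : ∀ f ∈ E, ((s f - 1 : ℕ) : ℚ) ≤ hf (s f) := by
      intro f hf'
      have h6 := h2 f hf'
      have h8 := h f hf'
      have h7 : s f = 2 ∨ s f = 3 := by omega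
      rcases h7 with h7 | h7 <;> rw [h7] <;> unfold hf <;> norm_num
    have h5 := sum_le_sum h4
    rw [← Nat.cast_sum] at h5
    have : (3 : ℚ) ≤ ((∑ e ∈ E, (s e - 1) : ℕ) : ℚ) := by exact_mod_cast hsum
    linarith

lemma numeric_high {ι : Type*} [DecidableEq ι] {E : Finset ι} {s : ι → ℕ} {w : ℕ}
    (h2 : ∀ e ∈ E, 2 ≤ s e) (hsw : ∀ e ∈ E, s e ≤ w) (hw : 400 ≤ w)
    (hsum : w + 1 ≤ ∑ e ∈ E, (s e - 1))
    (hnot : ¬ (∑ e ∈ E, (s e - 1) = w + 1 ∧ ∃ e ∈ E, s e = w)) :
    (E.card : ℚ) / 48 ≤ ∑ e ∈ E, hf (s e) - 6 := by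
  by_cases hd : 7 ≤ E.card
  · have h3 : (E.card : ℚ) ≤ ∑ e ∈ E, hf (s e) := by
      have := sum_le_sum (fun e he => hf_ge_one (h2 e he))
      simpa using this
    have : (7 : ℚ) ≤ E.card := by exact_mod_cast hd
    linarith
  · push Not at hd
    have h3 : ∃ e ∈ E, 60 ≤ s e := by
      by_contra hcon
      push Not at hcon
      have h4 : ∑ e ∈ E, (s e - 1) ≤ ∑ _e ∈ E, 59 := sum_le_sum (fun e he => by
        have := hcon e he; omega)
      rw [sum_const, smul_eq_mul] at h4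
      have : E.card * 59 ≤ 6 * 59 := Nat.mul_le_mul_right _ (by omega)
      omega
    obtain ⟨e, he, he60⟩ := h3
    have h4 : 3 ≤ ∑ f ∈ E.erase e, (s f - 1) := by
      have h5 := add_sum_erase E (fun f => s f - 1) he
      have h6 := hsw e he
      by_cases hew : s e = w
      · have : ∑ e ∈ E, (s e - 1) ≠ w + 1 := fun h => hnot ⟨h, e, he, hew⟩
        omega
      · omega
    have h5 := rest_bound (fun f hf' => h2 f (mem_of_mem_erase hf')) h4
    have h6 := add_sum_erase E (fun f => hf (s f)) he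
    have h7 := hf_ge (by norm_num : 0 < 60) he60
    have h8 : (E.card : ℚ) ≤ 6 := by exact_mod_cast (by omega : E.card ≤ 6)
    rw [← h6]
    norm_num at h7
    linarith

/-- orbits of a permutation with no short periods -/
lemma six_le_csz {D : Type*} [Fintype D] {φ : Perm D} {d : D}
    (h : ∀ i, 1 ≤ i → i ≤ 5 → (φ ^ i) d ≠ d) :
    6 ≤ csz (cyc φ) d ∧ (csz (cyc φ) d = 6 → (φ ^ 6) d = d) := by
  classical
  have hinj : ∀ i j, i < j → j ≤ 5 → (φ ^ i) d ≠ (φ ^ j) d := by
    intro i j hij hj he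
    apply h (j - i) (by omega) (by omega)
    have : φ ^ j = φ ^ i * φ ^ (j - i) := by rw [← pow_add]; congr 1; omega
    rw [this, Perm.mul_apply] at he
    exact ((φ ^ i).injective he).symm
  have himg : ((range 6).image (fun i => (φ ^ i) d)).card = 6 := by
    rw [card_image_of_injOn, card_range]
    intro i hi j hj hij
    rw [mem_coe, mem_range] at hi hj
    rcases lt_trichotomy i j with hlt | heq | hgt
    · exact absurd hij (hinj i j hlt (by omega))
    · exact heq
    · exact absurd hij.symm (hinj j i hgt (by omega))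
  have hsub : (range 6).image (fun i => (φ ^ i) d) ⊆ univ.filter (fun y => (cyc φ) d y) := by
    intro y hy
    rw [mem_image] at hy
    obtain ⟨i, _, rfl⟩ := hy
    rw [mem_filter]
    exact ⟨mem_univ _, (i : ℤ), by rw [zpow_natCast]⟩
  constructor
  · have := card_le_card hsub
    rw [himg] at this
    exact this
  · intro hc
    have heq := eq_of_subset_of_card_le hsub (by rw [himg]; exact hc.le)
    have h6 : (φ ^ 6) d ∈ univ.filter (fun y => (cyc φ) d y) := by
      rw [mem_filter]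
      exact ⟨mem_univ _, (6 : ℕ), by rw [zpow_natCast]⟩
    rw [← heq, mem_image] at h6
    obtain ⟨i, hi, hi6⟩ := h6
    rw [mem_range] at hi
    rcases Nat.eq_zero_or_pos i with h0 | h0
    · rw [h0] at hi6; simpa using hi6.symm
    · exfalso
      apply h (6 - i) (by omega) (by omega)
      have : φ ^ 6 = φ ^ i * φ ^ (6 - i) := by rw [← pow_add]; congr 1; omega
      rw [this, Perm.mul_apply] at hi6
      exact ((φ ^ i).injective hi6).symm


section Faces

variable {V : Type*} [Fintype V] [DecidableEq V] {G : SimpleGraph V} {k : ℕ} {H : Fin k → Finset V}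

/-- real vertices of the incidence graph -/
def realV (H : Fin k → Finset V) (A : Finset V) : V ⊕ Fin k → Prop
  | Sum.inl x => x ∈ A
  | Sum.inr e => 2 ≤ sz H A e

/-- The data surviving the deletion: permutations `σ`, `α` of the darts of the incidence graph and
the set `S` of deleted darts. -/
structure Reduced (H : Fin k → Finset V) (A : Finset V) (g : ℕ)
    [Fintype (incidenceGraph H).Dart] [DecidableEq (incidenceGraph H).Dart]
    (S : Finset (incidenceGraph H).Dart) (σ α : Perm (incidenceGraph H).Dart) : Prop where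
  memS : ∀ d, d ∉ S ↔ (realV H A d.fst ∧ realV H A d.snd)
  fixσ : ∀ d ∈ S, σ d = d
  fixα : ∀ d ∈ S, α d = d
  alpha : ∀ d, d ∉ S → α d = d.symm
  cycle : ∀ d d', d ∉ S → d' ∉ S → (SameCycle σ d d' ↔ d.fst = d'.fst)
  psi : (Nat.card (incidenceGraph H).Dart : ℤ) + Psi σ α ≤ 2 * g

lemma exists_reduced {A : Finset V} {g : ℕ}
    [Fintype (incidenceGraph H).Dart] [DecidableEq (incidenceGraph H).Dart]
    (hg : GenusLE (incidenceGraph H) g) : ∃ S σ α, Reduced H A g S σ α := by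
  classical
  obtain ⟨σ, hσ, hle⟩ := hg
  have h1 := genus_ineq hσ hle
  set S : Finset (incidenceGraph H).Dart :=
    univ.filter (fun d => ¬ (realV H A d.fst ∧ realV H A d.snd)) with hS
  have hmem : ∀ d, d ∉ S ↔ (realV H A d.fst ∧ realV H A d.snd) := by
    intro d; rw [hS, mem_filter]; simp
  have hclosed : ∀ d ∈ S, flip (incidenceGraph H) d ∈ S := by
    intro d hd
    by_contra h
    rw [hmem] at h
    exact absurd hd ((hmem d).mpr ⟨h.2, h.1⟩)
  obtain ⟨σ', α', a1, a2, a3, a4, a5⟩ := restrict (fun d : (incidenceGraph H).Dart => d.fst) σ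
    (flip (incidenceGraph H)) hσ flip_flip flip_ne _ S rfl hclosed
  exact ⟨S, σ', α', ⟨hmem, a1, a2, fun d hd => a3 d hd, fun d d' hd hd' => a4 d d' hd hd',
    by linarith⟩⟩

lemma dart_cases (d : (incidenceGraph H).Dart) :
    (∃ x e, x ∈ H e ∧ d.fst = Sum.inl x ∧ d.snd = Sum.inr e) ∨
    (∃ x e, x ∈ H e ∧ d.fst = Sum.inr e ∧ d.snd = Sum.inl x) := by
  obtain ⟨⟨a, b⟩, h⟩ := d
  rcases a with x | e <;> rcases b with y | f
  · exact h.elim
  · exact Or.inl ⟨x, f, h, rfl, rfl⟩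
  · exact Or.inr ⟨y, e, h, rfl, rfl⟩
  · exact h.elim

lemma dart_ext {d d' : (incidenceGraph H).Dart} (h1 : d.fst = d'.fst) (h2 : d.snd = d'.snd) :
    d = d' := by
  apply SimpleGraph.Dart.ext
  exact Prod.ext h1 h2

variable {A : Finset V} {g : ℕ}
    [Fintype (incidenceGraph H).Dart] [DecidableEq (incidenceGraph H).Dart]
    {S : Finset (incidenceGraph H).Dart} {σ α : Perm (incidenceGraph H).Dart}

lemma Reduced.symm_notMem (R : Reduced H A g S σ α) {d : (incidenceGraph H).Dart} (hd : d ∉ S) :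
    d.symm ∉ S := by
  rw [R.memS] at hd ⊢
  exact ⟨hd.2, hd.1⟩

lemma Reduced.alpha_notMem (R : Reduced H A g S σ α) {d : (incidenceGraph H).Dart} (hd : d ∉ S) :
    α d ∉ S := by
  rw [R.alpha d hd]; exact R.symm_notMem hd

lemma Reduced.sigma_notMem (R : Reduced H A g S σ α) {d : (incidenceGraph H).Dart} (hd : d ∉ S) :
    σ d ∉ S := by
  intro h
  have := σ.injective (R.fixσ _ h)
  rw [this] at h
  exact hd h

lemma Reduced.sigma_fst (R : Reduced H A g S σ α) {d : (incidenceGraph H).Dart} (hd : d ∉ S) :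
    (σ d).fst = d.fst :=
  ((R.cycle d (σ d) hd (R.sigma_notMem hd)).mp (rel_apply σ d)).symm

lemma Reduced.phi_notMem (R : Reduced H A g S σ α) {d : (incidenceGraph H).Dart} (hd : d ∉ S) :
    (σ * α) d ∉ S := R.sigma_notMem (R.alpha_notMem hd)

lemma Reduced.phi_fst (R : Reduced H A g S σ α) {d : (incidenceGraph H).Dart} (hd : d ∉ S) :
    ((σ * α) d).fst = d.snd := by
  rw [Perm.mul_apply, R.sigma_fst (R.alpha_notMem hd), R.alpha d hd]
  rfl

lemma Reduced.other (R : Reduced H A g S σ α) (hdeg : ∀ x ∈ A, 2 ≤ (EI H A x).card)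
    {d : (incidenceGraph H).Dart} (hd : d ∉ S) : ∃ d' ∉ S, d'.fst = d.fst ∧ d' ≠ d := by
  have hd' := (R.memS d).mp hd
  rcases dart_cases d with ⟨x, e, hxe, h1, h2⟩ | ⟨x, e, hxe, h1, h2⟩
  · rw [h1, h2] at hd'
    obtain ⟨e', he', hne⟩ := exists_mem_ne (s := EI H A x) (by
      have := hdeg x hd'.1; omega) e
    rw [mem_EI] at he'
    have hadj : (incidenceGraph H).Adj (Sum.inl x) (Sum.inr e') := he'.1
    refine ⟨⟨(_, _), hadj⟩, ?_, h1.symm, ?_⟩
    · rw [R.memS]; exact ⟨hd'.1, he'.2⟩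
    · intro h
      rw [← h] at h2
      exact hne (Sum.inr.inj h2)
  · rw [h1, h2] at hd'
    have h3 : 1 < (H e ∩ A).card := by
      have : 2 ≤ sz H A e := hd'.1
      unfold sz at this; omega
    obtain ⟨x', hx', hne⟩ := exists_mem_ne h3 x
    rw [mem_inter] at hx'
    have hadj : (incidenceGraph H).Adj (Sum.inr e) (Sum.inl x') := hx'.1
    refine ⟨⟨(_, _), hadj⟩, ?_, h1.symm, ?_⟩
    · rw [R.memS]; exact ⟨hd'.1, hx'.2⟩
    · intro h
      rw [← h] at h2
      exact hne (Sum.inl.inj h2)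

lemma Reduced.sigma_ne (R : Reduced H A g S σ α) (hdeg : ∀ x ∈ A, 2 ≤ (EI H A x).card)
    {d : (incidenceGraph H).Dart} (hd : d ∉ S) : σ d ≠ d := by
  intro h
  obtain ⟨d', hd', h1, h2⟩ := R.other hdeg hd
  exact h2 (eq_of_fixed h ((R.cycle d d' hd hd').mpr h1.symm))

lemma Reduced.phi_snd (R : Reduced H A g S σ α) (hdeg : ∀ x ∈ A, 2 ≤ (EI H A x).card)
    {d : (incidenceGraph H).Dart} (hd : d ∉ S) : ((σ * α) d).snd ≠ d.fst := by
  intro h
  apply R.sigma_ne hdeg (R.symm_notMem hd)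
  rw [← R.alpha d hd]
  apply dart_ext
  · exact R.sigma_fst (R.alpha_notMem hd)
  · rw [← Perm.mul_apply, h, R.alpha d hd]; rfl

lemma Reduced.csz_inl (R : Reduced H A g S σ α) {d : (incidenceGraph H).Dart} (hd : d ∉ S)
    {x : V} (hx : d.fst = Sum.inl x) : csz (cyc σ) d = (EI H A x).card := by
  classical
  unfold csz
  have hd' := (R.memS d).mp hd
  have h1 : (univ.filter (fun y => (cyc σ) d y)).image (fun y => y.snd) = (EI H A x).image Sum.inr := by
    ext b
    simp only [mem_image, mem_filter, mem_univ, true_and]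
    constructor
    · rintro ⟨y, hy, rfl⟩
      have hyS : y ∉ S := fun h => hd (by
        have := eq_of_fixed (R.fixσ y h) (SameCycle.symm hy)
        rwa [this])
      have hfst := (R.cycle d y hd hyS).mp hy
      rcases dart_cases y with ⟨x', e, hxe, h1, h2⟩ | ⟨x', e, hxe, h1, h2⟩
      · rw [hx, h1] at hfst
        have := Sum.inl.inj hfst
        subst this
        refine ⟨e, mem_EI.mpr ⟨hxe, ?_⟩, h2.symm⟩
        have := ((R.memS y).mp hyS).2
        rw [h2] at this
        exact this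
      · rw [hx, h1] at hfst
        exact absurd hfst (by simp)
    · rintro ⟨e, he, rfl⟩
      rw [mem_EI] at he
      have hadj : (incidenceGraph H).Adj (Sum.inl x) (Sum.inr e) := he.1
      have hS : (⟨(Sum.inl x, Sum.inr e), hadj⟩ : (incidenceGraph H).Dart) ∉ S := by
        rw [R.memS]
        refine ⟨?_, he.2⟩
        have := hd'.1
        rw [hx] at this
        exact this
      exact ⟨⟨(Sum.inl x, Sum.inr e), hadj⟩, (R.cycle d _ hd hS).mpr hx, rfl⟩
  rw [← card_image_of_injective (EI H A x) (Sum.inr_injective (α := V)), ← h1, card_image_of_injOn]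
  intro y hy y' hy' h
  rw [mem_coe, mem_filter] at hy hy'
  have hyS : y ∉ S := fun h => hd (by
    have := eq_of_fixed (R.fixσ y h) (SameCycle.symm hy.2)
    rwa [this])
  have hyS' : y' ∉ S := fun h => hd (by
    have := eq_of_fixed (R.fixσ y' h) (SameCycle.symm hy'.2)
    rwa [this])
  exact dart_ext (((R.cycle d y hd hyS).mp hy.2).symm.trans ((R.cycle d y' hd hyS').mp hy'.2)) h

lemma Reduced.csz_inr (R : Reduced H A g S σ α) {d : (incidenceGraph H).Dart} (hd : d ∉ S)
    {e : Fin k} (he : d.fst = Sum.inr e) : csz (cyc σ) d = sz H A e := by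
  classical
  unfold csz
  have hd' := (R.memS d).mp hd
  have h1 : (univ.filter (fun y => (cyc σ) d y)).image (fun y => y.snd) = (H e ∩ A).image Sum.inl := by
    ext b
    simp only [mem_image, mem_filter, mem_univ, true_and]
    constructor
    · rintro ⟨y, hy, rfl⟩
      have hyS : y ∉ S := fun h => hd (by
        have := eq_of_fixed (R.fixσ y h) (SameCycle.symm hy)
        rwa [this])
      have hfst := (R.cycle d y hd hyS).mp hy
      rcases dart_cases y with ⟨x', e', hxe, h1, h2⟩ | ⟨x', e', hxe, h1, h2⟩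
      · rw [he, h1] at hfst
        exact absurd hfst (by simp)
      · rw [he, h1] at hfst
        have := Sum.inr.inj hfst
        subst this
        refine ⟨x', mem_inter.mpr ⟨hxe, ?_⟩, h2.symm⟩
        have := ((R.memS y).mp hyS).2
        rw [h2] at this
        exact this
    · rintro ⟨x, hx, rfl⟩
      rw [mem_inter] at hx
      have hadj : (incidenceGraph H).Adj (Sum.inr e) (Sum.inl x) := hx.1
      have hS : (⟨(Sum.inr e, Sum.inl x), hadj⟩ : (incidenceGraph H).Dart) ∉ S := by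
        rw [R.memS]
        refine ⟨?_, hx.2⟩
        have := hd'.1
        rw [he] at this
        exact this
      exact ⟨⟨(Sum.inr e, Sum.inl x), hadj⟩, (R.cycle d _ hd hS).mpr he, rfl⟩
  unfold sz
  rw [← card_image_of_injective (H e ∩ A) (Sum.inl_injective (β := Fin k)), ← h1, card_image_of_injOn]
  intro y hy y' hy' h
  rw [mem_coe, mem_filter] at hy hy'
  have hyS : y ∉ S := fun h => hd (by
    have := eq_of_fixed (R.fixσ y h) (SameCycle.symm hy.2)
    rwa [this])
  have hyS' : y' ∉ S := fun h => hd (by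
    have := eq_of_fixed (R.fixσ y' h) (SameCycle.symm hy'.2)
    rwa [this])
  exact dart_ext (((R.cycle d y hd hyS).mp hy.2).symm.trans ((R.cycle d y' hd hyS').mp hy'.2)) h

/-- sums over real darts -/
lemma Reduced.sum_darts (R : Reduced H A g S σ α) (F : V ⊕ Fin k → ℚ) :
    ∑ d ∈ Sᶜ, F d.fst = ∑ x ∈ A, ∑ e ∈ EI H A x, (F (Sum.inl x) + F (Sum.inr e)) := by
  classical
  have h1 : ∑ p ∈ A.sigma (EI H A), F (Sum.inl p.1)
      = ∑ d ∈ Sᶜ.filter (fun d => ∃ x, d.fst = Sum.inl x), F d.fst := by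
    refine sum_bij (fun p hp => ⟨(Sum.inl p.1, Sum.inr p.2), (mem_EI.mp (mem_sigma.mp hp).2).1⟩)
      ?_ ?_ ?_ ?_
    · rintro ⟨x, e⟩ hp
      rw [mem_sigma] at hp
      rw [mem_filter, mem_compl, R.memS]
      exact ⟨⟨hp.1, (mem_EI.mp hp.2).2⟩, x, rfl⟩
    · rintro ⟨x, e⟩ hp ⟨x', e'⟩ hp' h
      have h2 := congrArg (fun d : (incidenceGraph H).Dart => d.fst) h
      have h3 := congrArg (fun d : (incidenceGraph H).Dart => d.snd) h
      have h4 : x = x' := Sum.inl.inj h2
      have h5 : e = e' := Sum.inr.inj h3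
      rw [h4, h5]
    · intro d hd
      rw [mem_filter, mem_compl, R.memS] at hd
      obtain ⟨⟨hd1, hd2⟩, x, hx⟩ := hd
      rcases dart_cases d with ⟨x', e, hxe, h1, h2⟩ | ⟨x', e, hxe, h1, h2⟩
      · rw [h1] at hd1
        rw [h2] at hd2
        refine ⟨⟨x', e⟩, mem_sigma.mpr ⟨hd1, mem_EI.mpr ⟨hxe, hd2⟩⟩, ?_⟩
        exact dart_ext h1.symm h2.symm
      · rw [h1] at hx; exact absurd hx (by simp)
    · intro p hp; rfl
  have h2 : ∑ p ∈ A.sigma (EI H A), F (Sum.inr p.2)
      = ∑ d ∈ Sᶜ.filter (fun d => ¬ ∃ x, d.fst = Sum.inl x), F d.fst := by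
    refine sum_bij (fun p hp => ⟨(Sum.inr p.2, Sum.inl p.1), (mem_EI.mp (mem_sigma.mp hp).2).1⟩)
      ?_ ?_ ?_ ?_
    · rintro ⟨x, e⟩ hp
      rw [mem_sigma] at hp
      rw [mem_filter, mem_compl, R.memS]
      refine ⟨⟨(mem_EI.mp hp.2).2, hp.1⟩, ?_⟩
      rintro ⟨x', hx'⟩
      exact absurd hx' (by simp)
    · rintro ⟨x, e⟩ hp ⟨x', e'⟩ hp' h
      have h2 := congrArg (fun d : (incidenceGraph H).Dart => d.fst) h
      have h3 := congrArg (fun d : (incidenceGraph H).Dart => d.snd) h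
      have h4 : e = e' := Sum.inr.inj h2
      have h5 : x = x' := Sum.inl.inj h3
      rw [h4, h5]
    · intro d hd
      rw [mem_filter, mem_compl, R.memS] at hd
      obtain ⟨⟨hd1, hd2⟩, hx⟩ := hd
      rcases dart_cases d with ⟨x', e, hxe, h1, h2⟩ | ⟨x', e, hxe, h1, h2⟩
      · exact absurd ⟨x', h1⟩ hx
      · rw [h1] at hd1
        rw [h2] at hd2
        refine ⟨⟨x', e⟩, mem_sigma.mpr ⟨hd2, mem_EI.mpr ⟨hxe, hd1⟩⟩, ?_⟩
        exact dart_ext h1.symm h2.symm
    · intro p hp; rfl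
  rw [← sum_filter_add_sum_filter_not Sᶜ (fun d => ∃ x, d.fst = Sum.inl x), ← h1, ← h2,
    ← sum_add_distrib, sum_sigma]

lemma Reduced.iter_notMem (R : Reduced H A g S σ α) {d : (incidenceGraph H).Dart} (hd : d ∉ S)
    (i : ℕ) : ((σ * α) ^ i) d ∉ S := by
  induction i with
  | zero => simpa using hd
  | succ i ih => rw [pow_succ', Perm.mul_apply]; exact R.phi_notMem ih

lemma Reduced.iter_fst (R : Reduced H A g S σ α) {d : (incidenceGraph H).Dart} (hd : d ∉ S)
    (i : ℕ) : (((σ * α) ^ (i + 1)) d).fst = (((σ * α) ^ i) d).snd := by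
  rw [pow_succ', Perm.mul_apply]; exact R.phi_fst (R.iter_notMem hd i)

lemma Reduced.iter_snd (R : Reduced H A g S σ α) (hdeg : ∀ x ∈ A, 2 ≤ (EI H A x).card)
    {d : (incidenceGraph H).Dart} (hd : d ∉ S)
    (i : ℕ) : (((σ * α) ^ (i + 1)) d).snd ≠ (((σ * α) ^ i) d).fst := by
  rw [pow_succ', Perm.mul_apply]; exact R.phi_snd hdeg (R.iter_notMem hd i)

/-- cases for a dart leaving a vertex of the hypergraph -/
lemma dart_inl {d : (incidenceGraph H).Dart} {x : V} (h : d.fst = Sum.inl x) :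
    ∃ e, d.snd = Sum.inr e ∧ x ∈ H e := by
  rcases dart_cases d with ⟨x', e, hxe, h1, h2⟩ | ⟨x', e, hxe, h1, h2⟩
  · rw [h] at h1
    have := Sum.inl.inj h1
    subst this
    exact ⟨e, h2, hxe⟩
  · rw [h] at h1; exact absurd h1 (by simp)

lemma dart_inr {d : (incidenceGraph H).Dart} {e : Fin k} (h : d.fst = Sum.inr e) :
    ∃ x, d.snd = Sum.inl x ∧ x ∈ H e := by
  rcases dart_cases d with ⟨x', e', hxe, h1, h2⟩ | ⟨x', e', hxe, h1, h2⟩
  · rw [h] at h1; exact absurd h1 (by simp)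
  · rw [h] at h1
    have := Sum.inr.inj h1
    subst this
    exact ⟨x', h2, hxe⟩

lemma Reduced.no_short (R : Reduced H A g S σ α) (hAdj : IsAdjacencyGraph H G)
    (hdeg : ∀ x ∈ A, 2 ≤ (EI H A x).card)
    {d : (incidenceGraph H).Dart} (hd : d ∉ S) (i : ℕ) (h1 : 1 ≤ i) (h5 : i ≤ 5) :
    ((σ * α) ^ i) d ≠ d := by
  set φ := σ * α with hφ
  have f0 : (φ d).fst = d.snd := R.phi_fst hd
  have f1 : ((φ ^ 2) d).fst = (φ d).snd := R.iter_fst hd 1
  have f2 : ((φ ^ 3) d).fst = ((φ ^ 2) d).snd := R.iter_fst hd 2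
  have f3 : ((φ ^ 4) d).fst = ((φ ^ 3) d).snd := R.iter_fst hd 3
  have f4 : ((φ ^ 5) d).fst = ((φ ^ 4) d).snd := R.iter_fst hd 4
  have s0 : (φ d).snd ≠ d.fst := R.phi_snd hdeg hd
  have s1 : ((φ ^ 2) d).snd ≠ (φ d).fst := R.iter_snd hdeg hd 1
  rcases hcase : d.fst with x | e
  · obtain ⟨e, he, hxe⟩ := dart_inl hcase
    rw [he] at f0
    obtain ⟨x', hx', hxe'⟩ := dart_inr f0
    rw [hx'] at f1
    obtain ⟨e', he', hx'e'⟩ := dart_inl f1
    rw [he'] at f2
    obtain ⟨x'', hx'', hx''e'⟩ := dart_inr f2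
    rw [hx''] at f3
    obtain ⟨e'', he'', hx''e''⟩ := dart_inl f3
    rw [he''] at f4
    have hne1 : x' ≠ x := by
      rw [hx', hcase] at s0; exact fun h => s0 (by rw [h])
    have hne2 : e' ≠ e := by
      rw [he', f0] at s1; exact fun h => s1 (by rw [h])
    interval_cases i
    · intro h
      rw [pow_one] at h
      rw [h, hcase] at f0; exact absurd f0 (by simp)
    · intro h
      rw [h, hcase] at f1
      exact hne1 (Sum.inl.inj f1).symm
    · intro h
      rw [h, hcase] at f2; exact absurd f2 (by simp)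
    · intro h
      rw [h, hcase] at f3
      have := Sum.inl.inj f3
      subst this
      exact hne2 (edge_unique hAdj hne1 hx'e' hx''e' hxe' hxe)
    · intro h
      rw [h, hcase] at f4; exact absurd f4 (by simp)
  · obtain ⟨x, hx, hxe⟩ := dart_inr hcase
    rw [hx] at f0
    obtain ⟨e', he', hxe'⟩ := dart_inl f0
    rw [he'] at f1
    obtain ⟨x', hx', hx'e'⟩ := dart_inr f1
    rw [hx'] at f2
    obtain ⟨e'', he'', hx'e''⟩ := dart_inl f2
    rw [he''] at f3
    obtain ⟨x'', hx'', hx''e''⟩ := dart_inr f3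
    rw [hx''] at f4
    have hne1 : e' ≠ e := by
      rw [he', hcase] at s0; exact fun h => s0 (by rw [h])
    have hne2 : x' ≠ x := by
      rw [hx', f0] at s1; exact fun h => s1 (by rw [h])
    interval_cases i
    · intro h
      rw [pow_one] at h
      rw [h, hcase] at f0; exact absurd f0 (by simp)
    · intro h
      rw [h, hcase] at f1
      exact hne1 (Sum.inr.inj f1).symm
    · intro h
      rw [h, hcase] at f2; exact absurd f2 (by simp)
    · intro h
      rw [h, hcase] at f3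
      have := Sum.inr.inj f3
      subst this
      exact hne1 (edge_unique hAdj hne2 hx'e' hxe' hx'e'' hxe)
    · intro h
      rw [h, hcase] at f4; exact absurd f4 (by simp)

/-- the main inequality -/
lemma Reduced.charge (R : Reduced H A g S σ α)
    (hdeg : ∀ x ∈ A, 2 ≤ (EI H A x).card) (hne : A.Nonempty) :
    ∑ x ∈ A, (∑ e ∈ EI H A x, hf (sz H A e) - 6) +
      ∑ d ∈ Sᶜ, (1 - 6 / (csz (cyc (σ * α)) d : ℚ)) ≤ 12 * g - 12 := by
  classical
  have hSne : Sᶜ.Nonempty := by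
    obtain ⟨x, hx⟩ := hne
    have h2 := hdeg x hx
    obtain ⟨e, he⟩ := card_pos.mp (by omega : 0 < (EI H A x).card)
    rw [mem_EI] at he
    have hadj : (incidenceGraph H).Adj (Sum.inl x) (Sum.inr e) := he.1
    refine ⟨⟨(_, _), hadj⟩, ?_⟩
    rw [mem_compl, R.memS]
    exact ⟨hx, he.2⟩
  have hαα : ∀ d, α (α d) = d := by
    intro d
    by_cases hd : d ∈ S
    · rw [R.fixα d hd, R.fixα d hd]
    · rw [R.alpha _ (R.alpha_notMem hd), R.alpha d hd]; exact SimpleGraph.Dart.symm_symm d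
  have h1 := euler_ineq (g := g) R.fixσ R.fixα hSne
    (fun d hd => by rw [R.alpha d hd]; exact SimpleGraph.Dart.symm_ne d) hαα R.psi
  -- rewrite the sum of the vertex terms
  let F : V ⊕ Fin k → ℚ := fun v => match v with
    | Sum.inl x => 2 - 6 / ((EI H A x).card : ℚ)
    | Sum.inr e => 2 - 6 / (sz H A e : ℚ)
  have h2 : ∀ d ∈ Sᶜ, 6 * ((1 : ℚ) / 2 - 1 / (csz (cyc σ) d : ℚ) - 1 / (csz (cyc (σ * α)) d : ℚ))
      = F d.fst + (1 - 6 / (csz (cyc (σ * α)) d : ℚ)) := by
    intro d hd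
    rw [mem_compl] at hd
    rcases hcase : d.fst with x | e
    · rw [R.csz_inl hd hcase]; simp only [F]; ring
    · rw [R.csz_inr hd hcase]; simp only [F]; ring
  have h3 : 6 * ∑ d ∈ Sᶜ, ((1 : ℚ) / 2 - 1 / (csz (cyc σ) d : ℚ) - 1 / (csz (cyc (σ * α)) d : ℚ))
      = ∑ d ∈ Sᶜ, F d.fst + ∑ d ∈ Sᶜ, (1 - 6 / (csz (cyc (σ * α)) d : ℚ)) := by
    rw [mul_sum, sum_congr rfl h2, sum_add_distrib]
  rw [R.sum_darts F] at h3
  have h4 : ∑ x ∈ A, ∑ e ∈ EI H A x, (F (Sum.inl x) + F (Sum.inr e))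
      = ∑ x ∈ A, (∑ e ∈ EI H A x, hf (sz H A e) - 6) := by
    apply sum_congr rfl
    intro x hx
    have hc : ((EI H A x).card : ℚ) ≠ 0 := by
      have := hdeg x hx
      have : 0 < (EI H A x).card := by omega
      exact_mod_cast this.ne'
    have h5 : ∀ e ∈ EI H A x, F (Sum.inl x) + F (Sum.inr e)
        = hf (sz H A e) - 6 / ((EI H A x).card : ℚ) := by
      intro e _
      simp only [F, hf]; ring
    rw [sum_congr rfl h5, sum_sub_distrib, sum_const, nsmul_eq_mul]
    field_simp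
  rw [h4] at h3
  linarith

end Faces

end Pool.Agent.Helper20.RG
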