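import Mathlib
import Pool.Agent.Helper20.RGMain

set_option autoImplicit false
set_option linter.unusedSimpArgs false
set_option linter.unusedSectionVars false

namespace Pool.Agent.Helper20.RG

open Equiv Equiv.Perm SimpleGraph Finset Pool.Agent.Helper20.ReducedGenus

section Final

variable {V : Type*} [Fintype V] [DecidableEq V] {G : SimpleGraph V} {k : ℕ} {H : Fin k → Finset V}

open Classical in
/-- low vertices: degree exactly `ω + 1` and contained in an edge of size `ω` -/
noncomputable def Low (G : SimpleGraph V) (H : Fin k → Finset V) (A : Finset V) : Finset V :=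
  A.filter (fun x => (nb G A x).card = G.cliqueNum + 1 ∧ ∃ e ∈ EI H A x, sz H A e = G.cliqueNum)

lemma mem_Low {A : Finset V} {x : V} : x ∈ Low G H A ↔
    x ∈ A ∧ (nb G A x).card = G.cliqueNum + 1 ∧ ∃ e ∈ EI H A x, sz H A e = G.cliqueNum := by
  classical
  simp [Low]

lemma big_unique (hA : IsAdjacencyGraph H G) {A : Finset V} (hw : 4 ≤ G.cliqueNum) {x : V}
    (hx : x ∈ Low G H A) {e e' : Fin k} (he : x ∈ H e) (hs : sz H A e = G.cliqueNum)
    (he' : x ∈ H e') (hs' : sz H A e' = G.cliqueNum) : e = e' := by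
  classical
  by_contra hne
  rw [mem_Low] at hx
  have h1 := deg_formula hA hx.1
  rw [hx.2.1] at h1
  have hE : e ∈ EI H A x := mem_EI.mpr ⟨he, by omega⟩
  have hE' : e' ∈ EI H A x := mem_EI.mpr ⟨he', by omega⟩
  have h2 : ∑ f ∈ ({e, e'} : Finset (Fin k)), (sz H A f - 1) ≤ ∑ f ∈ EI H A x, (sz H A f - 1) := by
    apply sum_le_sum_of_subset
    intro f hf
    rw [Finset.mem_insert, Finset.mem_singleton] at hf
    rcases hf with rfl | rfl
    · exact hE
    · exact hE'
  rw [sum_pair hne, hs, hs'] at h2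
  omega

/-- The configuration found by discharging contradicts criticality. -/
lemma config_false {t : ℕ} (hA : IsAdjacencyGraph H G) {A : Finset V} (hw : 4 ≤ G.cliqueNum)
    (ht : G.cliqueNum + 1 ≤ 2 * t)
    (hW : ∀ c : V → Fin t, ¬ FC G (↑A) c)
    (hcrit : ∀ x ∈ A, ∃ c : V → Fin t, FC G (↑(A.erase x)) c)
    {e a b : Fin k} {v1 v2 u w : V} (hse : sz H A e = G.cliqueNum)
    (h1e : v1 ∈ H e) (h2e : v2 ∈ H e) (hue : u ∈ H e) (h2b : v2 ∈ H b) (hwb : w ∈ H b)
    (hwa : w ∈ H a) (h1a : v1 ∈ H a) (hbe : b ≠ e) (hw2 : w ≠ v2) (h12 : v1 ≠ v2)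
    (hu1 : u ≠ v1) (hu2 : u ≠ v2)
    (L1 : v1 ∈ Low G H A) (L2 : v2 ∈ Low G H A) (Lu : u ∈ Low G H A) (Lw : w ∈ Low G H A) :
    False := by
  classical
  have hwe : w ∉ H e := fun h => hbe (edge_unique hA hw2 hwb h2b h h2e)
  have hae : a ≠ e := fun h => hwe (h ▸ hwa)
  have hw1 : w ≠ v1 := fun h => hwe (h ▸ h1e)
  have hwu : w ≠ u := fun h => hwe (h ▸ hue)
  have M1 := mem_Low.mp L1
  have M2 := mem_Low.mp L2
  have Mu := mem_Low.mp Lu
  have Mw := mem_Low.mp Lw
  obtain ⟨e', he', hse'⟩ := Mw.2.2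
  rw [mem_EI] at he'
  have hee' : e ≠ e' := fun h => hwe (h ▸ he'.1)
  have h2e' : v2 ∉ H e' := by
    intro h
    have h3 : e' = b := edge_unique hA hw2 he'.1 h hwb h2b
    exact hbe ((big_unique hA hw L2 h2e hse h2b (h3 ▸ hse')).symm)
  have h1e' : v1 ∉ H e' := by
    intro h
    have h3 : e' = a := edge_unique hA hw1 he'.1 h hwa h1a
    exact hae ((big_unique hA hw L1 h1e hse h1a (h3 ▸ hse')).symm)
  have hue' : u ∉ H e' := fun h => hee' (big_unique hA hw Lu hue hse h hse')
  have aw1 : G.Adj w v1 := adj_of_mem hA hwa h1a hw1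
  have aw2 : G.Adj w v2 := adj_of_mem hA hwb h2b hw2
  have a1u : G.Adj v1 u := adj_of_mem hA h1e hue hu1.symm
  have a2u : G.Adj v2 u := adj_of_mem hA h2e hue hu2.symm
  have a12 : G.Adj v1 v2 := adj_of_mem hA h1e h2e h12
  have hnot : ¬ G.Adj w u := by
    intro hadj
    have hsub : insert u (insert v1 (insert v2 ((H e' ∩ A).erase w))) ⊆ nb G A w := by
      intro y hy
      simp only [Finset.mem_insert, mem_erase, mem_inter] at hy
      rw [mem_nb]
      rcases hy with rfl | rfl | rfl | ⟨hy1, hy2, hy3⟩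
      · exact ⟨Mu.1, hadj⟩
      · exact ⟨M1.1, aw1⟩
      · exact ⟨M2.1, aw2⟩
      · exact ⟨hy3, adj_of_mem hA he'.1 hy2 hy1.symm⟩
    have hc := card_le_card hsub
    have c0 : ((H e' ∩ A).erase w).card = G.cliqueNum - 1 := by
      rw [card_erase_of_mem (mem_inter.mpr ⟨he'.1, Mw.1⟩)]
      unfold sz at hse'; rw [hse']
    have n2 : v2 ∉ (H e' ∩ A).erase w := by
      intro h; rw [mem_erase, mem_inter] at h; exact h2e' h.2.1
    have n1 : v1 ∉ insert v2 ((H e' ∩ A).erase w) := by
      intro h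
      rw [Finset.mem_insert, mem_erase, mem_inter] at h
      rcases h with h | h
      · exact h12 h
      · exact h1e' h.2.1
    have nu : u ∉ insert v1 (insert v2 ((H e' ∩ A).erase w)) := by
      intro h
      rw [Finset.mem_insert, Finset.mem_insert, mem_erase, mem_inter] at h
      rcases h with h | h | h
      · exact hu1 h
      · exact hu2 h
      · exact hue' h.2.1
    rw [card_insert_of_notMem nu, card_insert_of_notMem n1, card_insert_of_notMem n2, c0,
      Mw.2.1] at hc
    omega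
  have hd : ∀ x, x ∈ Low G H A → (nb G A x).card ≤ 2 * t := by
    intro x hx
    rw [(mem_Low.mp hx).2.1]; exact ht
  exact no_diamond hW hcrit M1.1 M2.1 Mu.1 Mw.1 (hd _ L1) (hd _ L2) (hd _ Lu) (hd _ Lw)
    a1u a2u aw1 aw2 a12 hnot hwu

lemma card_preimage_le {D : Type*} [Fintype D] [DecidableEq D] (π : Perm D) (T U : Finset D)
    (h : ∀ d ∈ T, π d ∈ U) : T.card ≤ U.card :=
  card_le_card_of_injOn π h (π.injective.injOn)

/-- The main theorem in finite form. -/
lemma core {g : ℕ} (hA : IsAdjacencyGraph H G) (hg : GenusLE (incidenceGraph H) g)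
    (hw : 2000 * g + 2000 ≤ G.cliqueNum) :
    ∃ c : V → Fin (1 + G.cliqueNum / 2), FC G Set.univ c := by
  classical
  set w := G.cliqueNum with hwdef
  set t := 1 + w / 2 with ht
  by_contra hcon
  push Not at hcon
  obtain ⟨A, -, hAmin⟩ := exists_minimal_le_of_wellFoundedLT
    (fun W : Finset V => ∀ c : V → Fin t, ¬ FC G (↑W) c) univ (by simpa using hcon)
  have hW : ∀ c : V → Fin t, ¬ FC G (↑A) c := hAmin.1
  have hcrit : ∀ x ∈ A, ∃ c : V → Fin t, FC G (↑(A.erase x)) c := by
    intro x hx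
    by_contra h
    push Not at h
    have := hAmin.2 h (erase_subset x A)
    exact notMem_erase x A (this hx)
  have hne : A.Nonempty := by
    rw [nonempty_iff_ne_empty]
    rintro rfl
    apply hW (fun _ => ⟨0, by omega⟩)
    intro i
    have : {v : V | v ∈ (↑(∅ : Finset V) : Set V) ∧ (fun _ => (⟨0, by omega⟩ : Fin t)) v = i} = ∅ := by
      ext v; simp
    rw [this]
    intro v
    exact v.2.elim
  have hdegA : ∀ x ∈ A, w + 1 ≤ (nb G A x).card := by
    intro x hx
    obtain ⟨c, hc⟩ := hcrit x hx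
    have := degree_ge hW hc
    omega
  have hsz : ∀ e, sz H A e ≤ w := fun e => sz_le hA A e
  have hdeg : ∀ x ∈ A, 2 ≤ (EI H A x).card := by
    intro x hx
    by_contra hlt
    have h1 := deg_formula hA hx
    have h2 := hdegA x hx
    have h3 : ∑ e ∈ EI H A x, (sz H A e - 1) ≤ ∑ _e ∈ EI H A x, (w - 1) :=
      sum_le_sum (fun e _ => by have := hsz e; omega)
    rw [sum_const, smul_eq_mul] at h3
    have h4 : (EI H A x).card * (w - 1) ≤ 1 * (w - 1) := Nat.mul_le_mul_right _ (by omega)
    omega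
  obtain ⟨S, σ, α, R⟩ := exists_reduced (A := A) hg
  set φ := σ * α with hφ
  have hcharge := R.charge hdeg hne
  rw [← hφ] at hcharge
  -- faces
  have hface : ∀ d ∈ Sᶜ, 6 ≤ csz (cyc φ) d ∧ (csz (cyc φ) d = 6 → (φ ^ 6) d = d) := by
    intro d hd
    rw [mem_compl] at hd
    exact six_le_csz (fun i h1 h5 => R.no_short hA hdeg hd i h1 h5)
  set L := Low G H A with hL
  set BE : Finset (Fin k) := univ.filter (fun e => sz H A e = w) with hBE
  set T1 := Sᶜ.filter (fun d => 7 ≤ csz (cyc φ) d) with hT1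
  set U := Sᶜ.filter (fun d => ∃ x ∈ A \ L, d.fst = Sum.inl x) with hU
  set T := Sᶜ.filter (fun d => ∃ e, d.fst = Sum.inr e ∧ sz H A e = w) with hT
  have hLA : L ⊆ A := fun x hx => (mem_Low.mp hx).1
  -- cardinality of `U`
  have hUc : (U.card : ℚ) = ∑ x ∈ A \ L, ((EI H A x).card : ℚ) := by
    let F1 : V ⊕ Fin k → ℚ := fun v => match v with
      | Sum.inl x => if x ∈ A \ L then (1 : ℚ) else 0
      | Sum.inr _ => 0
    have h1 := R.sum_darts F1
    have h2 : ∑ d ∈ Sᶜ, F1 d.fst = (U.card : ℚ) := by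
      rw [hU, card_filter]
      push_cast
      apply sum_congr rfl
      intro d _
      rcases hcase : d.fst with x | e
      · by_cases hx : x ∈ A \ L
        · rw [if_pos ⟨x, hx, rfl⟩]
          simp only [F1]
          rw [if_pos hx]
        · rw [if_neg]
          · simp only [F1]
            rw [if_neg hx]
          · rintro ⟨y, hy, hy'⟩
            exact hx ((Sum.inl.inj hy') ▸ hy)
      · rw [if_neg]
        rintro ⟨y, hy, hy'⟩
        cases hy'
    rw [h2] at h1
    rw [h1]
    simp only [F1]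
    have h3 : ∀ x ∈ A, ∑ e ∈ EI H A x, ((if x ∈ A \ L then (1 : ℚ) else 0) + 0)
        = if x ∈ A \ L then ((EI H A x).card : ℚ) else 0 := by
      intro x _
      split_ifs <;> simp
    rw [sum_congr rfl h3, ← sum_filter]
    apply sum_congr _ (fun _ _ => rfl)
    ext x
    simp only [mem_filter, mem_sdiff]
    tauto
  -- cardinality of `T`
  have hTc : (T.card : ℚ) = w * BE.card := by
    let F2 : V ⊕ Fin k → ℚ := fun v => match v with
      | Sum.inl _ => (0 : ℚ)
      | Sum.inr e => if sz H A e = w then 1 else 0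
    have h1 := R.sum_darts F2
    have h2 : ∑ d ∈ Sᶜ, F2 d.fst = (T.card : ℚ) := by
      rw [hT, card_filter]
      push_cast
      apply sum_congr rfl
      intro d _
      rcases hcase : d.fst with x | e
      · rw [if_neg]
        rintro ⟨y, hy, hy'⟩
        cases hy
      · by_cases hs : sz H A e = w
        · rw [if_pos ⟨e, rfl, hs⟩]
          simp only [F2]
          rw [if_pos hs]
        · rw [if_neg]
          · simp only [F2]
            rw [if_neg hs]
          · rintro ⟨e', he', hs'⟩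
            exact hs ((Sum.inr.inj he') ▸ hs')
    rw [h2] at h1
    rw [h1]
    simp only [F2]
    have h3 : ∀ x ∈ A, ∑ e ∈ EI H A x, ((0 : ℚ) + if sz H A e = w then 1 else 0)
        = ((BE.filter (fun e => x ∈ H e)).card : ℚ) := by
      intro x _
      simp only [zero_add]
      rw [← sum_filter, sum_const, nsmul_eq_mul, mul_one]
      congr 2
      ext e
      simp only [mem_filter, mem_EI, hBE, mem_univ, true_and]
      constructor
      · rintro ⟨⟨h1, _⟩, h3⟩; exact ⟨h3, h1⟩
      · rintro ⟨h1, h2⟩; exact ⟨⟨h2, by omega⟩, h1⟩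
    rw [sum_congr rfl h3]
    have h4 := sum_card_bipartiteAbove_eq_sum_card_bipartiteBelow (s := A) (t := BE)
      (fun x e => x ∈ H e)
    unfold bipartiteAbove bipartiteBelow at h4
    rw [← Nat.cast_sum, h4]
    have h5 : ∀ e ∈ BE, (A.filter (fun x => x ∈ H e)).card = w := by
      intro e he
      rw [hBE, mem_filter] at he
      rw [← he.2]
      unfold sz
      congr 1
      ext x; simp only [mem_filter, mem_inter]; tauto
    rw [sum_congr rfl h5, sum_const, smul_eq_mul]
    push_cast; ring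
  -- low vertices
  have hLc : (L.card : ℚ) ≤ w * BE.card := by
    have h1 : L ⊆ BE.biUnion (fun e => H e ∩ A) := by
      intro x hx
      obtain ⟨hxA, -, e, he, hs⟩ := mem_Low.mp hx
      rw [mem_biUnion]
      exact ⟨e, by rw [hBE, mem_filter]; exact ⟨mem_univ _, hs⟩,
        mem_inter.mpr ⟨(mem_EI.mp he).1, hxA⟩⟩
    have h2 := (card_le_card h1).trans card_biUnion_le
    have h3 : ∑ e ∈ BE, (H e ∩ A).card = BE.card * w := by
      rw [sum_congr rfl (g := fun _ => w), sum_const, smul_eq_mul]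
      intro e he
      rw [hBE, mem_filter] at he
      exact he.2
    rw [h3] at h2
    have : (L.card : ℚ) ≤ (BE.card * w : ℕ) := by exact_mod_cast h2
    push_cast at this
    linarith
  -- the charge inequality
  have hwQ : (2000 : ℚ) * g + 2000 ≤ w := by exact_mod_cast hw
  have hw0 : (0 : ℚ) < w := by
    have : (0 : ℚ) ≤ g := Nat.cast_nonneg g
    linarith
  have hT1c : (T1.card : ℚ) / 7 ≤ ∑ d ∈ Sᶜ, (1 - 6 / (csz (cyc φ) d : ℚ)) := by
    have h1 : (T1.card : ℚ) / 7 = ∑ d ∈ Sᶜ, (if 7 ≤ csz (cyc φ) d then (1 : ℚ) / 7 else 0) := by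
      rw [← sum_filter, sum_const, nsmul_eq_mul]; ring
    rw [h1]
    apply sum_le_sum
    intro d hd
    have h2 := (hface d hd).1
    have h3 : (6 : ℚ) ≤ csz (cyc φ) d := by exact_mod_cast h2
    have h4 : (0 : ℚ) < csz (cyc φ) d := by linarith
    split_ifs with h7
    · have h8 : (7 : ℚ) ≤ csz (cyc φ) d := by exact_mod_cast h7
      have : 6 / (csz (cyc φ) d : ℚ) ≤ 6 / 7 := div_le_div_of_nonneg_left (by norm_num) (by norm_num) h8
      linarith
    · have : 6 / (csz (cyc φ) d : ℚ) ≤ 1 := by rw [div_le_one h4]; exact h3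
      linarith
  have hver : -(6 * (BE.card : ℚ)) + (U.card : ℚ) / 48 ≤
      ∑ x ∈ A, (∑ e ∈ EI H A x, hf (sz H A e) - 6) := by
    rw [← sum_sdiff hLA]
    have h1 : (U.card : ℚ) / 48 ≤ ∑ x ∈ A \ L, (∑ e ∈ EI H A x, hf (sz H A e) - 6) := by
      rw [hUc, sum_div]
      apply sum_le_sum
      intro x hx
      rw [mem_sdiff] at hx
      apply numeric_high (w := w) (fun e he => (mem_EI.mp he).2) (fun e _ => hsz e) (by omega)
      · rw [← deg_formula hA hx.1]; exact hdegA x hx.1
      · rintro ⟨h1, h2⟩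
        apply hx.2
        rw [hL, mem_Low]
        exact ⟨hx.1, by rw [deg_formula hA hx.1]; exact h1, h2⟩
    have h2 : -(6 * (BE.card : ℚ)) ≤ ∑ x ∈ L, (∑ e ∈ EI H A x, hf (sz H A e) - 6) := by
      have h3 : ∑ _x ∈ L, -(6 / (w : ℚ)) ≤ ∑ x ∈ L, (∑ e ∈ EI H A x, hf (sz H A e) - 6) := by
        apply sum_le_sum
        intro x hx
        obtain ⟨hxA, hxd, hxe⟩ := mem_Low.mp hx
        apply numeric_low (fun e he => (mem_EI.mp he).2) (by omega) _ hxe
        rw [← deg_formula hA hxA]; exact hxd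
      rw [sum_const, nsmul_eq_mul] at h3
      refine le_trans ?_ h3
      have h4 : (L.card : ℚ) * (6 / w) ≤ 6 * BE.card := by
        rw [mul_div_assoc', div_le_iff₀ hw0]
        nlinarith
      linarith
    linarith
  have hmain : (U.card : ℚ) / 48 + (T1.card : ℚ) / 7 ≤ 12 * g + 6 * BE.card := by
    linarith
  have hgQ : (0 : ℚ) ≤ g := Nat.cast_nonneg g
  have hBQ : (0 : ℚ) ≤ BE.card := Nat.cast_nonneg _
  have hUQ : (0 : ℚ) ≤ U.card := Nat.cast_nonneg _
  have hT1Q : (0 : ℚ) ≤ T1.card := Nat.cast_nonneg _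
  rcases Nat.eq_zero_or_pos BE.card with hB0 | hBpos
  · -- no big edges
    have hL0 : L = ∅ := by
      rw [← card_eq_zero]
      rw [hB0] at hLc
      have : (L.card : ℚ) ≤ 0 := by simpa using hLc
      have : L.card ≤ 0 := by exact_mod_cast this
      omega
    rw [hL0, sdiff_empty] at hUc
    have h1 : (2 : ℚ) * A.card ≤ U.card := by
      rw [hUc]
      have : ∑ _x ∈ A, (2 : ℚ) ≤ ∑ x ∈ A, ((EI H A x).card : ℚ) :=
        sum_le_sum (fun x hx => by exact_mod_cast hdeg x hx)
      rw [sum_const, nsmul_eq_mul] at this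
      linarith
    obtain ⟨x, hx⟩ := hne
    have h2 : w + 1 ≤ A.card := (hdegA x hx).trans (card_le_card (fun y hy => (mem_nb.mp hy).1))
    have h3 : (w : ℚ) + 1 ≤ A.card := by exact_mod_cast h2
    rw [hB0] at hmain
    push_cast at hmain
    linarith
  · -- good darts
    set Good := T.filter (fun d => csz (cyc φ) d = 6 ∧ (φ ^ 1) d ∉ U ∧ (φ ^ 3) d ∉ U ∧
      (φ ^ 5) d ∉ U) with hGood
    have hcov : T ⊆ Good ∪ (T1 ∪ (T.filter (fun d => (φ ^ 1) d ∈ U) ∪
        (T.filter (fun d => (φ ^ 3) d ∈ U) ∪ T.filter (fun d => (φ ^ 5) d ∈ U)))) := by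
      intro d hd
      have hdS : d ∈ Sᶜ := (mem_filter.mp hd).1
      by_cases h7 : 7 ≤ csz (cyc φ) d
      · exact mem_union_right _ (mem_union_left _ (mem_filter.mpr ⟨hdS, h7⟩))
      · by_cases h1 : (φ ^ 1) d ∈ U
        · exact mem_union_right _ (mem_union_right _ (mem_union_left _ (mem_filter.mpr ⟨hd, h1⟩)))
        · by_cases h3 : (φ ^ 3) d ∈ U
          · exact mem_union_right _ (mem_union_right _ (mem_union_right _
              (mem_union_left _ (mem_filter.mpr ⟨hd, h3⟩))))
          · by_cases h5 : (φ ^ 5) d ∈ U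
            · exact mem_union_right _ (mem_union_right _ (mem_union_right _
                (mem_union_right _ (mem_filter.mpr ⟨hd, h5⟩))))
            · refine mem_union_left _ (mem_filter.mpr ⟨hd, ?_, h1, h3, h5⟩)
              have := (hface d hdS).1
              omega
    have hcard : T.card ≤ Good.card + (T1.card + (U.card + (U.card + U.card))) := by
      have c1 := card_preimage_le (φ ^ 1) (T.filter (fun d => (φ ^ 1) d ∈ U)) U
        (fun d hd => (mem_filter.mp hd).2)
      have c3 := card_preimage_le (φ ^ 3) (T.filter (fun d => (φ ^ 3) d ∈ U)) U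
        (fun d hd => (mem_filter.mp hd).2)
      have c5 := card_preimage_le (φ ^ 5) (T.filter (fun d => (φ ^ 5) d ∈ U)) U
        (fun d hd => (mem_filter.mp hd).2)
      have e0 := card_le_card hcov
      have e1 := card_union_le Good (T1 ∪ (T.filter (fun d => (φ ^ 1) d ∈ U) ∪
        (T.filter (fun d => (φ ^ 3) d ∈ U) ∪ T.filter (fun d => (φ ^ 5) d ∈ U))))
      have e2 := card_union_le T1 (T.filter (fun d => (φ ^ 1) d ∈ U) ∪
        (T.filter (fun d => (φ ^ 3) d ∈ U) ∪ T.filter (fun d => (φ ^ 5) d ∈ U)))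
      have e3 := card_union_le (T.filter (fun d => (φ ^ 1) d ∈ U))
        (T.filter (fun d => (φ ^ 3) d ∈ U) ∪ T.filter (fun d => (φ ^ 5) d ∈ U))
      have e4 := card_union_le (T.filter (fun d => (φ ^ 3) d ∈ U))
        (T.filter (fun d => (φ ^ 5) d ∈ U))
      omega
    have hcardQ : (T.card : ℚ) ≤ Good.card + (T1.card + 3 * U.card) := by
      have : (T.card : ℚ) ≤ (Good.card + (T1.card + (U.card + (U.card + U.card))) : ℕ) := by
        exact_mod_cast hcard
      push_cast at this
      linarith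
    rw [hTc] at hcardQ
    have hB1 : (1 : ℚ) ≤ BE.card := by exact_mod_cast hBpos
    have hGoodQ : (2 : ℚ) * BE.card < Good.card := by
      have h1 : (U.card : ℚ) ≤ 48 * (12 * g + 6 * BE.card) := by linarith
      have h2 : (T1.card : ℚ) ≤ 7 * (12 * g + 6 * BE.card) := by linarith
      have h3 : ((2000 : ℚ) * g + 2000) * BE.card ≤ w * BE.card :=
        mul_le_mul_of_nonneg_right hwQ hBQ
      have h4 : (g : ℚ) ≤ g * BE.card := by nlinarith
      nlinarith
    have hGoodN : BE.card * 2 < Good.card := by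
      have : ((BE.card * 2 : ℕ) : ℚ) < Good.card := by push_cast; linarith
      exact_mod_cast this
    -- pigeonhole
    have hex : ∀ d : (incidenceGraph H).Dart, ∃ e : Fin k, d ∈ T → d.fst = Sum.inr e ∧ sz H A e = w := by
      intro d
      by_cases hd : d ∈ T
      · obtain ⟨e, he⟩ := (mem_filter.mp hd).2
        exact ⟨e, fun _ => he⟩
      · have hk : Nonempty (Fin k) := by
          obtain ⟨e, _⟩ := card_pos.mp hBpos
          exact ⟨e⟩
        exact ⟨Classical.arbitrary _, fun h => absurd h hd⟩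
    choose E hE using hex
    obtain ⟨e, heBE, hefib⟩ := exists_lt_card_fiber_of_mul_lt_card_of_maps_to
      (s := Good) (t := BE) (f := E) (n := 2) (by
        intro d hd
        rw [hBE, mem_filter]
        exact ⟨mem_univ _, (hE d (mem_filter.mp hd).1).2⟩) hGoodN
    -- three low vertices in `e`
    have hse : sz H A e = w := (mem_filter.mp heBE).2
    have hanalysis : ∀ d ∈ Good.filter (fun d => E d = e), ∃ v1 v2 x : V, ∃ a b : Fin k,
        d.fst = Sum.inr e ∧ d.snd = Sum.inl v2 ∧ v2 ∈ H e ∧ v2 ∈ L ∧ v1 ∈ H e ∧ v1 ∈ L ∧ x ∈ L ∧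
        v2 ∈ H b ∧ x ∈ H b ∧ x ∈ H a ∧ v1 ∈ H a ∧ b ≠ e ∧ x ≠ v2 ∧ v1 ≠ v2 := by
      intro d hd
      rw [mem_filter] at hd
      obtain ⟨hdG, hde⟩ := hd
      have hdG' := mem_filter.mp hdG
      obtain ⟨hdT, h6, hu1, hu3, hu5⟩ := hdG'
      have hdS : d ∉ S := by
        have := (mem_filter.mp hdT).1
        rwa [mem_compl] at this
      have hfst : d.fst = Sum.inr e := by rw [← hde]; exact (hE d hdT).1
      have hper : (φ ^ 6) d = d := (hface d (by rwa [mem_compl])).2 h6
      have f0 : ((φ ^ 1) d).fst = d.snd := R.iter_fst hdS 0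
      have f1 : ((φ ^ 2) d).fst = ((φ ^ 1) d).snd := R.iter_fst hdS 1
      have f2 : ((φ ^ 3) d).fst = ((φ ^ 2) d).snd := R.iter_fst hdS 2
      have f3 : ((φ ^ 4) d).fst = ((φ ^ 3) d).snd := R.iter_fst hdS 3
      have f4 : ((φ ^ 5) d).fst = ((φ ^ 4) d).snd := R.iter_fst hdS 4
      have f5 : ((φ ^ 6) d).fst = ((φ ^ 5) d).snd := R.iter_fst hdS 5
      have s0 : ((φ ^ 1) d).snd ≠ d.fst := R.iter_snd hdeg hdS 0
      have s1 : ((φ ^ 2) d).snd ≠ ((φ ^ 1) d).fst := R.iter_snd hdeg hdS 1
      have s5 : ((φ ^ 6) d).snd ≠ ((φ ^ 5) d).fst := R.iter_snd hdeg hdS 5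
      rw [hper] at f5 s5
      obtain ⟨v2, hv2, hv2e⟩ := dart_inr hfst
      rw [hv2] at f0
      obtain ⟨b, hb, hv2b⟩ := dart_inl f0
      rw [hb] at f1
      obtain ⟨x, hx, hxb⟩ := dart_inr f1
      rw [hx] at f2
      obtain ⟨a, ha, hxa⟩ := dart_inl f2
      rw [ha] at f3
      obtain ⟨v1, hv1, hv1a⟩ := dart_inr f3
      rw [hv1] at f4
      obtain ⟨e', he', hv1e'⟩ := dart_inl f4
      rw [he', hfst] at f5
      have hee : e = e' := Sum.inr.inj f5
      subst hee
      have hmemA : ∀ i v, ((φ ^ i) d).fst = Sum.inl v → (φ ^ i) d ∉ U → v ∈ L := by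
        intro i v hv hU'
        have hi : (φ ^ i) d ∉ S := R.iter_notMem hdS i
        have hvA : v ∈ A := by
          have := ((R.memS _).mp hi).1
          rw [hv] at this
          exact this
        by_contra hvL
        apply hU'
        rw [hU, mem_filter, mem_compl]
        exact ⟨hi, v, mem_sdiff.mpr ⟨hvA, hvL⟩, hv⟩
      refine ⟨v1, v2, x, a, b, hfst, hv2, hv2e, hmemA 1 v2 f0 hu1, hv1e', hmemA 5 v1 f4 hu5,
        hmemA 3 x f2 hu3, hv2b, hxb, hxa, hv1a, ?_, ?_, ?_⟩
      · intro h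
        apply s0
        rw [hb, hfst, h]
      · intro h
        apply s1
        rw [hx, f0, h]
      · intro h
        apply s5
        rw [hv2, f4, h]
    have hthree : 3 ≤ (L.filter (fun v => v ∈ H e)).card := by
      have h1 : (Good.filter (fun d => E d = e)).card ≤ (L.filter (fun v => v ∈ H e)).card := by
        have h2 : ((Good.filter (fun d => E d = e)).image (fun d => d.snd)) ⊆
            (L.filter (fun v => v ∈ H e)).image Sum.inl := by
          intro y hy
          rw [mem_image] at hy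
          obtain ⟨d, hd, rfl⟩ := hy
          obtain ⟨v1, v2, x, a, b, c1, c2, c3, c4, -⟩ := hanalysis d hd
          rw [c2, mem_image]
          exact ⟨v2, mem_filter.mpr ⟨c4, c3⟩, rfl⟩
        have h3 := card_le_card h2
        rw [card_image_of_injective _ Sum.inl_injective] at h3
        rw [card_image_of_injOn] at h3
        · exact h3
        · intro d hd d' hd' h
          obtain ⟨v1, v2, x, a, b, c1, -⟩ := hanalysis d (mem_coe.mp hd)
          obtain ⟨v1', v2', x', a', b', c1', -⟩ := hanalysis d' (mem_coe.mp hd')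
          exact dart_ext (c1.trans c1'.symm) h
      omega
    obtain ⟨d, hd⟩ := card_pos.mp (by omega : 0 < (Good.filter (fun d => E d = e)).card)
    obtain ⟨v1, v2, x, a, b, c1, c2, c3, c4, c5, c6, c7, c8, c9, c10, c11, c12, c13, c14⟩ :=
      hanalysis d hd
    have hex3 : ∃ u ∈ L.filter (fun v => v ∈ H e), u ≠ v1 ∧ u ≠ v2 := by
      by_contra hno
      push Not at hno
      have hsub : L.filter (fun v => v ∈ H e) ⊆ {v1, v2} := by
        intro u hu
        by_cases h1 : u = v1
        · rw [h1]; simp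
        · rw [hno u hu h1]; simp
      have := (card_le_card hsub).trans card_le_two
      omega
    obtain ⟨u, hu, hu1, hu2⟩ := hex3
    rw [mem_filter] at hu
    exact config_false (t := t) hA (by omega) (by omega) hW hcrit hse c5 c3 hu.2 c8 c9 c10 c11 c12
      c13 c14 hu1 hu2 c6 c4 hu.1 c7

end Final

end Pool.Agent.Helper20.RG
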