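import Mathlib
import Pool.Agent.Helper20.RGDefs
import Pool.Agent.Helper20.RGFinal

set_option autoImplicit false

namespace Pool.Agent.Helper20.RG

open Equiv Equiv.Perm SimpleGraph Finset Pool.Agent.Helper20.ReducedGenus

/-- every simple graph is the adjacency graph of a hypergraph -/
lemma exists_hypergraph {V : Type*} [Fintype V] (G : SimpleGraph V) :
    ∃ (k : ℕ) (H : Fin k → Finset V), IsAdjacencyGraph H G := by
  classical
  let E := {p : Finset V // ∃ u v, G.Adj u v ∧ p = {u, v}}
  let e : E ≃ Fin (Fintype.card E) := Fintype.equivFin E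
  refine ⟨Fintype.card E, fun i => (e.symm i).1, ?_⟩
  have key : ∀ u v : V, u ≠ v → ∀ p : E, u ∈ p.1 → v ∈ p.1 → p.1 = {u, v} := by
    intro u v huv p hu hv
    obtain ⟨p, a, b, hab, rfl⟩ := p
    simp only [Finset.mem_insert, Finset.mem_singleton] at hu hv
    rcases hu with rfl | rfl <;> rcases hv with rfl | rfl
    · exact absurd rfl huv
    · rfl
    · exact Finset.pair_comm _ _
    · exact absurd rfl huv
  intro u v huv
  constructor
  · intro hadj
    rw [Nat.card_eq_one_iff_unique]
    constructor
    · constructor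
      rintro ⟨i, hi⟩ ⟨j, hj⟩
      have h1 := key u v huv (e.symm i) hi.1 hi.2
      have h2 := key u v huv (e.symm j) hj.1 hj.2
      have h3 : e.symm i = e.symm j := Subtype.ext (h1.trans h2.symm)
      exact Subtype.ext (e.symm.injective h3)
    · refine ⟨⟨e ⟨{u, v}, u, v, hadj, rfl⟩, ?_⟩⟩
      simp
  · intro hadj
    rw [Nat.card_eq_zero]
    left
    constructor
    rintro ⟨i, hi⟩
    have h1 := key u v huv (e.symm i) hi.1 hi.2
    obtain ⟨a, b, hab, hp⟩ := (e.symm i).2
    rw [hp] at h1
    have hu : u ∈ ({a, b} : Finset V) := by rw [h1]; simp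
    have hv : v ∈ ({a, b} : Finset V) := by rw [h1]; simp
    simp only [Finset.mem_insert, Finset.mem_singleton] at hu hv
    rcases hu with rfl | rfl <;> rcases hv with rfl | rfl
    · exact huv rfl
    · exact hadj hab
    · exact hadj hab.symm
    · exact huv rfl

/-- the reduced genus is attained -/
lemma reducedGenus_attained {V : Type*} [Fintype V] (G : SimpleGraph V) :
    ∃ (k : ℕ) (H : Fin k → Finset V), IsAdjacencyGraph H G ∧
      genus (incidenceGraph H) = reducedGenus G := by
  have hne : {g | ∃ (k : ℕ) (H : Fin k → Finset V), IsAdjacencyGraph H G ∧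
      genus (incidenceGraph H) = g}.Nonempty := by
    obtain ⟨k, H, hH⟩ := exists_hypergraph G
    exact ⟨_, k, H, hH, rfl⟩
  exact Nat.sInf_mem hne

theorem main {V : Type*} [Fintype V] (G : SimpleGraph V)
    (hω : 2000 * reducedGenus G + 2000 ≤ G.cliqueNum) :
    pointArboricity G ≤ 1 + G.cliqueNum / 2 := by
  classical
  obtain ⟨k, H, hA, hg⟩ := reducedGenus_attained G
  have h1 : GenusLE (incidenceGraph H) (reducedGenus G) := by
    rw [← hg]; exact genusLE_genus _
  obtain ⟨c, hc⟩ := core hA h1 hω
  apply Nat.sInf_le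
  refine ⟨c, fun i => ?_⟩
  have := hc i
  unfold Forest at this
  have h2 : {v | v ∈ (Set.univ : Set V) ∧ c v = i} = {v | c v = i} := by
    ext v; simp
  rw [h2] at this
  exact this

end Pool.Agent.Helper20.RG
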