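import Mathlib

open Finset Polynomial

namespace Pool.Agent.Helper20.ZeroFree

/-- Lucas-type congruence for prime powers. -/
lemma choose_pow_mul_add {p : ℕ} [Fact p.Prime] (s t u i : ℕ) (hi : i < p ^ s) :
    ((Nat.choose (p ^ s * t + u) i : ℕ) : ZMod p) = (Nat.choose u i : ℕ) := by
  have h1 : ((1 + X : (ZMod p)[X]) ^ (p ^ s * t + u)) = (1 + X ^ (p ^ s)) ^ t * (1 + X) ^ u := by
    rw [pow_add, pow_mul, add_pow_char_pow, one_pow]
  have h2 : ∃ g : (ZMod p)[X], (1 + X ^ (p ^ s)) ^ t = 1 + X ^ (p ^ s) * g := by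
    clear h1
    induction t with
    | zero => exact ⟨0, by simp⟩
    | succ t ih =>
      obtain ⟨g, hg⟩ := ih
      exact ⟨1 + g + X ^ (p ^ s) * g, by rw [pow_succ, hg]; ring⟩
  obtain ⟨g, hg⟩ := h2
  have h3 := congrArg (fun q : (ZMod p)[X] => q.coeff i) h1
  simp only [hg] at h3
  rw [coeff_one_add_X_pow] at h3
  rw [h3, add_mul, one_mul, coeff_add, coeff_one_add_X_pow, mul_assoc, coeff_X_pow_mul']
  simp [not_le.mpr hi]

/-- inner alternating sum over an interval of finsets -/
lemma alt_interval {ι R : Type*} [DecidableEq ι] [CommRing R] (U K : Finset ι) :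
    ∑ X ∈ K.powerset.filter (fun X => U ⊆ X), (-1 : R) ^ X.card
      = if U = K then (-1 : R) ^ K.card else 0 := by
  by_cases hUK : U ⊆ K
  · have h1 : K.powerset.filter (fun X => U ⊆ X) = (K \ U).powerset.image (U ∪ ·) := by
      rw [← Icc_eq_image_powerset hUK]
      ext X; simp [and_comm]
    rw [h1, sum_image]
    · have h2 : ∀ Y ∈ (K \ U).powerset, (-1 : R) ^ (U ∪ Y).card = (-1) ^ U.card * (-1) ^ Y.card := by
        intro Y hY
        rw [card_union_of_disjoint, pow_add]
        rw [mem_powerset] at hY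
        exact disjoint_of_subset_right hY disjoint_sdiff
      rw [sum_congr rfl h2, ← mul_sum]
      have h3 := sum_powerset_neg_one_pow_card (x := K \ U)
      have h4 : ∑ m ∈ (K \ U).powerset, (-1 : R) ^ m.card = if K \ U = ∅ then 1 else 0 := by
        have := congrArg (Int.cast : ℤ → R) h3
        push_cast at this
        rw [this]
      rw [h4]
      by_cases hE : U = K
      · subst hE; simp
      · have : K \ U ≠ ∅ := by
          rw [Ne, sdiff_eq_empty_iff_subset]
          intro h; exact hE (Subset.antisymm hUK h)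
        simp [hE, this]
    · intro A hA B hB h
      simp only [coe_powerset, Set.mem_preimage, Set.mem_powerset_iff, coe_sdiff] at hA hB
      have h' : U ∪ A = U ∪ B := h
      ext x
      constructor
      · intro hx
        have : x ∈ U ∪ B := h' ▸ mem_union_right _ hx
        rcases mem_union.mp this with h1 | h1
        · exact absurd h1 (hA hx).2
        · exact h1
      · intro hx
        have : x ∈ U ∪ A := h' ▸ mem_union_right _ hx
        rcases mem_union.mp this with h1 | h1
        · exact absurd h1 (hB hx).2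
        · exact h1
  · have h1 : K.powerset.filter (fun X => U ⊆ X) = ∅ := by
      rw [filter_eq_empty_iff]
      intro X hX h
      exact hUK (h.trans (mem_powerset.mp hX))
    have h2 : U ≠ K := by rintro rfl; exact hUK (Subset.refl _)
    rw [h1]; simp [h2]

/-- families of `m`-subsets with union exactly `K` -/
def cov {ι : Type*} [DecidableEq ι] (m : ℕ) (K : Finset ι) : Finset (Finset (Finset ι)) :=
  (K.powersetCard m).powerset.filter (fun F => F.sup id = K)

lemma cover_identity {ι R : Type*} [DecidableEq ι] [CommRing R] (m : ℕ) (g : Finset ι → R)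
    (K : Finset ι) :
    ∑ X ∈ K.powerset, (-1 : R) ^ X.card * ∏ M ∈ X.powersetCard m, (1 + g M)
      = (-1) ^ K.card * ∑ F ∈ cov m K, ∏ M ∈ F, g M := by
  have h1 : ∀ X ∈ K.powerset, (-1 : R) ^ X.card * ∏ M ∈ X.powersetCard m, (1 + g M)
      = ∑ F ∈ (X.powersetCard m).powerset, (-1 : R) ^ X.card * ∏ M ∈ F, g M := by
    intro X _
    rw [prod_one_add, mul_sum]
  rw [sum_congr rfl h1]
  have h2 : ∀ (X : Finset ι) (F : Finset (Finset ι)),
      X ∈ K.powerset ∧ F ∈ (X.powersetCard m).powerset ↔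
      X ∈ K.powerset.filter (fun X => F.sup id ⊆ X) ∧ F ∈ (K.powersetCard m).powerset := by
    intro X F
    simp only [mem_powerset, mem_filter]
    constructor
    · rintro ⟨hX, hF⟩
      refine ⟨⟨hX, ?_⟩, hF.trans (powersetCard_mono hX)⟩
      apply Finset.sup_le
      intro M hM
      exact (mem_powersetCard.mp (hF hM)).1
    · rintro ⟨⟨hX, hS⟩, hF⟩
      refine ⟨hX, fun M hM => ?_⟩
      rw [mem_powersetCard]
      refine ⟨?_, (mem_powersetCard.mp (hF hM)).2⟩
      exact (Finset.le_sup (f := id) hM).trans hS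
  rw [sum_comm' h2]
  have h3 : ∀ F ∈ (K.powersetCard m).powerset,
      ∑ X ∈ K.powerset.filter (fun X => F.sup id ⊆ X), (-1 : R) ^ X.card * ∏ M ∈ F, g M
        = if F.sup id = K then (-1) ^ K.card * ∏ M ∈ F, g M else 0 := by
    intro F _
    rw [← sum_mul, alt_interval]
    split_ifs <;> simp
  rw [sum_congr rfl h3, ← sum_filter, mul_sum]
  rfl


/-- every point of `K` is covered exactly once when the family is as small as possible -/
lemma cover_once {ι : Type*} [DecidableEq ι] {m : ℕ} {K : Finset ι} {F : Finset (Finset ι)}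
    (hF : F ∈ cov m K) (hc : m * F.card ≤ K.card) :
    ∀ i ∈ K, (F.filter (fun M => i ∈ M)).card = 1 := by
  rw [cov, mem_filter, mem_powerset] at hF
  obtain ⟨hF1, hF2⟩ := hF
  have h1 : ∑ i ∈ K, (F.filter (fun M => i ∈ M)).card = m * F.card := by
    have h := Finset.sum_card_bipartiteAbove_eq_sum_card_bipartiteBelow (s := K) (t := F)
      (fun i M => i ∈ M)
    unfold bipartiteAbove bipartiteBelow at h
    rw [h]
    rw [sum_congr rfl (g := fun _ => m)]
    · simp [mul_comm]
    · intro M hM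
      have := mem_powersetCard.mp (hF1 hM)
      rw [← this.2]
      congr 1
      ext i
      simp only [mem_filter]
      exact ⟨fun h => h.2, fun h => ⟨this.1 h, h⟩⟩
  have h2 : ∀ i ∈ K, 1 ≤ (F.filter (fun M => i ∈ M)).card := by
    intro i hi
    rw [← hF2, mem_sup] at hi
    obtain ⟨M, hM, hiM⟩ := hi
    exact card_pos.mpr ⟨M, mem_filter.mpr ⟨hM, hiM⟩⟩
  have h3 : ∑ i ∈ K, 1 = ∑ i ∈ K, (F.filter (fun M => i ∈ M)).card := by
    apply le_antisymm
    · exact sum_le_sum h2
    · rw [h1]; simpa using hc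
  intro i hi
  exact ((sum_eq_sum_iff_of_le h2).mp h3 i hi).symm

lemma cover_card {ι : Type*} [DecidableEq ι] {m : ℕ} {K : Finset ι} {F : Finset (Finset ι)}
    (hF : F ∈ cov m K) : K.card ≤ m * F.card := by
  rw [cov, mem_filter, mem_powerset] at hF
  obtain ⟨hF1, hF2⟩ := hF
  rw [← hF2, sup_eq_biUnion]
  refine card_biUnion_le.trans ?_
  rw [sum_congr rfl (g := fun _ => m)]
  · simp [mul_comm]
  · intro M hM
    exact (mem_powersetCard.mp (hF1 hM)).2

/-- Sum of a function over all members of a perfect cover. -/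
lemma cover_sum {ι : Type*} [DecidableEq ι] {m : ℕ} {K : Finset ι} {F : Finset (Finset ι)}
    (hF : F ∈ cov m K) (hc : m * F.card ≤ K.card) {R : Type*} [CommSemiring R] (b : ι → R) :
    ∑ M ∈ F, ∑ i ∈ M, b i = ∑ i ∈ K, b i := by
  have h1 := cover_once hF hc
  rw [cov, mem_filter, mem_powerset] at hF
  obtain ⟨hF1, hF2⟩ := hF
  have h2 : ∀ (M : Finset ι) (i : ι), M ∈ F ∧ i ∈ M ↔ M ∈ F.filter (fun M => i ∈ M) ∧ i ∈ K := by
    intro M i
    simp only [mem_filter]
    constructor
    · rintro ⟨h, h'⟩; exact ⟨⟨h, h'⟩, (mem_powersetCard.mp (hF1 h)).1 h'⟩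
    · rintro ⟨h, _⟩; exact h
  rw [sum_comm' h2]
  apply sum_congr rfl
  intro i hi
  simp [h1 i hi]

lemma cover_prod {ι : Type*} [DecidableEq ι] {m : ℕ} {K : Finset ι} {F : Finset (Finset ι)}
    (hF : F ∈ cov m K) (hc : m * F.card ≤ K.card) {R : Type*} [CommSemiring R] (b : ι → R) :
    ∏ M ∈ F, ∏ i ∈ M, b i = ∏ i ∈ K, b i := by
  have h1 := cover_once hF hc
  rw [cov, mem_filter, mem_powerset] at hF
  obtain ⟨hF1, hF2⟩ := hF
  have h2 : ∀ (M : Finset ι) (i : ι), M ∈ F ∧ i ∈ M ↔ M ∈ F.filter (fun M => i ∈ M) ∧ i ∈ K := by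
    intro M i
    simp only [mem_filter]
    constructor
    · rintro ⟨h, h'⟩; exact ⟨⟨h, h'⟩, (mem_powersetCard.mp (hF1 h)).1 h'⟩
    · rintro ⟨h, _⟩; exact h
  rw [prod_comm' h2]
  apply prod_congr rfl
  intro i hi
  simp [h1 i hi]

/-- number of members of `powersetCard m K` containing a given point -/
lemma card_containing {ι : Type*} [DecidableEq ι] (m : ℕ) (K : Finset ι) (k : ι) (hk : k ∈ K) :
    ((K.powersetCard (m + 1)).filter (fun M => k ∈ M)).card = (K.card - 1).choose m := by
  have h1 : (K.powersetCard (m + 1)).filter (fun M => k ∈ M)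
      = ((K.erase k).powersetCard m).image (insert k) := by
    ext M
    simp only [mem_filter, mem_powersetCard, mem_image]
    constructor
    · rintro ⟨⟨h1, h2⟩, h3⟩
      refine ⟨M.erase k, ⟨erase_subset_erase k h1, ?_⟩, insert_erase h3⟩
      rw [card_erase_of_mem h3, h2]; rfl
    · rintro ⟨A, ⟨h1, h2⟩, rfl⟩
      have hkA : k ∉ A := fun h => by simpa using h1 h
      refine ⟨⟨?_, ?_⟩, mem_insert_self _ _⟩
      · exact insert_subset hk (h1.trans (erase_subset _ _))
      · rw [card_insert_of_notMem hkA, h2]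
  rw [h1, card_image_of_injOn, card_powersetCard, card_erase_of_mem hk]
  intro A hA B hB h
  rw [mem_coe, mem_powersetCard] at hA hB
  have hkA : k ∉ A := fun h => by simpa using hA.1 h
  have hkB : k ∉ B := fun h => by simpa using hB.1 h
  have := congrArg (fun s => Finset.erase s k) h
  simpa [erase_insert hkA, erase_insert hkB] using this

/-- The number of partitions of a set of size `m t` into `t` blocks of size `m = p ^ s`
is congruent to one modulo `p`. -/
lemma card_partitions {ι : Type*} [DecidableEq ι] {p : ℕ} [hp : Fact p.Prime] (s : ℕ) (t : ℕ) :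
    ∀ K : Finset ι, K.card = p ^ s * t →
      ((((cov (p ^ s) K).filter (fun F => F.card = t)).card : ℕ) : ZMod p) = 1 := by
  have hm : 0 < p ^ s := pow_pos hp.out.pos s
  induction t with
  | zero =>
    intro K hK
    have hK' : K = ∅ := by simpa using hK
    subst hK'
    have : (cov (p ^ s) (∅ : Finset ι)).filter (fun F => F.card = 0) = {∅} := by
      ext F
      simp only [cov, mem_filter, mem_powerset, mem_singleton, card_eq_zero]
      constructor
      · rintro ⟨_, h⟩; exact h
      · rintro rfl; simp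
    rw [this]; simp
  | succ t ih =>
    intro K hK
    set m := p ^ s with hmdef
    have hKpos : 0 < K.card := by rw [hK]; positivity
    obtain ⟨k, hk⟩ := card_pos.mp hKpos
    set PT := (cov m K).filter (fun F => F.card = t + 1) with hPT
    have hone : ∀ F ∈ PT, (F.filter (fun M => k ∈ M)).card = 1 := by
      intro F hF
      rw [hPT, mem_filter] at hF
      exact cover_once hF.1 (by rw [hF.2, hK]) k hk
    have h1 : PT.card = ∑ M ∈ (K.powersetCard m).filter (fun M => k ∈ M),
        (PT.filter (fun F => M ∈ F)).card := by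
      have h := Finset.sum_card_bipartiteAbove_eq_sum_card_bipartiteBelow (s := PT)
        (t := (K.powersetCard m).filter (fun M => k ∈ M)) (fun F M => M ∈ F)
      unfold bipartiteAbove bipartiteBelow at h
      rw [← h, card_eq_sum_ones]
      apply sum_congr rfl
      intro F hF
      rw [← hone F hF]
      congr 1
      ext M
      simp only [mem_filter]
      rw [hPT, mem_filter, cov, mem_filter, mem_powerset] at hF
      constructor
      · rintro ⟨h1, h2⟩; exact ⟨⟨hF.1.1 h1, h2⟩, h1⟩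
      · rintro ⟨⟨_, h2⟩, h1⟩; exact ⟨h1, h2⟩
    have h2 : ∀ M ∈ (K.powersetCard m).filter (fun M => k ∈ M),
        (((PT.filter (fun F => M ∈ F)).card : ℕ) : ZMod p) = 1 := by
      intro M hM
      rw [mem_filter, mem_powersetCard] at hM
      obtain ⟨⟨hMK, hMm⟩, hkM⟩ := hM
      have hcard : (K \ M).card = m * t := by
        rw [card_sdiff_of_subset hMK, hK, hMm]
        rw [mul_add]; simp
      rw [← ih (K \ M) hcard]
      congr 1
      refine card_bij' (fun F _ => F.erase M) (fun F _ => insert M F) ?_ ?_ ?_ ?_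
      · intro F hF
        rw [mem_filter] at hF
        obtain ⟨hFPT, hMF⟩ := hF
        rw [hPT, mem_filter] at hFPT
        obtain ⟨hFc, hFt⟩ := hFPT
        have honce := cover_once hFc (by rw [hFt, hK])
        have hFc' := hFc
        rw [cov, mem_filter, mem_powerset] at hFc'
        obtain ⟨hF1, hF2⟩ := hFc'
        have hdisj : ∀ M' ∈ F.erase M, M' ⊆ K \ M := by
          intro M' hM' i hi
          rw [mem_erase] at hM'
          have hiK : i ∈ K := (mem_powersetCard.mp (hF1 hM'.2)).1 hi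
          rw [mem_sdiff]
          refine ⟨hiK, fun hiM => ?_⟩
          have h1 := honce i hiK
          rw [card_eq_one] at h1
          obtain ⟨N, hN⟩ := h1
          have hA : M ∈ F.filter (fun M => i ∈ M) := mem_filter.mpr ⟨hMF, hiM⟩
          have hB : M' ∈ F.filter (fun M => i ∈ M) := mem_filter.mpr ⟨hM'.2, hi⟩
          rw [hN, mem_singleton] at hA hB
          exact hM'.1 (hB.trans hA.symm)
        rw [mem_filter, cov, mem_filter, mem_powerset]
        refine ⟨⟨?_, ?_⟩, ?_⟩
        · intro M' hM'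
          rw [mem_powersetCard]
          exact ⟨hdisj M' hM', (mem_powersetCard.mp (hF1 (mem_of_mem_erase hM'))).2⟩
        · apply Subset.antisymm
          · exact Finset.sup_le (fun M' hM' => hdisj M' hM')
          · intro i hi
            rw [mem_sdiff] at hi
            have : i ∈ F.sup id := by rw [hF2]; exact hi.1
            rw [mem_sup] at this ⊢
            obtain ⟨N, hN, hiN⟩ := this
            refine ⟨N, mem_erase.mpr ⟨?_, hN⟩, hiN⟩
            rintro rfl; exact hi.2 hiN
        · rw [card_erase_of_mem hMF, hFt]; rfl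
      · intro F hF
        rw [mem_filter, cov, mem_filter, mem_powerset] at hF
        obtain ⟨⟨hF1, hF2⟩, hF3⟩ := hF
        have hMF : M ∉ F := by
          intro h
          have := (mem_powersetCard.mp (hF1 h)).1 hkM
          rw [mem_sdiff] at this
          exact this.2 hkM
        rw [mem_filter, hPT, mem_filter, cov, mem_filter, mem_powerset]
        refine ⟨⟨⟨?_, ?_⟩, ?_⟩, mem_insert_self _ _⟩
        · intro N hN
          rw [mem_insert] at hN
          rcases hN with rfl | hN
          · exact mem_powersetCard.mpr ⟨hMK, hMm⟩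
          · have := mem_powersetCard.mp (hF1 hN)
            exact mem_powersetCard.mpr ⟨this.1.trans sdiff_subset, this.2⟩
        · rw [sup_insert, hF2]
          simp only [id, sup_eq_union]
          exact union_sdiff_of_subset hMK
        · rw [card_insert_of_notMem hMF, hF3]
      · intro F hF
        rw [mem_filter] at hF
        exact insert_erase hF.2
      · intro F hF
        rw [mem_filter, cov, mem_filter, mem_powerset] at hF
        obtain ⟨⟨hF1, hF2⟩, hF3⟩ := hF
        have hMF : M ∉ F := by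
          intro h
          have := (mem_powersetCard.mp (hF1 h)).1 hkM
          rw [mem_sdiff] at this
          exact this.2 hkM
        exact erase_insert hMF
    rw [h1]
    push_cast
    rw [sum_congr rfl h2]
    simp only [sum_const, nsmul_eq_mul, mul_one]
    obtain ⟨m', hm'⟩ : ∃ m', m = m' + 1 := ⟨m - 1, by omega⟩
    rw [hm', card_containing m' K k hk, hK]
    have h4 : m * (t + 1) - 1 = p ^ s * t + m' := by
      rw [← hmdef, mul_add]; omega
    rw [h4, choose_pow_mul_add s t m' m' (by omega)]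
    simp


/-- linear functional detecting divisibility of the exponent of `1 + X` by `q` -/
noncomputable def fn (p q : ℕ) : (ZMod p)[X] →ₗ[ZMod p] ZMod p :=
  (lcoeff (ZMod p) (q - 1)).comp (LinearMap.mulLeft (ZMod p) ((1 + X) ^ (q - 1)))

lemma fn_apply (p q : ℕ) (g : (ZMod p)[X]) :
    fn p q g = ((1 + X) ^ (q - 1) * g).coeff (q - 1) := rfl

lemma fn_X_pow_mul_of_le {p q : ℕ} (hq : 1 ≤ q) {u : ℕ} (hu : q ≤ u) (g : (ZMod p)[X]) :
    fn p q (X ^ u * g) = 0 := by
  rw [fn_apply, mul_left_comm, coeff_X_pow_mul', if_neg (by omega)]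

lemma fn_X_pow_pred {p q : ℕ} (g : (ZMod p)[X]) :
    fn p q (X ^ (q - 1) * g) = g.coeff 0 := by
  rw [fn_apply, mul_left_comm, coeff_X_pow_mul', if_pos le_rfl, Nat.sub_self, mul_coeff_zero]
  simp [coeff_zero_eq_eval_zero]

lemma fn_one_add_pow {p : ℕ} [hp : Fact p.Prime] (r n : ℕ) :
    fn p (p ^ r) ((1 + X) ^ n) = if p ^ r ∣ n then 1 else 0 := by
  have hq : 0 < p ^ r := pow_pos hp.out.pos r
  rw [fn_apply, ← pow_add, coeff_one_add_X_pow]
  split_ifs with h
  · obtain ⟨t, rfl⟩ := h
    rw [add_comm, choose_pow_mul_add r t _ _ (by omega)]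
    simp
  · have h1 : 0 < n % p ^ r := by
      rcases Nat.eq_zero_or_pos (n % p ^ r) with h0 | h0
      · exact absurd (Nat.dvd_of_mod_eq_zero h0) h
      · exact h0
    have h2 : p ^ r - 1 + n = p ^ r * (n / p ^ r + 1) + (n % p ^ r - 1) := by
      have := Nat.div_add_mod n (p ^ r)
      rw [mul_add, mul_one]
      omega
    have h3 : n % p ^ r < p ^ r := Nat.mod_lt _ hq
    rw [h2, choose_pow_mul_add r _ _ _ (by omega), Nat.choose_eq_zero_of_lt (by omega)]
    simp

/-- the product of the entries over a block -/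
def blk {ι : Type*} (a : ι → ℕ) (M : Finset ι) : ℕ := ∏ i ∈ M, a i

/-- the value of `e_m` -/
def esy {ι : Type*} (m : ℕ) (a : ι → ℕ) (Y : Finset ι) : ℕ := ∑ M ∈ Y.powersetCard m, blk a M

/-- the basic identity -/
lemma basic {ι : Type*} [DecidableEq ι] {p : ℕ} [hp : Fact p.Prime] (r m : ℕ) (hm : 0 < m)
    (a : ι → ℕ)
    (H : ∀ Y : Finset ι, m ≤ Y.card → ¬ p ^ r ∣ esy m a Y) (K : Finset ι) (hK : 0 < K.card) :
    (-1) ^ K.card * ∑ F ∈ cov m K, fn p (p ^ r) (∏ M ∈ F, ((1 + X) ^ (blk a M) - 1))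
      = (-1) ^ (m - 1) * ((K.card - 1).choose (m - 1) : ZMod p) := by
  have h1 := cover_identity (R := (ZMod p)[X]) m (fun M => (1 + X) ^ (blk a M) - 1) K
  have h2 := congrArg (fn p (p ^ r)) h1
  have hpow : ∀ (k : ℕ) (g : (ZMod p)[X]), fn p (p ^ r) ((-1) ^ k * g) = (-1) ^ k * fn p (p ^ r) g := by
    intro k g
    have : ((-1 : (ZMod p)[X]) ^ k * g) = ((-1 : ZMod p) ^ k) • g := by
      rw [smul_eq_C_mul]; simp
    rw [this, map_smul, smul_eq_mul]
  rw [hpow, map_sum, map_sum] at h2
  rw [← h2]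
  have h3 : ∀ Y ∈ K.powerset, fn p (p ^ r) ((-1) ^ Y.card *
      ∏ M ∈ Y.powersetCard m, (1 + ((1 + X) ^ (blk a M) - 1)))
      = (fun j => (-1) ^ j * (if j < m then (1 : ZMod p) else 0)) Y.card := by
    intro Y _
    rw [hpow]
    have : ∏ M ∈ Y.powersetCard m, (1 + ((1 + X : (ZMod p)[X]) ^ (blk a M) - 1))
        = (1 + X) ^ (esy m a Y) := by
      rw [esy, ← prod_pow_eq_pow_sum]
      apply prod_congr rfl
      intro M _; ring
    rw [this, fn_one_add_pow]
    congr 1
    by_cases hY : Y.card < m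
    · rw [if_pos hY, if_pos]
      rw [esy, powersetCard_eq_empty.mpr hY]; simp
    · rw [if_neg hY, if_neg (H Y (by omega))]
  rw [sum_congr rfl h3, sum_powerset_apply_card (fun j => (-1) ^ j * (if j < m then (1 : ZMod p) else 0))]
  have h4 := @Int.alternating_sum_range_choose_eq_choose (K.card - 1) (m - 1)
  have h5 := congrArg (Int.cast : ℤ → ZMod p) h4
  push_cast at h5
  rw [← h5, Nat.sub_add_cancel hm, Nat.sub_add_cancel hK]
  simp only [nsmul_eq_mul]
  rcases le_or_gt m (K.card + 1) with hle | hgt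
  · rw [← sum_subset (range_subset_range.mpr hle)]
    · apply sum_congr rfl
      intro j hj
      rw [mem_range] at hj
      rw [if_pos hj]; ring
    · intro j _ hj
      rw [mem_range] at hj
      rw [if_neg hj]; ring
  · rw [← sum_subset (range_subset_range.mpr hgt.le)]
    · apply sum_congr rfl
      intro j hj
      rw [mem_range] at hj
      rw [if_pos (by omega)]; ring
    · intro j _ hj
      rw [mem_range] at hj
      rw [Nat.choose_eq_zero_of_lt (by omega)]; simp


/-- first expansion of a factor -/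
lemma factor_one {p : ℕ} (a : ℕ) :
    ∃ g : (ZMod p)[X], (1 + X) ^ a - 1 = X * g ∧ g.coeff 0 = (a : ZMod p) := by
  induction a with
  | zero => exact ⟨0, by simp⟩
  | succ a ih =>
    obtain ⟨g, hg, hg0⟩ := ih
    refine ⟨1 + X * g + g, ?_, ?_⟩
    · rw [pow_succ]
      have : (1 + X : (ZMod p)[X]) ^ a = 1 + X * g := by rw [← hg]; ring
      rw [this]; ring
    · simp [hg0, mul_coeff_zero]; ring

/-- expansion of `(1 + y) ^ B` modulo `y ^ 2`, with `y = X ^ P` -/
lemma factor_pow {p : ℕ} (P B : ℕ) :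
    ∃ g : (ZMod p)[X], (1 + X ^ P) ^ B = 1 + C (B : ZMod p) * X ^ P + X ^ (2 * P) * g := by
  induction B with
  | zero => exact ⟨0, by simp⟩
  | succ B ih =>
    obtain ⟨g, hg⟩ := ih
    refine ⟨C (B : ZMod p) + g + X ^ P * g, ?_⟩
    rw [pow_succ, hg, two_mul, pow_add]
    push_cast
    rw [C_add, C_1]
    ring

/-- expansion of a factor with exponent congruent to one modulo `p ^ j` -/
lemma factor_two {p : ℕ} [hp : Fact p.Prime] {j : ℕ} (hj : 1 ≤ j) (a B : ℕ)
    (ha : a = 1 + p ^ j * B) :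
    ∃ g : (ZMod p)[X], (1 + X) ^ a - 1
      = X * (1 + C (B : ZMod p) * X ^ (p ^ j - 1) + X ^ (p ^ j) * g) := by
  have hP : 2 ≤ p ^ j := by
    calc 2 ≤ p := hp.out.two_le
      _ = p ^ 1 := (pow_one p).symm
      _ ≤ p ^ j := Nat.pow_le_pow_right hp.out.pos hj
  obtain ⟨g, hg⟩ := factor_pow (p := p) (p ^ j) B
  have h1 : (1 + X : (ZMod p)[X]) ^ a = (1 + X) * (1 + X ^ (p ^ j)) ^ B := by
    rw [ha, pow_add, pow_one, pow_mul, add_pow_char_pow, one_pow]
  obtain ⟨P', hP'⟩ : ∃ P', p ^ j = P' + 2 := ⟨p ^ j - 2, by omega⟩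
  refine ⟨C (B : ZMod p) + X ^ (p ^ j - 1) * g + X ^ (p ^ j) * g, ?_⟩
  rw [h1, hg, hP']
  have e1 : P' + 2 - 1 = P' + 1 := rfl
  rw [e1]
  ring

/-- expansion of a product of such factors -/
lemma prod_two {ι : Type*} [DecidableEq ι] {p : ℕ} {P : ℕ} (hP : 2 ≤ P) (F : Finset ι)
    (B : ι → ℕ) (f : ι → (ZMod p)[X])
    (hf : ∀ M ∈ F, ∃ g : (ZMod p)[X], f M = X * (1 + C (B M : ZMod p) * X ^ (P - 1) + X ^ P * g)) :
    ∃ g : (ZMod p)[X], ∏ M ∈ F, f M
      = X ^ F.card * (1 + C (∑ M ∈ F, (B M : ZMod p)) * X ^ (P - 1) + X ^ P * g) := by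
  induction F using Finset.induction_on with
  | empty => exact ⟨0, by simp⟩
  | insert M F hM ih =>
    obtain ⟨g, hg⟩ := ih (fun N hN => hf N (mem_insert_of_mem hN))
    obtain ⟨g', hg'⟩ := hf M (mem_insert_self _ _)
    rw [prod_insert hM, hg, hg', card_insert_of_notMem hM, sum_insert hM, C_add]
    obtain ⟨P', hP'⟩ : ∃ P', P = P' + 2 := ⟨P - 2, by omega⟩
    subst hP'
    have e1 : P' + 2 - 1 = P' + 1 := rfl
    rw [e1]
    set S := C (∑ x ∈ F, (B x : ZMod p))
    set b := C (B M : ZMod p)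
    refine ⟨g + g' + S * b * X ^ P' + S * X ^ (P' + 1) * g' + b * X ^ (P' + 1) * g
      + X ^ (P' + 2) * g * g', ?_⟩
    ring

/-- Step one: all entries are units modulo `p` and congruent modulo `p`. -/
lemma step_one {ι : Type*} [DecidableEq ι] [Fintype ι] {p : ℕ} [hp : Fact p.Prime] {r s : ℕ}
    (hr : 1 ≤ r) (hs : 1 ≤ s) (hι : Fintype.card ι = p ^ s * p ^ r - 1) (a : ι → ℕ)
    (H : ∀ Y : Finset ι, p ^ s ≤ Y.card → ¬ p ^ r ∣ esy (p ^ s) a Y) :
    (∀ i, (a i : ZMod p) ≠ 0) ∧ ∀ i i', (a i : ZMod p) = a i' := by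
  set m := p ^ s with hm
  set q := p ^ r with hq
  have hm2 : 2 ≤ m := by
    calc 2 ≤ p := hp.out.two_le
      _ = p ^ 1 := (pow_one p).symm
      _ ≤ p ^ s := Nat.pow_le_pow_right hp.out.pos hs
  have hq2 : 2 ≤ q := by
    calc 2 ≤ p := hp.out.two_le
      _ = p ^ 1 := (pow_one p).symm
      _ ≤ p ^ r := Nat.pow_le_pow_right hp.out.pos hr
  have key : ∀ K : Finset ι, K.card = m * (q - 1) →
      (-1 : ZMod p) ^ K.card * ∏ i ∈ K, (a i : ZMod p) = (-1) ^ (m - 1) := by
    intro K hK
    have hKpos : 0 < K.card := by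
      rw [hK]; exact Nat.mul_pos (by omega) (by omega)
    have h1 := basic (p := p) r m (by omega) a H K hKpos
    have h2 : ∀ F ∈ cov m K, fn p (p ^ r) (∏ M ∈ F, ((1 + X) ^ (blk a M) - 1))
        = if F.card = q - 1 then ∏ i ∈ K, (a i : ZMod p) else 0 := by
      intro F hF
      have hFc := cover_card hF
      rw [hK] at hFc
      have hFc' : q - 1 ≤ F.card := Nat.le_of_mul_le_mul_left hFc (by omega)
      choose g hg hg0 using fun M : Finset ι => factor_one (p := p) (blk a M)
      have h3 : ∏ M ∈ F, ((1 + X : (ZMod p)[X]) ^ (blk a M) - 1) = X ^ F.card * ∏ M ∈ F, g M := by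
        rw [prod_congr rfl (fun M _ => hg M), prod_mul_distrib, prod_const]
      rw [h3]
      split_ifs with hc
      · rw [hc, fn_X_pow_pred, coeff_zero_prod, prod_congr rfl (fun M _ => hg0 M)]
        simp only [blk, Nat.cast_prod]
        exact cover_prod hF (by rw [hc, hK]) _
      · exact fn_X_pow_mul_of_le (by omega) (by omega) _
    rw [sum_congr rfl h2, ← sum_filter, sum_const, nsmul_eq_mul,
      card_partitions s (q - 1) K hK, one_mul] at h1
    rw [h1]
    have h4 : K.card - 1 = p ^ s * (q - 2) + (m - 1) := by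
      rw [hK, ← hm]
      obtain ⟨q', hq'⟩ : ∃ q', q = q' + 2 := ⟨q - 2, by omega⟩
      rw [hq']
      have : m * (q' + 2 - 1) = m * q' + m := by
        rw [show q' + 2 - 1 = q' + 1 from rfl]; ring
      rw [this]; simp; omega
    rw [h4, choose_pow_mul_add s _ _ _ (by omega)]
    simp
  have hnz : ∀ K : Finset ι, K.card = m * (q - 1) → ∏ i ∈ K, (a i : ZMod p) ≠ 0 := by
    intro K hK h0
    have := key K hK
    rw [h0, mul_zero] at this
    exact pow_ne_zero _ (neg_ne_zero.mpr one_ne_zero) this.symm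
  have hle : m * (q - 1) + 1 ≤ Fintype.card ι := by
    rw [hι]
    obtain ⟨q', hq'⟩ : ∃ q', q = q' + 1 := ⟨q - 1, by omega⟩
    rw [hq', Nat.add_sub_cancel, mul_add]
    omega
  have hpos1 : 1 ≤ m * (q - 1) := Nat.mul_pos (by omega) (by omega)
  have hunit : ∀ i, (a i : ZMod p) ≠ 0 := by
    intro i
    obtain ⟨K, hiK, _, hKc⟩ := exists_subsuperset_card_eq (s := {i}) (t := univ)
      (n := m * (q - 1)) (subset_univ _) (by simpa using hpos1) (by rw [card_univ]; omega)
    have := hnz K hKc
    rw [prod_ne_zero_iff] at this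
    exact this i (hiK (mem_singleton_self i))
  refine ⟨hunit, fun i i' => ?_⟩
  by_cases hii : i = i'
  · rw [hii]
  obtain ⟨K0, hK0, hK0c⟩ := exists_subset_card_eq (s := (univ.erase i).erase i')
    (n := m * (q - 1) - 1) (by
      rw [card_erase_of_mem, card_erase_of_mem, card_univ]
      · omega
      · exact mem_univ _
      · exact mem_erase.mpr ⟨fun h => hii h.symm, mem_univ _⟩)
  have hi : i ∉ K0 := fun h => by simpa using hK0 h
  have hi' : i' ∉ K0 := fun h => by simpa using hK0 h
  have e1 := key (insert i K0) (by rw [card_insert_of_notMem hi, hK0c]; omega)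
  have e2 := key (insert i' K0) (by rw [card_insert_of_notMem hi', hK0c]; omega)
  rw [prod_insert hi, card_insert_of_notMem hi] at e1
  rw [prod_insert hi', card_insert_of_notMem hi'] at e2
  rw [← e2] at e1
  have h5 := mul_left_cancel₀ (pow_ne_zero _ (neg_ne_zero.mpr one_ne_zero)) e1
  have h6 : ∏ i ∈ K0, (a i : ZMod p) ≠ 0 := by
    rw [prod_ne_zero_iff]; exact fun k _ => hunit k
  exact mul_right_cancel₀ h6 h5


/-- expansion of the product over a block -/
lemma blk_expand {ι : Type*} [DecidableEq ι] {p j : ℕ} (hj : 1 ≤ j) (a b : ι → ℕ)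
    (hab : ∀ i, a i = 1 + p ^ j * b i) (M : Finset ι) :
    ∃ B : ℕ, blk a M = 1 + p ^ j * B ∧ (B : ZMod p) = ∑ i ∈ M, (b i : ZMod p) := by
  induction M using Finset.induction_on with
  | empty => exact ⟨0, by simp [blk]⟩
  | insert i M hi ih =>
    obtain ⟨B, hB, hBs⟩ := ih
    refine ⟨b i + B + p ^ j * (b i * B), ?_, ?_⟩
    · rw [blk, prod_insert hi, hab i]
      rw [blk] at hB
      rw [hB]; ring
    · rw [sum_insert hi, ← hBs]
      have : ((p : ℕ) : ZMod p) = 0 := CharP.cast_eq_zero (ZMod p) p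
      push_cast
      rw [this, zero_pow (by omega)]
      ring

lemma T_card {ι : Type*} [DecidableEq ι] {p q m : ℕ} (K K' : Finset ι) (h : K.card = K'.card) :
    ∑ F ∈ cov m K, fn p q (X ^ F.card) = ∑ F ∈ cov m K', fn p q (X ^ F.card) := by
  have main : ∀ K : Finset ι, ∑ F ∈ cov m K, (X : (ZMod p)[X]) ^ F.card
      = (-1) ^ K.card * ∑ k ∈ range (K.card + 1),
        K.card.choose k • ((-1) ^ k * (1 + (X : (ZMod p)[X])) ^ (k.choose m)) := by
    intro K
    have h1 := cover_identity (R := (ZMod p)[X]) m (fun _ => X) K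
    simp only [prod_const, card_powersetCard] at h1
    rw [sum_powerset_apply_card
      (fun k => (-1) ^ k * (1 + (X : (ZMod p)[X])) ^ (k.choose m))] at h1
    rw [h1, ← mul_assoc, ← mul_pow]
    simp
  rw [← map_sum, ← map_sum, main K, main K', h]

/-- Step two: congruence modulo `p ^ j` improves to congruence modulo `p ^ (j + 1)`. -/
lemma step_two {ι : Type*} [DecidableEq ι] [Fintype ι] {p : ℕ} [hp : Fact p.Prime] {r s j : ℕ}
    (hj : 1 ≤ j) (hjr : j < r) (hι : Fintype.card ι = p ^ s * p ^ r - 1) (a b : ι → ℕ)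
    (hab : ∀ i, a i = 1 + p ^ j * b i)
    (H : ∀ Y : Finset ι, p ^ s ≤ Y.card → ¬ p ^ r ∣ esy (p ^ s) a Y) :
    ∀ i i', (b i : ZMod p) = b i' := by
  set m := p ^ s with hm
  set q := p ^ r with hq
  set P := p ^ j with hP
  have hm1 : 1 ≤ m := pow_pos hp.out.pos s
  have hP2 : 2 ≤ P := by
    calc 2 ≤ p := hp.out.two_le
      _ = p ^ 1 := (pow_one p).symm
      _ ≤ p ^ j := Nat.pow_le_pow_right hp.out.pos hj
  have hPq : P < q := Nat.pow_lt_pow_right hp.out.one_lt hjr
  have key : ∀ K : Finset ι, K.card = m * (q - P) →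
      (-1 : ZMod p) ^ K.card * (∑ F ∈ cov m K, fn p q (X ^ F.card) + ∑ i ∈ K, (b i : ZMod p))
        = (-1) ^ (m - 1) * ((K.card - 1).choose (m - 1) : ZMod p) := by
    intro K hK
    have hKpos : 0 < K.card := by
      rw [hK]; exact Nat.mul_pos (by omega) (by omega)
    have h1 := basic (p := p) r m (by omega) a H K hKpos
    have h2 : ∀ F ∈ cov m K, fn p (p ^ r) (∏ M ∈ F, ((1 + X) ^ (blk a M) - 1))
        = fn p q (X ^ F.card) + if F.card = q - P then ∑ i ∈ K, (b i : ZMod p) else 0 := by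
      intro F hF
      have hFc := cover_card hF
      rw [hK] at hFc
      have hFc' : q - P ≤ F.card := Nat.le_of_mul_le_mul_left hFc (by omega)
      choose B hB hBs using fun M : Finset ι => blk_expand (p := p) hj a b hab M
      obtain ⟨g, hg⟩ := prod_two (p := p) hP2 F B (fun M => (1 + X) ^ (blk a M) - 1)
        (fun M _ => factor_two hj _ _ (hB M))
      rw [hg]
      have h3 : (X : (ZMod p)[X]) ^ F.card *
          (1 + C (∑ M ∈ F, (B M : ZMod p)) * X ^ (P - 1) + X ^ P * g)
          = X ^ F.card + X ^ (F.card + (P - 1)) * C (∑ M ∈ F, (B M : ZMod p))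
            + X ^ (F.card + P) * g := by
        rw [pow_add, pow_add]; ring
      rw [h3, map_add, map_add, fn_X_pow_mul_of_le (by omega) (by omega) g, add_zero]
      congr 1
      split_ifs with hc
      · have : F.card + (P - 1) = q - 1 := by omega
        rw [this, hq, fn_X_pow_pred, coeff_C_zero]
        rw [sum_congr rfl (fun M _ => hBs M)]
        exact cover_sum hF (by rw [hc, hK]) _
      · exact fn_X_pow_mul_of_le (by omega) (by omega) _
    rw [sum_congr rfl h2, sum_add_distrib, ← sum_filter, sum_const, nsmul_eq_mul,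
      card_partitions s (q - P) K hK, one_mul] at h1
    exact h1
  intro i i'
  by_cases hii : i = i'
  · rw [hii]
  have hpos1 : 1 ≤ m * (q - P) := Nat.mul_pos (by omega) (by omega)
  have hle : m * (q - P) + 1 ≤ Fintype.card ι := by
    rw [hι]
    obtain ⟨q', hq'⟩ : ∃ q', q = q' + P := ⟨q - P, by omega⟩
    rw [hq', Nat.add_sub_cancel, mul_add]
    have : 2 ≤ m * P := by nlinarith
    omega
  obtain ⟨K0, hK0, hK0c⟩ := exists_subset_card_eq (s := (univ.erase i).erase i')
    (n := m * (q - P) - 1) (by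
      rw [card_erase_of_mem, card_erase_of_mem, card_univ]
      · omega
      · exact mem_univ _
      · exact mem_erase.mpr ⟨fun h => hii h.symm, mem_univ _⟩)
  have hi : i ∉ K0 := fun h => by simpa using hK0 h
  have hi' : i' ∉ K0 := fun h => by simpa using hK0 h
  have c1 : (insert i K0).card = m * (q - P) := by rw [card_insert_of_notMem hi, hK0c]; omega
  have c2 : (insert i' K0).card = m * (q - P) := by rw [card_insert_of_notMem hi', hK0c]; omega
  have e1 := key _ c1
  have e2 := key _ c2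
  rw [T_card (insert i K0) (insert i' K0) (c1.trans c2.symm), c1, ← c2, ← e2] at e1
  have h5 := mul_left_cancel₀ (pow_ne_zero _ (neg_ne_zero.mpr one_ne_zero)) e1
  have h6 := add_left_cancel h5
  rw [sum_insert hi, sum_insert hi'] at h6
  exact add_right_cancel h6


/-- the value of `e_m` on a finite subfamily, in the ring `ZMod n` -/
def esyZ {ι : Type*} {n : ℕ} (m : ℕ) (a : ι → ZMod n) (Y : Finset ι) : ZMod n :=
  ∑ M ∈ Y.powersetCard m, ∏ i ∈ M, a i

lemma esyZ_val {ι : Type*} {n : ℕ} [NeZero n] (m : ℕ) (a : ι → ZMod n) (Y : Finset ι) :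
    ((esy m (fun i => (a i).val) Y : ℕ) : ZMod n) = esyZ m a Y := by
  unfold esy esyZ blk
  push_cast
  simp [ZMod.natCast_val, ZMod.cast_id]

lemma step_all {ι : Type*} [DecidableEq ι] [Fintype ι] {p : ℕ} [hp : Fact p.Prime] {r s : ℕ}
    (hr : 1 ≤ r) (hs : 1 ≤ s) (hι : Fintype.card ι = p ^ s * p ^ r - 1) (j : ℕ) (hj : 1 ≤ j) :
    j ≤ r → ∀ a : ι → ZMod (p ^ r),
    (∀ Y : Finset ι, p ^ s ≤ Y.card → esyZ (p ^ s) a Y ≠ 0) →
      (∀ i, IsUnit (a i)) ∧ ∀ i i', ((p : ZMod (p ^ r)) ^ j) ∣ a i - a i' := by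
  have : NeZero (p ^ r) := ⟨(pow_pos hp.out.pos r).ne'⟩
  have hq2 : 2 ≤ p ^ r := by
    calc 2 ≤ p := hp.out.two_le
      _ = p ^ 1 := (pow_one p).symm
      _ ≤ p ^ r := Nat.pow_le_pow_right hp.out.pos hr
  have : Fact (1 < p ^ r) := ⟨by omega⟩
  induction j, hj using Nat.le_induction with
  | base =>
    intro _ a H
    have H' : ∀ Y : Finset ι, p ^ s ≤ Y.card → ¬ p ^ r ∣ esy (p ^ s) (fun i => (a i).val) Y := by
      intro Y hY hd
      rw [← ZMod.natCast_eq_zero_iff, esyZ_val] at hd
      exact H Y hY hd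
    obtain ⟨h1, h2⟩ := step_one hr hs hι (fun i => (a i).val) H'
    refine ⟨fun i => ?_, fun i i' => ?_⟩
    · have h3 := h1 i
      rw [Ne, ZMod.natCast_eq_zero_iff] at h3
      have h4 : Nat.Coprime (a i).val (p ^ r) :=
        Nat.Coprime.pow_right r ((Nat.Prime.coprime_iff_not_dvd hp.out).mpr h3).symm
      have h5 := (ZMod.isUnit_iff_coprime (a i).val (p ^ r)).mpr h4
      rwa [ZMod.natCast_val, ZMod.cast_id] at h5
    · have h3 := h2 i i'
      rw [ZMod.natCast_eq_natCast_iff, Nat.modEq_iff_dvd] at h3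
      obtain ⟨c, hc⟩ := h3
      have h4 := congrArg (Int.cast : ℤ → ZMod (p ^ r)) hc
      push_cast at h4
      simp only [ZMod.natCast_val, ZMod.cast_id', id] at h4
      rw [pow_one]
      exact ⟨-c, by rw [mul_neg, ← h4]; ring⟩
  | succ j hj ih =>
    intro hjr a H
    obtain ⟨hu, -⟩ := ih (by omega) a H
    refine ⟨hu, ?_⟩
    have hbase : ∀ i0 i, ((p : ZMod (p ^ r)) ^ (j + 1)) ∣ a i - a i0 := by
      intro i0 i
      obtain ⟨u, hu0⟩ := hu i0
      set a' : ι → ZMod (p ^ r) := fun i => ((u⁻¹ : (ZMod (p ^ r))ˣ) : ZMod (p ^ r)) * a i with ha'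
      have H' : ∀ Y : Finset ι, p ^ s ≤ Y.card → esyZ (p ^ s) a' Y ≠ 0 := by
        intro Y hY h0
        apply H Y hY
        have : esyZ (p ^ s) a' Y
            = ((u⁻¹ : (ZMod (p ^ r))ˣ) : ZMod (p ^ r)) ^ (p ^ s) * esyZ (p ^ s) a Y := by
          unfold esyZ
          rw [mul_sum]
          apply sum_congr rfl
          intro M hM
          rw [ha', prod_mul_distrib, prod_const, (mem_powersetCard.mp hM).2]
        rw [this] at h0
        have hun : IsUnit (((u⁻¹ : (ZMod (p ^ r))ˣ) : ZMod (p ^ r)) ^ (p ^ s)) :=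
          (Units.isUnit _).pow _
        exact (hun.mul_right_eq_zero).mp h0
      obtain ⟨-, hd⟩ := ih (by omega) a' H'
      have ha'0 : a' i0 = 1 := by
        simp only [ha', ← hu0]; simp
      have hval : ∀ i, ∃ b : ℕ, (a' i).val = 1 + p ^ j * b := by
        intro i
        obtain ⟨c, hc⟩ := hd i i0
        rw [ha'0] at hc
        have h1 : a' i = ((1 + p ^ j * c.val : ℕ) : ZMod (p ^ r)) := by
          push_cast
          rw [ZMod.natCast_val, ZMod.cast_id', id, ← hc]; ring
        have h2 : (a' i).val = (1 + p ^ j * c.val) % p ^ r := by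
          rw [h1, ZMod.val_natCast]
        have h3 : (a' i).val ≡ 1 + p ^ j * c.val [MOD p ^ j] := by
          rw [h2]
          exact (Nat.mod_modEq _ _).of_dvd (pow_dvd_pow p (by omega))
        have h4 : (a' i).val ≡ 1 [MOD p ^ j] := by
          refine h3.trans ?_
          unfold Nat.ModEq
          simp
        have h5 : 2 ≤ p ^ j := by
          calc 2 ≤ p := hp.out.two_le
            _ = p ^ 1 := (pow_one p).symm
            _ ≤ p ^ j := Nat.pow_le_pow_right hp.out.pos hj
        have h6 : 1 ≤ (a' i).val := by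
          rcases Nat.eq_zero_or_pos (a' i).val with h0 | h0
          · rw [h0] at h4
            unfold Nat.ModEq at h4
            rw [Nat.zero_mod, Nat.mod_eq_of_lt (by omega)] at h4
            omega
          · exact h0
        have h7 : p ^ j ∣ (a' i).val - 1 := (Nat.modEq_iff_dvd' h6).mp h4.symm
        obtain ⟨b, hb⟩ := h7
        exact ⟨b, by omega⟩
      choose b hb using hval
      have H'' : ∀ Y : Finset ι, p ^ s ≤ Y.card →
          ¬ p ^ r ∣ esy (p ^ s) (fun i => (a' i).val) Y := by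
        intro Y hY hd
        rw [← ZMod.natCast_eq_zero_iff, esyZ_val] at hd
        exact H' Y hY hd
      have h8 := step_two hj (by omega) hι (fun i => (a' i).val) b hb H'' i i0
      have hb0 : b i0 = 0 := by
        have := hb i0
        rw [ha'0, ZMod.val_one] at this
        have h9 : 0 < p ^ j := pow_pos hp.out.pos j
        have h10 : p ^ j * b i0 = 0 := by omega
        rcases Nat.mul_eq_zero.mp h10 with h | h
        · omega
        · exact h
      rw [hb0, Nat.cast_zero, ZMod.natCast_eq_zero_iff] at h8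
      obtain ⟨c, hc⟩ := h8
      have h9 : a' i = 1 + (p : ZMod (p ^ r)) ^ (j + 1) * c := by
        have h10 := congrArg (Nat.cast : ℕ → ZMod (p ^ r)) (hb i)
        rw [ZMod.natCast_val, ZMod.cast_id', id] at h10
        rw [h10, hc]
        push_cast
        ring
      have h10 : a i = a i0 * a' i := by
        simp only [ha', ← hu0]
        rw [← mul_assoc]; simp
      refine ⟨a i0 * c, ?_⟩
      rw [h10, h9]; ring
    intro i i'
    exact hbase i' i

lemma main_pos {ι : Type*} [DecidableEq ι] [Fintype ι] {p : ℕ} [hp : Fact p.Prime] {r s : ℕ}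
    (hr : 1 ≤ r) (hs : 1 ≤ s) (hι : Fintype.card ι = p ^ s * p ^ r - 1)
    (a : ι → ZMod (p ^ r)) (H : ∀ Y : Finset ι, p ^ s ≤ Y.card → esyZ (p ^ s) a Y ≠ 0) :
    (∀ i, IsUnit (a i)) ∧ ∀ i i', a i = a i' := by
  obtain ⟨h1, h2⟩ := step_all hr hs hι r hr le_rfl a H
  refine ⟨h1, fun i i' => ?_⟩
  have h3 := h2 i i'
  have h4 : (p : ZMod (p ^ r)) ^ r = 0 := by
    have := CharP.cast_eq_zero (ZMod (p ^ r)) (p ^ r)
    push_cast at this
    exact this
  rw [h4, zero_dvd_iff, sub_eq_zero] at h3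
  exact h3

/-- the classical case `m = 1` -/
lemma main_zero {n k : ℕ} (hn : 2 ≤ n) (hk : k = n - 1) (a : Fin k → ZMod n)
    (H : ∀ Y : Finset (Fin k), 1 ≤ Y.card → ∑ i ∈ Y, a i ≠ 0) :
    ∀ i i', a i = a i' := by
  subst hk
  have : NeZero n := ⟨by omega⟩
  intro i i'
  by_contra hne
  have hii : i ≠ i' := fun h => hne (by rw [h])
  have hn3 : 2 ≤ n - 1 := by
    have h1 := i.2
    have h2 := i'.2
    by_contra hlt
    apply hii
    ext; omega
  let z : Fin (n - 1) := ⟨0, by omega⟩
  let o : Fin (n - 1) := ⟨1, by omega⟩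
  have hzo : z ≠ o := by simp [z, o]
  obtain ⟨e, he0, he1⟩ : ∃ e : Equiv.Perm (Fin (n - 1)), e z = i ∧ e o = i' := by
    let e1 : Equiv.Perm (Fin (n - 1)) := Equiv.swap z i
    refine ⟨e1.trans (Equiv.swap (e1 o) i'), ?_, ?_⟩
    · simp only [Equiv.trans_apply]
      have h1 : e1 z = i := Equiv.swap_apply_left _ _
      rw [h1]
      apply Equiv.swap_apply_of_ne_of_ne _ hii
      rw [← h1]
      exact fun h => hzo (e1.injective h)
    · simp
  let Cs : Fin (n - 1) → Finset (Fin (n - 1)) := fun k => (univ.filter (fun x => x ≤ k)).map e.toEmbedding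
  have hmemC : ∀ k x, e x ∈ Cs k ↔ x ≤ k := by
    intro k x; simp [Cs]
  have hCne : ∀ k, ∑ i ∈ Cs k, a i ≠ 0 := by
    intro k
    apply H
    exact card_pos.mpr ⟨e k, (hmemC k k).mpr le_rfl⟩
  have hinj : Function.Injective (fun k => (⟨∑ i ∈ Cs k, a i, hCne k⟩ : {x : ZMod n // x ≠ 0})) := by
    have haux : ∀ k l : Fin (n - 1), k < l → ∑ i ∈ Cs k, a i ≠ ∑ i ∈ Cs l, a i := by
      intro k l hkl h
      have hsub : Cs k ⊆ Cs l := by
        intro x hx
        obtain ⟨y, rfl⟩ := e.surjective x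
        rw [hmemC] at hx ⊢
        exact hx.trans hkl.le
      have h1 := sum_sdiff hsub (f := a)
      rw [← h] at h1
      have h2 : ∑ x ∈ Cs l \ Cs k, a x = 0 := by
        have := h1
        rwa [add_eq_right] at this
      apply H _ _ h2
      refine card_pos.mpr ⟨e l, ?_⟩
      rw [mem_sdiff, hmemC, hmemC]
      exact ⟨le_rfl, not_le.mpr hkl⟩
    intro k l h
    simp only [Subtype.mk.injEq] at h
    rcases lt_trichotomy k l with hkl | hkl | hkl
    · exact absurd h (haux k l hkl)
    · exact hkl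
    · exact absurd h.symm (haux l k hkl)
  have hcard : Fintype.card (Fin (n - 1)) = Fintype.card {x : ZMod n // x ≠ 0} := by
    rw [Fintype.card_fin, Fintype.card_subtype_compl, ZMod.card]
    simp
  have hbij := (Fintype.bijective_iff_injective_and_card _).mpr ⟨hinj, hcard⟩
  have hai' : a i' ≠ 0 := by
    have := H {i'} (by simp)
    simpa using this
  obtain ⟨k, hk⟩ := hbij.2 ⟨a i', hai'⟩
  simp only [Subtype.mk.injEq] at hk
  by_cases hk0 : k = z
  · have : Cs k = {i} := by
      ext x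
      obtain ⟨y, rfl⟩ := e.surjective x
      rw [hmemC, mem_singleton, ← he0, e.injective.eq_iff, hk0]
      constructor
      · intro h; exact le_antisymm h (Fin.mk_le_of_le_val (Nat.zero_le _))
      · rintro rfl; exact le_rfl
    rw [this, sum_singleton] at hk
    exact hne hk
  · have hzk : z ≤ k := Fin.mk_le_of_le_val (Nat.zero_le _)
    have hok : o ≤ k := by
      have : z < k := lt_of_le_of_ne hzk (Ne.symm hk0)
      exact Fin.mk_le_of_le_val (by
        have : (0 : ℕ) < k.val := this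
        omega)
    have hi'C : i' ∈ Cs k := by rw [← he1, hmemC]; exact hok
    have hiC : i ∈ (Cs k).erase i' := by
      rw [mem_erase]
      refine ⟨hii, ?_⟩
      rw [← he0, hmemC]; exact hzk
    have h1 := add_sum_erase (Cs k) a hi'C
    rw [hk] at h1
    have h2 : ∑ x ∈ (Cs k).erase i', a x = 0 := by
      rwa [add_eq_left] at h1
    exact H _ (card_pos.mpr ⟨i, hiC⟩) h2

lemma zmultiples_of_isUnit {n : ℕ} [NeZero n] {a : ZMod n} (ha : IsUnit a) :
    AddSubgroup.zmultiples a = ⊤ := by
  rw [AddSubgroup.eq_top_iff']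
  intro x
  obtain ⟨u, rfl⟩ := ha
  rw [AddSubgroup.mem_zmultiples_iff]
  refine ⟨((x * ((u⁻¹ : (ZMod n)ˣ) : ZMod n)).val : ℤ), ?_⟩
  rw [zsmul_eq_mul]
  push_cast
  rw [ZMod.natCast_val, ZMod.cast_id', id, mul_assoc]
  simp

/-- Every `m`-zero free sequence of length `m q - 1` over `ZMod q`, where `q = p ^ r` and
`m = p ^ s`, consists of `m q - 1` copies of one generator of the additive group. -/
theorem main (p : ℕ) (hp : p.Prime) (r s : ℕ) (hr : 1 ≤ r) (S : Multiset (ZMod (p ^ r)))
    (hS : ∀ T ≤ S, p ^ s ≤ Multiset.card T → T.esymm (p ^ s) ≠ 0)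
    (hcard : Multiset.card S = p ^ s * p ^ r - 1) :
    ∃ a : ZMod (p ^ r), AddSubgroup.zmultiples a = ⊤ ∧
      S = Multiset.replicate (p ^ s * p ^ r - 1) a := by
  have hpF : Fact p.Prime := ⟨hp⟩
  have : NeZero (p ^ r) := ⟨(pow_pos hp.pos r).ne'⟩
  have hq2 : 2 ≤ p ^ r := by
    calc 2 ≤ p := hp.two_le
      _ = p ^ 1 := (pow_one p).symm
      _ ≤ p ^ r := Nat.pow_le_pow_right hp.pos hr
  have hms : 1 ≤ p ^ s := pow_pos hp.pos s
  have hmq : 2 ≤ p ^ s * p ^ r := by nlinarith
  obtain ⟨l, rfl⟩ := Quot.exists_rep S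
  change ∀ T ≤ (l : Multiset (ZMod (p ^ r))), p ^ s ≤ Multiset.card T → T.esymm (p ^ s) ≠ 0 at hS
  change Multiset.card (l : Multiset (ZMod (p ^ r))) = _ at hcard
  change ∃ a : ZMod (p ^ r), AddSubgroup.zmultiples a = ⊤ ∧
      (l : Multiset (ZMod (p ^ r))) = Multiset.replicate (p ^ s * p ^ r - 1) a
  rw [Multiset.coe_card] at hcard
  set a : Fin l.length → ZMod (p ^ r) := l.get with ha
  have hl : (l : Multiset (ZMod (p ^ r))) = (univ : Finset (Fin l.length)).val.map a := by
    rw [Fin.univ_val_map, ha, List.ofFn_get]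
  have H : ∀ Y : Finset (Fin l.length), p ^ s ≤ Y.card → esyZ (p ^ s) a Y ≠ 0 := by
    intro Y hY
    have h1 : Y.val.map a ≤ (l : Multiset (ZMod (p ^ r))) := by
      rw [hl]
      exact Multiset.map_le_map (Finset.val_le_iff.mpr (subset_univ Y))
    have h2 := hS _ h1 (by simpa using hY)
    rw [Finset.esymm_map_val] at h2
    exact h2
  have hgoal : (∀ i, IsUnit (a i)) ∧ ∀ i i', a i = a i' := by
    rcases Nat.eq_zero_or_pos s with hs0 | hs1
    · subst hs0
      have e1 : l.length = p ^ r - 1 := by rw [hcard]; simp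
      have H2 : ∀ Y : Finset (Fin l.length), 1 ≤ Y.card → ∑ i ∈ Y, a i ≠ 0 := by
        intro Y hY
        have := H Y (by simpa using hY)
        unfold esyZ at this
        rw [pow_zero, powersetCard_one] at this
        simpa using this
      have hall : ∀ i i', a i = a i' := main_zero hq2 e1 a H2
      refine ⟨fun i => ?_, hall⟩
      by_contra hnu
      have h4 : ¬ Nat.Coprime (a i).val (p ^ r) := by
        intro hc
        apply hnu
        have h5 := (ZMod.isUnit_iff_coprime (a i).val (p ^ r)).mpr hc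
        rwa [ZMod.natCast_val, ZMod.cast_id] at h5
      have h5 : p ∣ (a i).val := by
        by_contra hnd
        exact h4 (Nat.Coprime.pow_right r ((Nat.Prime.coprime_iff_not_dvd hp).mpr hnd).symm)
      have hrr : p ^ r = p ^ (r - 1) * p := by
        rw [← pow_succ]; congr 1; omega
      have hpow1 : 1 ≤ p ^ (r - 1) := pow_pos hp.pos _
      have hlt : p ^ (r - 1) + 1 ≤ p ^ r := by
        rw [hrr]; nlinarith [hp.two_le]
      obtain ⟨Y, -, hYc⟩ := exists_subset_card_eq (s := (univ : Finset (Fin l.length)))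
        (n := p ^ (r - 1)) (by rw [card_univ, Fintype.card_fin]; omega)
      apply H2 Y (by rw [hYc]; exact hpow1)
      rw [sum_congr rfl (fun x _ => hall x i), sum_const, hYc, nsmul_eq_mul]
      obtain ⟨c, hc⟩ := h5
      have h6 : a i = ((p * c : ℕ) : ZMod (p ^ r)) := by
        rw [← hc, ZMod.natCast_val, ZMod.cast_id', id]
      rw [h6]
      have h7 : p ^ (r - 1) * (p * c) = p ^ r * c := by rw [hrr]; ring
      have h8 : ((p ^ (r - 1) : ℕ) : ZMod (p ^ r)) * ((p * c : ℕ) : ZMod (p ^ r))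
          = ((p ^ r * c : ℕ) : ZMod (p ^ r)) := by
        rw [← Nat.cast_mul, h7]
      rw [h8, Nat.cast_mul, CharP.cast_eq_zero (ZMod (p ^ r)) (p ^ r), zero_mul]
    · exact main_pos hr hs1 (by simpa using hcard) a H
  obtain ⟨hu, hall⟩ := hgoal
  have i0 : Fin l.length := ⟨0, by omega⟩
  refine ⟨a i0, zmultiples_of_isUnit (hu i0), ?_⟩
  rw [hl, Multiset.eq_replicate]
  refine ⟨by simpa using hcard, ?_⟩
  intro b hb
  rw [Multiset.mem_map] at hb
  obtain ⟨i, -, rfl⟩ := hb
  exact hall i i0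

end Pool.Agent.Helper20.ZeroFree
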